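import Mathlib

set_option autoImplicit false

/-!
A finite measure whose Poisson integral is bounded below on a set of positive measure is not
singular.
-/

namespace Pool.Agent.H792R3

open MeasureTheory Set
open scoped ENNReal

/-- Poisson kernel -/
noncomputable def pk (η E x : ℝ) : ℝ := η / ((x - E) ^ 2 + η ^ 2)

lemma pk_pos {η : ℝ} (hη : 0 < η) (E x : ℝ) : 0 < pk η E x := by
  unfold pk; positivity

lemma pk_cont {η : ℝ} (hη : 0 < η) : Continuous fun p : ℝ × ℝ => pk η p.1 p.2 := by
  unfold pk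
  apply Continuous.div (by fun_prop) (by fun_prop)
  intro p
  positivity

lemma pk_symm (η E x : ℝ) : pk η E x = pk η x E := by
  unfold pk
  congr 1; ring

lemma pk_lintegral {η : ℝ} (hη : 0 < η) (x : ℝ) :
    ∫⁻ E, ENNReal.ofReal (pk η E x) ≤ ENNReal.ofReal Real.pi := by
  have h1 : ∀ E, pk η E x = η⁻¹ * (1 + ((E - x) / η) ^ 2)⁻¹ := by
    intro E
    unfold pk
    field_simp
    ring
  have hi : Integrable (fun E => pk η E x) := by
    simp_rw [h1]
    apply Integrable.const_mul
    have := (integrable_inv_one_add_sq).comp_div hη.ne'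
    exact this.comp_sub_right x
  rw [← ofReal_integral_eq_lintegral_ofReal hi (Filter.Eventually.of_forall fun E => (pk_pos hη E x).le)]
  apply le_of_eq
  congr 1
  simp_rw [h1]
  rw [integral_const_mul]
  have h2 : ∫ E, (1 + ((E - x) / η) ^ 2)⁻¹ = ∫ E, (1 + (E / η) ^ 2)⁻¹ :=
    integral_sub_right_eq_self (fun E => (1 + (E / η) ^ 2)⁻¹) x
  rw [h2]
  have h3 := Measure.integral_comp_div (fun E : ℝ => (1 + E ^ 2)⁻¹) η
  rw [h3, integral_univ_inv_one_add_sq, abs_of_pos hη, smul_eq_mul]
  field_simp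

theorem not_singular (μ : Measure ℝ) [IsFiniteMeasure μ] (S : Set ℝ) (hS : MeasurableSet S)
    (hS0 : volume S ≠ 0) (hS1 : volume S ≠ ⊤) (c : ℝ) (hc : 0 < c)
    (h : ∀ E ∈ S, ∀ η : ℝ, 0 < η → η ≤ 1 → c ≤ ∫ x, pk η E x ∂μ) :
    ¬ μ ⟂ₘ volume := by
  rintro ⟨A, hA, hμA, hvA⟩
  set V := (volume S).toReal with hV
  have hVpos : 0 < V := ENNReal.toReal_pos hS0 hS1
  set B := Aᶜ with hB
  have hBm : MeasurableSet B := hA.compl
  -- compact K
  set δ : ℝ := c * V / (16 * Real.pi) with hδ
  have hδpos : 0 < δ := by have := Real.pi_pos; positivity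
  obtain ⟨K, hKB, hK, hKμ⟩ : ∃ K, K ⊆ B ∧ IsCompact K ∧ μ (B \ K) < ENNReal.ofReal δ := by
    obtain ⟨K, h1, h2, h3⟩ := hBm.exists_isCompact_sdiff_lt (μ := μ) (measure_ne_top _ _)
      (ε := ENNReal.ofReal δ) (by simpa using hδpos)
    exact ⟨K, h1, h2, h3⟩
  have hKc : μ Kᶜ ≤ ENNReal.ofReal δ := by
    have : Kᶜ ⊆ A ∪ (B \ K) := by
      intro x hx
      by_cases hxA : x ∈ A
      · exact Or.inl hxA
      · exact Or.inr ⟨hxA, hx⟩
    calc μ Kᶜ ≤ μ (A ∪ (B \ K)) := measure_mono this
      _ ≤ μ A + μ (B \ K) := measure_union_le _ _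
      _ ≤ _ := by rw [hμA, zero_add]; exact hKμ.le
  have hK0 : volume K = 0 := measure_mono_null hKB hvA
  obtain ⟨O, hKO, hO, hOv⟩ : ∃ O, K ⊆ O ∧ IsOpen O ∧ volume O < ENNReal.ofReal (V / 2) := by
    have := K.exists_isOpen_lt_of_lt (μ := volume) (ENNReal.ofReal (V / 2)) (by
      rw [hK0]; simpa using hVpos)
    obtain ⟨O, h1, h2, h3⟩ := this
    exact ⟨O, h1, h2, h3⟩
  obtain ⟨r, hr, hrO⟩ := hK.exists_thickening_subset_open hO hKO
  set S' := S \ O with hS'
  have hS'm : MeasurableSet S' := hS.diff hO.measurableSet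
  have hS'v : ENNReal.ofReal (V / 2) ≤ volume S' := by
    have h1 : volume S ≤ volume S' + volume O := by
      calc volume S ≤ volume (S' ∪ O) := measure_mono (by
            intro x hx
            by_cases hxO : x ∈ O
            · exact Or.inr hxO
            · exact Or.inl ⟨hx, hxO⟩)
        _ ≤ _ := measure_union_le _ _
    have h2 : volume S = ENNReal.ofReal (V / 2) + ENNReal.ofReal (V / 2) := by
      rw [← ENNReal.ofReal_add (by positivity) (by positivity), add_halves, hV,
        ENNReal.ofReal_toReal hS1]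
    rw [h2] at h1
    have h3 : ENNReal.ofReal (V / 2) + ENNReal.ofReal (V / 2) ≤
        volume S' + ENNReal.ofReal (V / 2) := h1.trans (by gcongr)
    exact (ENNReal.add_le_add_iff_right ENNReal.ofReal_ne_top).1 h3
  have hS'top : volume S' ≤ ENNReal.ofReal V := by
    rw [hV, ENNReal.ofReal_toReal hS1]
    exact measure_mono sdiff_subset
  -- choose η
  set Mμ := (μ univ).toReal with hMμ
  have hMμ0 : 0 ≤ Mμ := ENNReal.toReal_nonneg
  set η : ℝ := min 1 (c * r ^ 2 / (16 * (Mμ + 1))) with hη
  have hηpos : 0 < η := by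
    rw [hη]; apply lt_min one_pos; positivity
  have hη1 : η ≤ 1 := min_le_left _ _
  have hη2 : η ≤ c * r ^ 2 / (16 * (Mμ + 1)) := min_le_right _ _
  -- lower bound
  have hmeas : Measurable fun p : ℝ × ℝ => ENNReal.ofReal (pk η p.1 p.2) :=
    (pk_cont hηpos).measurable.ennreal_ofReal
  have hcontx : ∀ E, Continuous fun x => pk η E x := fun E =>
    (pk_cont hηpos).comp (by fun_prop : Continuous fun x : ℝ => (E, x))
  have hbd : ∀ E x, pk η E x ≤ η⁻¹ := by
    intro E x
    unfold pk
    rw [div_le_iff₀ (by positivity)]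
    have : η⁻¹ * ((x - E) ^ 2 + η ^ 2) = η⁻¹ * (x - E) ^ 2 + η := by field_simp
    rw [this]
    have : 0 ≤ η⁻¹ * (x - E) ^ 2 := by positivity
    linarith
  have hint : ∀ E, Integrable (fun x => pk η E x) μ := fun E =>
    Integrable.of_bound (hcontx E).aestronglyMeasurable η⁻¹
      (Filter.Eventually.of_forall fun x => by
        rw [Real.norm_of_nonneg (pk_pos hηpos E x).le]; exact hbd E x)
  have low : ENNReal.ofReal (c * (V / 2)) ≤
      ∫⁻ E in S', ∫⁻ x, ENNReal.ofReal (pk η E x) ∂μ := by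
    calc ENNReal.ofReal (c * (V / 2)) = ENNReal.ofReal c * ENNReal.ofReal (V / 2) :=
          ENNReal.ofReal_mul hc.le
      _ ≤ ENNReal.ofReal c * volume S' := by gcongr
      _ = ∫⁻ _ in S', ENNReal.ofReal c := by rw [setLIntegral_const]
      _ ≤ _ := by
        apply setLIntegral_mono' hS'm
        intro E hE
        rw [← ofReal_integral_eq_lintegral_ofReal (hint E)
          (Filter.Eventually.of_forall fun x => (pk_pos hηpos E x).le)]
        exact ENNReal.ofReal_le_ofReal (h E hE.1 η hηpos hη1)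
  rw [lintegral_lintegral_swap] at low
  swap
  · exact hmeas.aemeasurable
  -- upper bound
  have up1 : ∀ x ∈ K, ∫⁻ E in S', ENNReal.ofReal (pk η E x) ≤
      ENNReal.ofReal (η / r ^ 2 * V) := by
    intro x hx
    calc ∫⁻ E in S', ENNReal.ofReal (pk η E x) ≤ ∫⁻ _ in S', ENNReal.ofReal (η / r ^ 2) := by
          apply setLIntegral_mono' hS'm
          intro E hE
          apply ENNReal.ofReal_le_ofReal
          have hd : r ≤ |x - E| := by
            by_contra hcon
            apply hE.2
            apply hrO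
            rw [Metric.mem_thickening_iff]
            refine ⟨x, hx, ?_⟩
            rw [Real.dist_eq, abs_sub_comm]
            exact not_le.1 hcon
          unfold pk
          apply div_le_div_of_nonneg_left hηpos.le (by positivity)
          have : r ^ 2 ≤ (x - E) ^ 2 := by rw [← sq_abs (x - E)]; gcongr
          nlinarith [sq_nonneg η]
      _ = ENNReal.ofReal (η / r ^ 2) * volume S' := by rw [setLIntegral_const]
      _ ≤ ENNReal.ofReal (η / r ^ 2) * ENNReal.ofReal V := by gcongr
      _ = _ := by rw [← ENNReal.ofReal_mul (by positivity)]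
  have up2 : ∀ x, ∫⁻ E in S', ENNReal.ofReal (pk η E x) ≤ ENNReal.ofReal Real.pi := fun x =>
    (setLIntegral_le_lintegral _ _).trans (pk_lintegral hηpos x)
  have up : ∫⁻ x, ∫⁻ E in S', ENNReal.ofReal (pk η E x) ∂volume ∂μ ≤
      ENNReal.ofReal (η / r ^ 2 * V * Mμ + Real.pi * δ) := by
    rw [← lintegral_add_compl _ hK.measurableSet]
    calc _ ≤ ∫⁻ _ in K, ENNReal.ofReal (η / r ^ 2 * V) ∂μ + ∫⁻ _ in Kᶜ, ENNReal.ofReal Real.pi ∂μ := by
          apply add_le_add
          · exact setLIntegral_mono' hK.measurableSet fun x hx => up1 x hx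
          · exact setLIntegral_mono' hK.measurableSet.compl fun x _ => up2 x
      _ = ENNReal.ofReal (η / r ^ 2 * V) * μ K + ENNReal.ofReal Real.pi * μ Kᶜ := by
          rw [setLIntegral_const, setLIntegral_const]
      _ ≤ ENNReal.ofReal (η / r ^ 2 * V) * ENNReal.ofReal Mμ +
          ENNReal.ofReal Real.pi * ENNReal.ofReal δ := by
          gcongr
          rw [hMμ, ENNReal.ofReal_toReal (measure_ne_top _ _)]
          exact measure_mono (subset_univ _)
      _ = _ := by
          rw [← ENNReal.ofReal_mul (by positivity), ← ENNReal.ofReal_mul Real.pi_pos.le,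
            ← ENNReal.ofReal_add (by positivity) (by have := Real.pi_pos; positivity)]
  have fin := low.trans up
  rw [ENNReal.ofReal_le_ofReal_iff (by have := Real.pi_pos; positivity)] at fin
  have e1 : Real.pi * δ = c * V / 16 := by
    rw [hδ]; have := Real.pi_pos.ne'; field_simp
  have e2 : η / r ^ 2 * V * Mμ ≤ c * V / 16 := by
    have h1 : η / r ^ 2 * (Mμ + 1) ≤ c / 16 := by
      rw [div_mul_eq_mul_div, div_le_iff₀ (by positivity)]
      have := mul_le_mul_of_nonneg_right hη2 (show 0 ≤ Mμ + 1 by linarith)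
      refine this.trans (le_of_eq ?_)
      field_simp
    have h2 : η / r ^ 2 * Mμ ≤ c / 16 := by
      refine le_trans ?_ h1
      apply mul_le_mul_of_nonneg_left (by linarith) (by positivity)
    calc η / r ^ 2 * V * Mμ = (η / r ^ 2 * Mμ) * V := by ring
      _ ≤ c / 16 * V := by gcongr
      _ = _ := by ring
  have : c * (V / 2) ≤ c * V / 16 + c * V / 16 := by linarith
  have h9 : 0 < c * V := by positivity
  linarith

end Pool.Agent.H792R3
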