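import Mathlib

set_option autoImplicit false

/-!
Existence of the spectral measure of a vector for a bounded self-adjoint operator.
-/

namespace Pool.Agent.H792R3

open MeasureTheory

section

variable {X : Type} [NormedAddCommGroup X] [InnerProductSpace ℂ X] [CompleteSpace X]

/-- inner product form of the functional calculus -/
lemma cfc_inner_mul {H : X →L[ℂ] X} (f g : ℝ → ℝ) (hf : Continuous f)
    (hg : Continuous g) (φ : X) :
    inner ℂ (cfc f H φ) (cfc g H φ) = inner ℂ φ (cfc (fun x => f x * g x) H φ) := by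
  have h1 : IsSelfAdjoint (cfc f H) := cfc_predicate f H
  have h2 : (ContinuousLinearMap.adjoint (cfc f H)) = cfc f H := h1
  rw [cfc_mul f g H hf.continuousOn hg.continuousOn]
  rw [mul_apply_eq_comp]
  have h3 := ContinuousLinearMap.adjoint_inner_right (cfc f H) φ ((cfc g H) φ)
  rw [h2] at h3
  exact h3.symm

lemma cfc_inner_nonneg {H : X →L[ℂ] X} (hH : IsSelfAdjoint H)
    (f : C(spectrum ℝ H, ℝ)) (hf : 0 ≤ f) (φ : X) :
    inner ℂ φ (cfcHom (R := ℝ) hH f φ) = ((‖cfcHom (R := ℝ) hH
      (⟨fun x => Real.sqrt (f x), by fun_prop⟩ : C(spectrum ℝ H, ℝ)) φ‖ ^ 2 : ℝ) : ℂ) := by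
  set g : C(spectrum ℝ H, ℝ) := ⟨fun x => Real.sqrt (f x), by fun_prop⟩ with hg
  have h1 : f = star g * g := by
    ext x
    simp only [ContinuousMap.mul_apply, star_trivial, hg,
      ContinuousMap.coe_mk]
    exact (Real.mul_self_sqrt (hf x)).symm
  conv_lhs => rw [h1, map_mul, map_star]
  rw [mul_apply_eq_comp, ContinuousLinearMap.star_eq_adjoint,
    ContinuousLinearMap.adjoint_inner_right, inner_self_eq_norm_sq_to_K]
  push_cast
  rfl

/-- spectral measure -/
theorem exists_specMeas (H : X →L[ℂ] X) (hH : IsSelfAdjoint H) (φ : X) :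
    ∃ μ : Measure ℝ, IsFiniteMeasure μ ∧ (∀ f : ℝ → ℝ, Continuous f →
      Integrable f μ ∧ ((∫ x, f x ∂μ : ℝ) : ℂ) = inner ℂ φ (cfc f H φ)) := by
  have hcs : CompactSpace (spectrum ℝ H) := isCompact_iff_compactSpace.mp (spectrum.isCompact H)
  let L : CompactlySupportedContinuousMap (spectrum ℝ H) ℝ →ₚ[ℝ] ℝ :=
  { toFun g := (inner ℂ φ (cfcHom (R := ℝ) hH g.toContinuousMap φ)).re
    map_add' g g' := by
      have : (g + g').toContinuousMap = g.toContinuousMap + g'.toContinuousMap := by
        ext x; rfl
      rw [this, map_add, add_apply, inner_add_right, Complex.add_re]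
    map_smul' c g := by
      have : (c • g).toContinuousMap = c • g.toContinuousMap := by
        ext x; rfl
      rw [this, map_smul]
      change (inner ℂ φ (c • (cfcHom (R := ℝ) hH g.toContinuousMap φ))).re = _
      rw [RCLike.real_smul_eq_coe_smul (K := ℂ), inner_smul_right]
      simp
    monotone' g g' hgg' := by
      have h1 : 0 ≤ (inner ℂ φ (cfcHom (R := ℝ) hH
          (g'.toContinuousMap - g.toContinuousMap) φ)).re := by
        rw [cfc_inner_nonneg hH]
        · rw [Complex.ofReal_re]; positivity
        · intro x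
          have := hgg' x
          simpa using this
      rw [map_sub, sub_apply, inner_sub_right, Complex.sub_re] at h1
      exact sub_nonneg.mp h1 }
  set ν : Measure (spectrum ℝ H) := RealRMK.rieszMeasure L with hν
  have hint : ∀ g : C(spectrum ℝ H, ℝ), ∫ x, g x ∂ν = (inner ℂ φ (cfcHom (R := ℝ) hH g φ)).re := by
    intro g
    let g' : CompactlySupportedContinuousMap (spectrum ℝ H) ℝ :=
    { toFun := g
      hasCompactSupport' := HasCompactSupport.of_compactSpace _ }
    exact RealRMK.integral_rieszMeasure L g'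
  have hfin : IsFiniteMeasure ν := inferInstance
  refine ⟨ν.map Subtype.val, inferInstance, fun f hf => ?_⟩
  have hm : AEMeasurable (Subtype.val : spectrum ℝ H → ℝ) ν :=
    measurable_subtype_coe.aemeasurable
  constructor
  · rw [integrable_map_measure hf.aestronglyMeasurable hm]
    have hc : Continuous (f ∘ (Subtype.val : spectrum ℝ H → ℝ)) := hf.comp continuous_subtype_val
    exact hc.integrable_of_hasCompactSupport (HasCompactSupport.of_compactSpace _)
  · rw [integral_map hm hf.aestronglyMeasurable]
    have h1 := hint (⟨fun x => f x, hf.comp continuous_subtype_val⟩ : C(spectrum ℝ H, ℝ))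
    simp only [ContinuousMap.coe_mk] at h1
    rw [h1, cfc_apply f H hH hf.continuousOn]
    have h2 : ∀ g : C(spectrum ℝ H, ℝ), (inner ℂ φ (cfcHom (R := ℝ) hH g φ)).im = 0 := by
      intro g
      have h3 : IsSelfAdjoint (cfcHom (R := ℝ) hH g) := by
        rw [IsSelfAdjoint, ← map_star]
        congr 1
      have h4 := (ContinuousLinearMap.isSelfAdjoint_iff_isSymmetric.1 h3).im_inner_self_apply φ
      exact h4
    apply Complex.ext
    · rw [Complex.ofReal_re]; rfl
    · rw [Complex.ofReal_im]
      exact (h2 _).symm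

end

end Pool.Agent.H792R3
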