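import Mathlib
import Pool.Agent.H792R3.SpecMeas
import Pool.Agent.H792R3.Poisson
import Pool.Agent.Helper434.PSCplx

set_option autoImplicit false

/-!
Bounded Dirichlet solutions on a set of energies of positive measure give absolutely continuous
spectrum (for even potentials).
-/

namespace Pool.Agent.H792R3

open MeasureTheory Set

abbrev L2Z : Type := lp (fun _ : ℤ => ℂ) 2

section

variable {X : Type} [NormedAddCommGroup X] [InnerProductSpace ℂ X] [CompleteSpace X]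

lemma H_cfc (H : X →L[ℂ] X) (hH : IsSelfAdjoint H) (f : ℝ → ℝ) (hf : Continuous f) (φ : X) :
    H (cfc f H φ) = cfc (fun x => x * f x) H φ := by
  have h1 := cfc_mul (fun x : ℝ => x) f H (by fun_prop) hf.continuousOn
  rw [cfc_id' ℝ H] at h1
  rw [h1, mul_apply_eq_comp]

/-- resolvent vector -/
lemma exists_resolvent (H : X →L[ℂ] X) (hH : IsSelfAdjoint H) (φ : X) (μ : Measure ℝ)
    (hμ : ∀ f : ℝ → ℝ, Continuous f →
      Integrable f μ ∧ ((∫ x, f x ∂μ : ℝ) : ℂ) = inner ℂ φ (cfc f H φ)) (E η : ℝ) (hη : 0 < η) :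
    ∃ ψ : X, H ψ = ((E : ℂ) + (η : ℂ) * Complex.I) • ψ + φ ∧
      η * ‖ψ‖ ^ 2 ≤ 2 * ∫ x, pk η E x ∂μ := by
  set a : ℝ → ℝ := fun x => (x - E) / ((x - E) ^ 2 + η ^ 2) with ha
  set b : ℝ → ℝ := fun x => η / ((x - E) ^ 2 + η ^ 2) with hb
  have hden : ∀ x : ℝ, (x - E) ^ 2 + η ^ 2 ≠ 0 := fun x => by positivity
  have hac : Continuous a := by
    rw [ha]; exact Continuous.div (by fun_prop) (by fun_prop) hden
  have hbc : Continuous b := by
    rw [hb]; exact Continuous.div (by fun_prop) (by fun_prop) hden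
  have e1 : H (cfc a H φ) = (E : ℂ) • cfc a H φ + φ - (η : ℂ) • cfc b H φ := by
    rw [H_cfc H hH a hac]
    have h1 : (fun x => x * a x) = fun x => (E * a x + 1) - η * b x := by
      funext x
      simp only [ha, hb]
      have := hden x
      field_simp
      ring
    rw [h1, cfc_sub (fun x => E * a x + 1) (fun x => η * b x) H (by fun_prop) (by fun_prop),
      cfc_add (a := H) (f := fun x => E * a x) (g := fun _ => 1) (by fun_prop) (by fun_prop),
      cfc_const_mul E a H hac.continuousOn, cfc_const_mul η b H hbc.continuousOn,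
      cfc_const_one ℝ H]
    rw [sub_apply, add_apply, one_apply_eq_self]
    rw [show ((E • cfc a H) φ) = (E : ℂ) • cfc a H φ from
      RCLike.real_smul_eq_coe_smul (K := ℂ) E (cfc a H φ),
      show ((η • cfc b H) φ) = (η : ℂ) • cfc b H φ from
      RCLike.real_smul_eq_coe_smul (K := ℂ) η (cfc b H φ)]
  have e2 : H (cfc b H φ) = (E : ℂ) • cfc b H φ + (η : ℂ) • cfc a H φ := by
    rw [H_cfc H hH b hbc]
    have h1 : (fun x => x * b x) = fun x => E * b x + η * a x := by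
      funext x
      simp only [ha, hb]
      have := hden x
      field_simp
      ring
    rw [h1, cfc_add (a := H) (f := fun x => E * b x) (g := fun x => η * a x) (by fun_prop)
        (by fun_prop),
      cfc_const_mul E b H hbc.continuousOn, cfc_const_mul η a H hac.continuousOn]
    rw [add_apply]
    rw [show ((E • cfc b H) φ) = (E : ℂ) • cfc b H φ from
      RCLike.real_smul_eq_coe_smul (K := ℂ) E (cfc b H φ),
      show ((η • cfc a H) φ) = (η : ℂ) • cfc a H φ from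
      RCLike.real_smul_eq_coe_smul (K := ℂ) η (cfc a H φ)]
  have haa : Continuous fun x => a x * a x := hac.mul hac
  have hbb : Continuous fun x => b x * b x := hbc.mul hbc
  have n1 : ‖cfc a H φ‖ ^ 2 = ∫ x, a x * a x ∂μ := by
    have h1 := cfc_inner_mul (H := H) a a hac hac φ
    have h2 : inner ℂ (cfc a H φ) (cfc a H φ) = ((‖cfc a H φ‖ ^ 2 : ℝ) : ℂ) := by
      rw [inner_self_eq_norm_sq_to_K]; push_cast; rfl
    rw [← (hμ _ haa).2, h2] at h1
    exact Complex.ofReal_injective h1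
  have n2 : ‖cfc b H φ‖ ^ 2 = ∫ x, b x * b x ∂μ := by
    have h1 := cfc_inner_mul (H := H) b b hbc hbc φ
    have h2 : inner ℂ (cfc b H φ) (cfc b H φ) = ((‖cfc b H φ‖ ^ 2 : ℝ) : ℂ) := by
      rw [inner_self_eq_norm_sq_to_K]; push_cast; rfl
    rw [← (hμ _ hbb).2, h2] at h1
    exact Complex.ofReal_injective h1
  refine ⟨cfc a H φ + Complex.I • cfc b H φ, ?_, ?_⟩
  · rw [map_add, map_smul, e1, e2]
    generalize cfc a H φ = A
    generalize cfc b H φ = B
    have h1 : ((E : ℂ) + (η : ℂ) * Complex.I) • (A + Complex.I • B) + φ =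
        (E : ℂ) • A + φ + ((η : ℂ) * (Complex.I * Complex.I)) • B +
          Complex.I • ((E : ℂ) • B + (η : ℂ) • A) := by module
    rw [h1, Complex.I_mul_I]
    module
  · have h1 : ‖cfc a H φ + Complex.I • cfc b H φ‖ ≤ ‖cfc a H φ‖ + ‖cfc b H φ‖ := by
      refine (norm_add_le _ _).trans ?_
      rw [norm_smul, Complex.norm_I, one_mul]
    have h2 : ‖cfc a H φ + Complex.I • cfc b H φ‖ ^ 2 ≤
        2 * (‖cfc a H φ‖ ^ 2 + ‖cfc b H φ‖ ^ 2) := by
      calc _ ≤ (‖cfc a H φ‖ + ‖cfc b H φ‖) ^ 2 := by gcongr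
        _ ≤ _ := by nlinarith [sq_nonneg (‖cfc a H φ‖ - ‖cfc b H φ‖)]
    have h3 : ∫ x, a x * a x ∂μ + ∫ x, b x * b x ∂μ = η⁻¹ * ∫ x, pk η E x ∂μ := by
      rw [← integral_add (hμ _ haa).1 (hμ _ hbb).1, ← integral_const_mul]
      congr 1
      funext x
      simp only [ha, hb]
      unfold pk
      have := hden x
      field_simp
    rw [n1, n2, h3] at h2
    calc η * ‖cfc a H φ + Complex.I • cfc b H φ‖ ^ 2 ≤
        η * (2 * (η⁻¹ * ∫ x, pk η E x ∂μ)) := by gcongr
      _ = _ := by field_simp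

end

/-- Wronskian identity -/
lemma wronskian (V : ℤ → ℝ) (E η : ℝ) (u : ℕ → ℝ) (x : ℕ → ℂ) (hu0 : u 0 = 0) (hu1 : u 1 = 1)
    (hu : ∀ n : ℕ, u (n + 2) = (E - V (n + 1)) * u (n + 1) - u n)
    (hx0 : x 0 = 0)
    (hx1 : x 2 + x 0 + (V 1 : ℂ) * x 1 = ((E : ℂ) + η * Complex.I) * x 1 + 1)
    (hx : ∀ n : ℕ, x (n + 3) + x (n + 1) + (V (n + 2) : ℂ) * x (n + 2) =
      ((E : ℂ) + η * Complex.I) * x (n + 2)) (n : ℕ) :
    (u (n + 2) : ℂ) * x (n + 1) - (u (n + 1) : ℂ) * x (n + 2) =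
      -1 - η * Complex.I * ∑ j ∈ Finset.range (n + 1), (u (j + 1) : ℂ) * x (j + 1) := by
  induction n with
  | zero =>
    rw [Finset.sum_range_one]
    have h1 := hu 0
    simp only [Nat.cast_zero, zero_add] at h1
    rw [h1, hu0, hu1]
    rw [hx0] at hx1
    simp only [zero_add] at hx1 ⊢
    push_cast
    linear_combination -hx1
  | succ n ih =>
    rw [Finset.sum_range_succ, mul_add, ← sub_sub, ← ih]
    have h1 := hu (n + 1)
    have h2 := hx n
    rw [show n + 1 + 2 = n + 3 by ring] at h1 ⊢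
    rw [h1]
    push_cast
    rw [show (n : ℤ) + 1 + 1 = n + 2 by ring]
    rw [show n + 1 + 1 = n + 2 by ring]
    linear_combination -(u (n + 2) : ℂ) * h2

lemma lower_seq (V : ℤ → ℝ) (E η C : ℝ) (hC : 0 < C) (hη : 0 < η) (hη1 : η ≤ 1)
    (u : ℕ → ℝ) (x : ℕ → ℂ) (hu0 : u 0 = 0) (hu1 : u 1 = 1)
    (hu : ∀ n : ℕ, u (n + 2) = (E - V (n + 1)) * u (n + 1) - u n)
    (huC : ∀ n, |u n| ≤ C)
    (hx0 : x 0 = 0)
    (hx1 : x 2 + x 0 + (V 1 : ℂ) * x 1 = ((E : ℂ) + η * Complex.I) * x 1 + 1)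
    (hx : ∀ n : ℕ, x (n + 3) + x (n + 1) + (V (n + 2) : ℂ) * x (n + 2) =
      ((E : ℂ) + η * Complex.I) * x (n + 2)) (M : ℝ)
    (hM : ∀ L : ℕ, ∑ j ∈ Finset.range L, ‖x (j + 1)‖ ^ 2 ≤ M) :
    1 ≤ 48 * C ^ 2 * (η * M) := by
  set L := ⌈1 / η⌉₊ with hL
  have hL1 : 1 / η ≤ L := Nat.le_ceil _
  have hL2 : (L : ℝ) < 1 / η + 1 := Nat.ceil_lt_add_one (by positivity)
  set T := ∑ j ∈ Finset.range (L + 1), ‖x (j + 1)‖ with hT
  have hT0 : 0 ≤ T := Finset.sum_nonneg fun _ _ => norm_nonneg _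
  have step : ∀ n ∈ Finset.range L, (1 : ℝ) ≤ C * (‖x (n + 1)‖ + ‖x (n + 2)‖) + η * C * T := by
    intro n hn
    rw [Finset.mem_range] at hn
    have h1 := wronskian V E η u x hu0 hu1 hu hx0 hx1 hx n
    have h2 : (1 : ℂ) = -((u (n + 2) : ℂ) * x (n + 1) - (u (n + 1) : ℂ) * x (n + 2)) -
      η * Complex.I * ∑ j ∈ Finset.range (n + 1), (u (j + 1) : ℂ) * x (j + 1) := by
      rw [h1]; ring
    have h3 : ‖(1 : ℂ)‖ ≤ C * (‖x (n + 1)‖ + ‖x (n + 2)‖) + η * C * T := by
      rw [h2]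
      refine (norm_sub_le _ _).trans ?_
      rw [norm_neg]
      apply add_le_add
      · refine (norm_sub_le _ _).trans ?_
        rw [norm_mul, norm_mul, Complex.norm_real, Complex.norm_real, Real.norm_eq_abs,
          Real.norm_eq_abs, mul_add]
        gcongr
        · exact huC _
        · exact huC _
      · rw [norm_mul, norm_mul, Complex.norm_real, Complex.norm_I, mul_one, Real.norm_eq_abs,
          abs_of_pos hη, mul_assoc]
        gcongr
        refine (norm_sum_le _ _).trans ?_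
        rw [hT, Finset.mul_sum]
        calc ∑ j ∈ Finset.range (n + 1), ‖(u (j + 1) : ℂ) * x (j + 1)‖
            ≤ ∑ j ∈ Finset.range (n + 1), C * ‖x (j + 1)‖ := by
              apply Finset.sum_le_sum
              intro j _
              rw [norm_mul, Complex.norm_real, Real.norm_eq_abs]
              gcongr
              exact huC _
          _ ≤ ∑ j ∈ Finset.range (L + 1), C * ‖x (j + 1)‖ := by
              apply Finset.sum_le_sum_of_subset_of_nonneg
              · intro j hj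
                rw [Finset.mem_range] at hj ⊢
                omega
              · intro j _ _
                positivity
    simpa using h3
  have hsum : (L : ℝ) ≤ 2 * C * T + η * C * T * L := by
    have h1 := Finset.sum_le_sum step
    rw [Finset.sum_const, Finset.card_range, nsmul_eq_mul, mul_one, Finset.sum_add_distrib,
      Finset.sum_const, Finset.card_range, nsmul_eq_mul, ← Finset.mul_sum,
      Finset.sum_add_distrib] at h1
    have h2 : ∑ n ∈ Finset.range L, ‖x (n + 1)‖ ≤ T := by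
      rw [hT, Finset.sum_range_succ]
      have := norm_nonneg (x (L + 1))
      linarith
    have h3 : ∑ n ∈ Finset.range L, ‖x (n + 2)‖ ≤ T := by
      rw [hT, Finset.sum_range_succ']
      have := norm_nonneg (x (0 + 1))
      have e : ∀ n, x (n + 2) = x (n + 1 + 1) := fun n => rfl
      simp_rw [e]
      linarith
    have h4 : C * (∑ n ∈ Finset.range L, ‖x (n + 1)‖ + ∑ n ∈ Finset.range L, ‖x (n + 2)‖) ≤
        C * (T + T) := by gcongr
    linarith
  have hηL : η * L ≤ 2 := by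
    have : η * L ≤ η * (1 / η + 1) := by gcongr
    have e : η * (1 / η + 1) = 1 + η := by field_simp
    linarith
  have h5 : 1 / η ≤ 4 * C * T := by
    have : η * C * T * L = (η * L) * (C * T) := by ring
    have h6 : (η * L) * (C * T) ≤ 2 * (C * T) := by gcongr
    linarith
  have hCS : T ^ 2 ≤ (L + 1) * M := by
    have h1 := sq_sum_le_card_mul_sum_sq (s := Finset.range (L + 1)) (f := fun j => ‖x (j + 1)‖)
    rw [Finset.card_range] at h1
    push_cast at h1
    refine h1.trans ?_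
    have := hM (L + 1)
    gcongr
  have hM0 : 0 ≤ M := by
    have := hM 0
    simpa using this
  have hL3 : (L : ℝ) + 1 ≤ 3 / η := by
    have h6 : 1 ≤ 1 / η := by rw [le_div_iff₀ hη]; linarith
    have h7 : 3 / η = 1 / η + 1 / η + 1 / η := by ring
    linarith
  have h8 : (1 / η) ^ 2 ≤ 16 * C ^ 2 * (3 / η * M) := by
    calc (1 / η) ^ 2 ≤ (4 * C * T) ^ 2 := by gcongr
      _ = 16 * C ^ 2 * T ^ 2 := by ring
      _ ≤ 16 * C ^ 2 * ((L + 1) * M) := by gcongr
      _ ≤ _ := by gcongr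
  have h9 : 1 ≤ η ^ 2 * (16 * C ^ 2 * (3 / η * M)) := by
    calc (1 : ℝ) = η ^ 2 * (1 / η) ^ 2 := by field_simp
      _ ≤ _ := by gcongr
  refine h9.trans (le_of_eq ?_)
  field_simp
  ring

open Pool.Agent.Helper434.PSCplx in
/-- Bounded Dirichlet solutions on a set of positive measure give an absolutely continuous part. -/
theorem ac_part (V : ℤ → ℝ) (B : ℝ) (hB : ∀ n, |V n| ≤ B) (heven : ∀ n, V (-n) = V n)
    (S : Set ℝ) (hS : MeasurableSet S) (hS0 : volume S ≠ 0) (hS1 : volume S ≠ ⊤)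
    (C : ℝ) (hC : 0 < C)
    (hu : ∀ E ∈ S, ∃ u : ℕ → ℝ, u 0 = 0 ∧ u 1 = 1 ∧
      (∀ n : ℕ, u (n + 2) = (E - V (n + 1)) * u (n + 1) - u n) ∧ ∀ n, |u n| ≤ C) :
    ∃ φ : ℤ → ℂ, Summable (fun n : ℤ => ‖φ n‖ ^ 2) ∧
        ∃ μ : Measure ℝ, IsFiniteMeasure μ ∧
          (∀ k : ℕ, Integrable (fun x : ℝ => x ^ k) μ ∧
            ((∫ x, x ^ k ∂μ : ℝ) : ℂ) =
              ∑' n : ℤ, (starRingEnd ℂ) (φ n) *
                (Nat.iterate (fun ψ : ℤ → ℂ => fun m : ℤ =>
                  ψ (m + 1) + ψ (m - 1) + (V m : ℂ) * ψ m) k φ) n) ∧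
          ¬ μ ⟂ₘ volume := by
  obtain ⟨H, hH, hsa⟩ := exists_H V hB
  set φ : L2Z := lp.single 2 (1 : ℤ) (1 : ℂ) - lp.single 2 (-1 : ℤ) (1 : ℂ) with hφ
  have hφn : ∀ n : ℤ, φ n = (if n = 1 then 1 else 0) - (if n = -1 then 1 else 0) := by
    intro n
    rw [hφ, lp.coeFn_sub, Pi.sub_apply, lp.single_apply, lp.single_apply]
    simp only [Pi.single_apply]
  obtain ⟨μ, hμfin, hμ⟩ := exists_specMeas H hsa φ
  refine ⟨φ, ?_, μ, hμfin, ?_, ?_⟩
  · have := summ φ
    refine this.congr (fun n => ?_)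
    norm_num
  · intro k
    refine ⟨(hμ _ (continuous_pow k)).1, ?_⟩
    rw [(hμ _ (continuous_pow k)).2, cfc_pow_id H k, inner_eq]
    have hit : ∀ (k : ℕ) (χ : L2Z), ((H ^ k) χ : ℤ → ℂ) = Nat.iterate (fun ψ : ℤ → ℂ => fun m : ℤ =>
        ψ (m + 1) + ψ (m - 1) + (V m : ℂ) * ψ m) k χ := by
      intro k
      induction k with
      | zero => intro χ; rfl
      | succ k ih =>
        intro χ
        rw [pow_succ, mul_apply_eq_comp, ih, Function.iterate_succ, Function.comp_apply]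
        congr 1
        funext m
        exact hH χ m
    rw [hit]
  · apply not_singular μ S hS hS0 hS1 (1 / (96 * C ^ 2)) (by positivity)
    intro E hE η hη hη1
    obtain ⟨u, hu0, hu1, hu2, huC⟩ := hu E hE
    obtain ⟨ψ, hψ, hψn⟩ := exists_resolvent H hsa φ μ hμ E η hη
    have hψc : ∀ n : ℤ, ψ (n + 1) + ψ (n - 1) + (V n : ℂ) * ψ n =
        ((E : ℂ) + η * Complex.I) * ψ n + φ n := by
      intro n
      have h1 := congrFun (congrArg (fun w : L2Z => (w : ℤ → ℂ)) hψ) n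
      simp only at h1
      rw [hH, lp.coeFn_add, Pi.add_apply, lp.coeFn_smul, Pi.smul_apply, smul_eq_mul] at h1
      exact h1
    set x : ℕ → ℂ := fun n => (ψ (n : ℤ) - ψ (-(n : ℤ))) / 2 with hx
    have hxeq : ∀ n : ℕ, x (n + 2) + x n + (V (n + 1) : ℂ) * x (n + 1) =
        ((E : ℂ) + η * Complex.I) * x (n + 1) + (if n = 0 then 1 else 0) := by
      intro n
      have a1 := hψc (n + 1)
      have a2 := hψc (-(n + 1))
      rw [heven] at a2
      rw [hφn] at a1 a2
      have c1 : ((n : ℤ) + 1 = 1) ↔ n = 0 := by omega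
      have c2 : ¬ ((n : ℤ) + 1 = -1) := by omega
      have c3 : ¬ (-((n : ℤ) + 1) = 1) := by omega
      have c4 : (-((n : ℤ) + 1) = -1) ↔ n = 0 := by omega
      simp only [c1, c2, c3, c4, if_false, sub_zero, zero_sub] at a1 a2
      rw [show -((n : ℤ) + 1) + 1 = -n by ring, show -((n : ℤ) + 1) - 1 = -(n + 2) by ring] at a2
      rw [show (n : ℤ) + 1 + 1 = n + 2 by ring, show (n : ℤ) + 1 - 1 = n by ring] at a1
      simp only [hx]
      push_cast
      linear_combination (a1 - a2) / 2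
    have hsumψ : ∀ s : Finset ℤ, ∑ n ∈ s, ‖ψ n‖ ^ 2 ≤ ‖ψ‖ ^ 2 := by
      intro s
      have := lp.sum_rpow_le_norm_rpow (p := 2) Pool.Agent.Helper434.PSCplx.two_pos ψ s
      norm_num at this
      exact this
    have key := lower_seq V E η C hC hη hη1 u x hu0 hu1 hu2 huC (by simp [hx])
      (by have := hxeq 0; simpa using this)
      (fun n => by
        have := hxeq (n + 1)
        push_cast at this
        rw [show (n : ℤ) + 1 + 1 = n + 2 by ring] at this
        simpa using this) (‖ψ‖ ^ 2) (fun L => by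
        have h1 : ∀ j : ℕ, ‖x (j + 1)‖ ^ 2 ≤ (‖ψ ((j + 1 : ℕ) : ℤ)‖ ^ 2 + ‖ψ (-((j + 1 : ℕ) : ℤ))‖ ^ 2) / 2 := by
          intro j
          simp only [hx]
          rw [norm_div, div_pow]
          have h2 := norm_sub_le (ψ ((j + 1 : ℕ) : ℤ)) (ψ (-((j + 1 : ℕ) : ℤ)))
          have h3 : ‖ψ ((j + 1 : ℕ) : ℤ) - ψ (-((j + 1 : ℕ) : ℤ))‖ ^ 2 ≤
            (‖ψ ((j + 1 : ℕ) : ℤ)‖ + ‖ψ (-((j + 1 : ℕ) : ℤ))‖) ^ 2 := by gcongr
          have h4 : ‖(2 : ℂ)‖ = 2 := by norm_num
          rw [h4]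
          nlinarith [sq_nonneg (‖ψ ((j + 1 : ℕ) : ℤ)‖ - ‖ψ (-((j + 1 : ℕ) : ℤ))‖)]
        refine (Finset.sum_le_sum fun j _ => h1 j).trans ?_
        rw [← Finset.sum_div, Finset.sum_add_distrib]
        have s1 : ∑ j ∈ Finset.range L, ‖ψ ((j + 1 : ℕ) : ℤ)‖ ^ 2 ≤ ‖ψ‖ ^ 2 := by
          have := hsumψ ((Finset.range L).map ⟨fun j : ℕ => ((j + 1 : ℕ) : ℤ), fun a b h => by
            simpa using h⟩)
          rw [Finset.sum_map] at this
          exact this
        have s2 : ∑ j ∈ Finset.range L, ‖ψ (-((j + 1 : ℕ) : ℤ))‖ ^ 2 ≤ ‖ψ‖ ^ 2 := by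
          have := hsumψ ((Finset.range L).map ⟨fun j : ℕ => -((j + 1 : ℕ) : ℤ), fun a b h => by
            simpa using h⟩)
          rw [Finset.sum_map] at this
          exact this
        linarith)
    rw [div_le_iff₀ (by positivity)]
    have h10 : 48 * C ^ 2 * (η * ‖ψ‖ ^ 2) ≤ 48 * C ^ 2 * (2 * ∫ x, pk η E x ∂μ) := by gcongr
    linarith

end Pool.Agent.H792R3
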