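import Mathlib

set_option autoImplicit false

/-!
Top eigenvectors of discrete Schroedinger operators on cycles.
-/

namespace Pool.Agent.H792R3

open Finset

section

variable {p : ℕ} [NeZero p]

/-- the bilinear form of the operator `f ↦ f(x+1) + f(x-1) + v(x) f(x)` -/
def BF (v f g : ZMod p → ℝ) : ℝ := ∑ x, (f x * g (x + 1) + f (x + 1) * g x + v x * (f x * g x))

/-- squared norm -/
def NF (f : ZMod p → ℝ) : ℝ := ∑ x, f x ^ 2

lemma sum_shift (F : ZMod p → ℝ) : ∑ x, F (x + 1) = ∑ x, F x :=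
  Equiv.sum_comp (Equiv.addRight (1 : ZMod p)) F

lemma BF_delta (v f : ZMod p → ℝ) (y : ZMod p) :
    BF v f (Pi.single y 1) = f (y + 1) + f (y - 1) + v y * f y := by
  unfold BF
  rw [sum_add_distrib, sum_add_distrib]
  have h1 : ∑ x, f x * (Pi.single y (1 : ℝ) : ZMod p → ℝ) (x + 1) = f (y - 1) := by
    have := sum_shift (fun x => f (x - 1) * (Pi.single y (1 : ℝ) : ZMod p → ℝ) x)
    simp only [add_sub_cancel_right] at this
    rw [this, sum_eq_single y]
    · simp
    · intro b _ hb; simp [Pi.single_eq_of_ne hb]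
    · simp
  have h2 : ∑ x, f (x + 1) * (Pi.single y (1 : ℝ) : ZMod p → ℝ) x = f (y + 1) := by
    rw [sum_eq_single y]
    · simp
    · intro b _ hb; simp [Pi.single_eq_of_ne hb]
    · simp
  have h3 : ∑ x, v x * (f x * (Pi.single y (1 : ℝ) : ZMod p → ℝ) x) = v y * f y := by
    rw [sum_eq_single y]
    · simp
    · intro b _ hb; simp [Pi.single_eq_of_ne hb]
    · simp
  rw [h1, h2, h3]; ring

lemma NF_nonneg (f : ZMod p → ℝ) : 0 ≤ NF f := sum_nonneg fun _ _ => sq_nonneg _

lemma BF_expand (v f g : ZMod p → ℝ) (t : ℝ) :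
    BF v (fun x => f x + t * g x) (fun x => f x + t * g x) =
      BF v f f + 2 * t * BF v f g + t ^ 2 * BF v g g := by
  unfold BF
  rw [mul_sum, mul_sum, ← sum_add_distrib, ← sum_add_distrib]
  apply sum_congr rfl
  intro x _
  ring

lemma NF_expand (f : ZMod p → ℝ) (y : ZMod p) (t : ℝ) :
    NF (fun x => f x + t * (Pi.single y (1 : ℝ) : ZMod p → ℝ) x) = NF f + 2 * t * f y + t ^ 2 := by
  unfold NF
  have h3 : ∑ x, f x * (Pi.single y (1 : ℝ) : ZMod p → ℝ) x = f y := by
    rw [sum_eq_single y]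
    · simp
    · intro b _ hb; simp [Pi.single_eq_of_ne hb]
    · simp
  have h4 : ∑ x, (Pi.single y (1 : ℝ) : ZMod p → ℝ) x ^ 2 = 1 := by
    rw [sum_eq_single y]
    · simp
    · intro b _ hb; simp [Pi.single_eq_of_ne hb]
    · simp
  calc _ = ∑ x, (f x ^ 2 + 2 * t * (f x * (Pi.single y (1 : ℝ) : ZMod p → ℝ) x) +
      t ^ 2 * (Pi.single y (1 : ℝ) : ZMod p → ℝ) x ^ 2) := by
        apply sum_congr rfl; intro x _; ring
    _ = _ := by
      rw [sum_add_distrib, sum_add_distrib, ← mul_sum, ← mul_sum, h3, h4, mul_one]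

/-- existence of a top eigenvector -/
theorem exists_top (v : ZMod p → ℝ) : ∃ (E : ℝ) (ψ : ZMod p → ℝ), NF ψ = 1 ∧
    (∀ y, ψ (y + 1) + ψ (y - 1) + v y * ψ y = E * ψ y) ∧ ∀ f, BF v f f ≤ E * NF f := by
  have hcont : Continuous fun f : ZMod p → ℝ => BF v f f := by
    unfold BF; fun_prop
  have hcontN : Continuous fun f : ZMod p → ℝ => NF f := by
    unfold NF; fun_prop
  set K : Set (ZMod p → ℝ) := {f | NF f = 1} with hK
  have hKc : IsCompact K := by
    apply Metric.isCompact_of_isClosed_isBounded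
    · exact isClosed_eq hcontN continuous_const
    · rw [Metric.isBounded_iff_subset_closedBall 0]
      refine ⟨1, fun f hf => ?_⟩
      rw [mem_closedBall_zero_iff, pi_norm_le_iff_of_nonneg zero_le_one]
      intro x
      have h1 : f x ^ 2 ≤ NF f := single_le_sum (f := fun x => f x ^ 2)
        (fun _ _ => sq_nonneg _) (mem_univ x)
      have h2 : NF f = 1 := hf
      rw [Real.norm_eq_abs]
      exact abs_le_one_iff_mul_self_le_one.2 (by nlinarith)
  have hKne : K.Nonempty := by
    refine ⟨Pi.single 0 1, ?_⟩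
    have := NF_expand (0 : ZMod p → ℝ) 0 1
    simp only [Pi.zero_apply, zero_add, one_mul] at this
    change NF (Pi.single (0 : ZMod p) (1 : ℝ)) = 1
    have h0 : NF (0 : ZMod p → ℝ) = 0 := by simp [NF]
    rw [h0] at this
    rw [this]; norm_num
  obtain ⟨ψ, hψ, hmax⟩ := hKc.exists_isMaxOn hKne hcont.continuousOn
  set E := BF v ψ ψ with hE
  have hψ1 : NF ψ = 1 := hψ
  have hle : ∀ f, BF v f f ≤ E * NF f := by
    intro f
    rcases eq_or_lt_of_le (NF_nonneg f) with h0 | h0
    · have hz : ∀ x, f x = 0 := by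
        intro x
        have := (sum_eq_zero_iff_of_nonneg (fun x _ => sq_nonneg (f x))).1 h0.symm x (mem_univ x)
        simpa using this
      rw [← h0]
      unfold BF
      simp [hz]
    · set s := Real.sqrt (NF f) with hs
      have hs0 : 0 < s := Real.sqrt_pos.2 h0
      have hs2 : s ^ 2 = NF f := Real.sq_sqrt h0.le
      have h1 : (fun x => s⁻¹ * f x) ∈ K := by
        change NF (fun x => s⁻¹ * f x) = 1
        unfold NF
        simp_rw [mul_pow]
        rw [← mul_sum]
        change s⁻¹ ^ 2 * NF f = 1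
        rw [← hs2]; field_simp
      have h2 : BF v (fun x => s⁻¹ * f x) (fun x => s⁻¹ * f x) ≤ E := hmax h1
      have h3 : BF v (fun x => s⁻¹ * f x) (fun x => s⁻¹ * f x) = s⁻¹ ^ 2 * BF v f f := by
        unfold BF
        rw [mul_sum]
        apply sum_congr rfl
        intro x _
        ring
      rw [h3] at h2
      have h4 : BF v f f = s ^ 2 * (s⁻¹ ^ 2 * BF v f f) := by field_simp
      rw [h4, mul_comm E, ← hs2]
      gcongr
  refine ⟨E, ψ, hψ1, ?_, hle⟩
  intro y
  set b := E * ψ y - (ψ (y + 1) + ψ (y - 1) + v y * ψ y) with hb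
  set a := E - BF v (Pi.single y 1) (Pi.single y 1) with ha
  have hq : ∀ t : ℝ, 0 ≤ 2 * t * b + t ^ 2 * a := by
    intro t
    have h1 := hle (fun x => ψ x + t * (Pi.single y (1 : ℝ) : ZMod p → ℝ) x)
    rw [BF_expand, NF_expand, BF_delta, hψ1] at h1
    have : 2 * t * b + t ^ 2 * a = E * (1 + 2 * t * ψ y + t ^ 2) - (BF v ψ ψ + 2 * t * (ψ (y + 1) + ψ (y - 1) + v y * ψ y) + t ^ 2 * BF v (Pi.single y 1) (Pi.single y 1)) := by
      rw [hb, ha, ← hE]; ring
    rw [this]
    linarith
  have hb0 : b = 0 := by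
    by_contra hne
    have h1 := hq (-b / (|a| + 1))
    have h2 : 0 < |a| + 1 := by positivity
    have h3 : 2 * (-b / (|a| + 1)) * b + (-b / (|a| + 1)) ^ 2 * a =
        (b ^ 2 / (|a| + 1)) * (-2 + a / (|a| + 1)) := by field_simp
    rw [h3] at h1
    have h4 : a / (|a| + 1) < 1 := by
      rw [div_lt_one h2]
      linarith [le_abs_self a]
    have h5 : 0 < b ^ 2 / (|a| + 1) := by positivity
    nlinarith
  linarith

end

section fold

set_option linter.unusedSectionVars false

variable {p q : ℕ} [NeZero p] [NeZero q]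

/-- folding a function from a long cycle to a short one -/
theorem fold_le (h : p ∣ q) (v : ZMod p → ℝ) (E : ℝ) (hE : ∀ f : ZMod p → ℝ, BF v f f ≤ E * NF f)
    (f : ZMod q → ℝ) : BF (fun x => v (ZMod.castHom h (ZMod p) x)) f f ≤ E * NF f := by
  set π := ZMod.castHom h (ZMod p) with hπ
  set F : ZMod p → ℝ := fun y => Real.sqrt (∑ x with π x = y, f x ^ 2) with hF
  have hF2 : ∀ y, F y ^ 2 = ∑ x with π x = y, f x ^ 2 := fun y =>
    Real.sq_sqrt (sum_nonneg fun _ _ => sq_nonneg _)
  have hN : NF F = NF f := by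
    unfold NF
    simp_rw [hF2]
    exact sum_fiberwise univ π (fun x => f x ^ 2)
  have hshift : ∀ y, ∑ x with π x = y, f (x + 1) ^ 2 = F (y + 1) ^ 2 := by
    intro y
    rw [hF2]
    apply sum_bij (fun x _ => x + 1)
    · intro x hx
      rw [mem_filter] at hx ⊢
      refine ⟨mem_univ _, ?_⟩
      rw [map_add, hx.2, map_one]
    · intro a _ b _ hab
      exact add_right_cancel hab
    · intro b hb
      rw [mem_filter] at hb
      refine ⟨b - 1, ?_, by ring⟩
      rw [mem_filter]
      refine ⟨mem_univ _, ?_⟩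
      rw [map_sub, hb.2, map_one]; ring
    · intro x _; rfl
  have hB : BF (fun x => v (π x)) f f ≤ BF v F F := by
    have e1 : BF (fun x => v (π x)) f f =
        2 * ∑ x, f x * f (x + 1) + ∑ x, v (π x) * f x ^ 2 := by
      unfold BF
      rw [mul_sum, ← sum_add_distrib]
      apply sum_congr rfl; intro x _; ring
    have e2 : BF v F F = 2 * ∑ y, F y * F (y + 1) + ∑ y, v y * F y ^ 2 := by
      unfold BF
      rw [mul_sum, ← sum_add_distrib]
      apply sum_congr rfl; intro x _; ring
    have e3 : ∑ x, v (π x) * f x ^ 2 = ∑ y, v y * F y ^ 2 := by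
      rw [← sum_fiberwise univ π (fun x => v (π x) * f x ^ 2)]
      apply sum_congr rfl
      intro y _
      rw [hF2, mul_sum]
      apply sum_congr rfl
      intro x hx
      rw [mem_filter] at hx
      rw [hx.2]
    have e4 : ∑ x, f x * f (x + 1) ≤ ∑ y, F y * F (y + 1) := by
      rw [← sum_fiberwise univ π (fun x => f x * f (x + 1))]
      apply sum_le_sum
      intro y _
      refine (Real.sum_mul_le_sqrt_mul_sqrt _ (fun x => f x) (fun x => f (x + 1))).trans ?_
      rw [hshift, Real.sqrt_sq (Real.sqrt_nonneg _)]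
    rw [e1, e2, e3]
    linarith
  calc _ ≤ BF v F F := hB
    _ ≤ E * NF F := hE F
    _ = _ := by rw [hN]

/-- size of a residue -/
def nrm (x : ZMod q) : ℕ := x.valMinAbs.natAbs

lemma nrm_add_le (x y : ZMod q) : nrm (x + y) ≤ nrm x + nrm y := by
  unfold nrm
  exact (ZMod.natAbs_valMinAbs_add_le x y).trans (Int.natAbs_add_le _ _)

lemma nrm_neg (x : ZMod q) : nrm (-x) = nrm x := by
  unfold nrm
  exact ZMod.natAbs_valMinAbs_neg x

lemma nrm_one_le : nrm (1 : ZMod q) ≤ 1 := by
  unfold nrm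
  have := ZMod.natAbs_valMinAbs_le (1 : ZMod q)
  by_cases h : q = 1
  · subst h
    have : (1 : ZMod 1) = 0 := Subsingleton.elim _ _
    rw [this]; simp
  · have hq : 2 ≤ q := by have := NeZero.ne q; omega
    have h2 : (1 : ZMod q) = ((1 : ℕ) : ZMod q) := by simp
    rw [h2, ZMod.valMinAbs_natCast_of_le_half (by omega)]
    simp

/-- tent function -/
noncomputable def tent (L : ℕ) (x : ZMod q) : ℝ := max 0 (1 - (nrm x : ℝ) / L)

lemma tent_lip {L : ℕ} (hL : 0 < L) (x : ZMod q) : |tent L x - tent L (x + 1)| ≤ 1 / L := by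
  have h1 : nrm (x + 1) ≤ nrm x + 1 := (nrm_add_le x 1).trans (by have := nrm_one_le (q := q); omega)
  have h2 : nrm x ≤ nrm (x + 1) + 1 := by
    have := nrm_add_le (x + 1) (-1)
    rw [nrm_neg, add_neg_cancel_right] at this
    have := nrm_one_le (q := q); omega
  have hL' : (0 : ℝ) < L := by exact_mod_cast hL
  have h1' : (nrm (x + 1) : ℝ) / L ≤ nrm x / L + 1 / L := by
    rw [← add_div]; gcongr; exact_mod_cast h1
  have h2' : (nrm x : ℝ) / L ≤ nrm (x + 1) / L + 1 / L := by
    rw [← add_div]; gcongr; exact_mod_cast h2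
  unfold tent
  rw [max_comm, max_comm 0 (1 - (nrm (x + 1) : ℝ) / L)]
  refine (abs_max_sub_max_le_abs _ _ _).trans ?_
  rw [abs_le]
  constructor <;> linarith

lemma tent_nonneg (L : ℕ) (x : ZMod q) : 0 ≤ tent L x := le_max_left _ _

lemma tent_le_one (L : ℕ) (x : ZMod q) : tent L x ≤ 1 := by
  unfold tent
  apply max_le zero_le_one
  have : (0 : ℝ) ≤ (nrm x : ℝ) / L := by positivity
  linarith

lemma tent_zero {L : ℕ} : tent L (0 : ZMod q) = 1 := by
  unfold tent nrm
  simp

lemma tent_support {L : ℕ} (hL : 0 < L) (x : ZMod q) (hx : tent L x ≠ 0) : nrm x < L := by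
  by_contra hcon
  apply hx
  unfold tent
  apply max_eq_left
  have hL' : (0 : ℝ) < L := by exact_mod_cast hL
  have : (1 : ℝ) ≤ (nrm x : ℝ) / L := by
    rw [le_div_iff₀ hL', one_mul]
    exact_mod_cast not_lt.1 hcon
  linarith

lemma mem_image_of_nrm {L : ℕ} (hL : 0 < L) (x : ZMod q) (h : nrm x < L ∨ nrm (x + 1) < L) :
    x ∈ (Finset.Ico (-(L : ℤ)) L).image (fun n : ℤ => (n : ZMod q)) := by
  rw [Finset.mem_image]
  rcases h with h | h
  · refine ⟨x.valMinAbs, ?_, ZMod.coe_valMinAbs x⟩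
    unfold nrm at h
    rw [Finset.mem_Ico]
    omega
  · refine ⟨(x + 1).valMinAbs - 1, ?_, ?_⟩
    · unfold nrm at h
      rw [Finset.mem_Ico]
      omega
    · push_cast
      ring

/-- The trial function estimate. -/
theorem trial (h : p ∣ q) (v : ZMod p → ℝ) (E : ℝ) (ψ : ZMod p → ℝ)
    (heig : ∀ y, ψ (y + 1) + ψ (y - 1) + v y * ψ y = E * ψ y) (hψ : ∀ y, |ψ y| ≤ 1)
    (L : ℕ) (hL : 0 < L) :
    ∃ φ : ZMod q → ℝ, φ = (fun x => ψ (ZMod.castHom h (ZMod p) x) * tent L x) ∧
      E * NF φ - 2 / L ≤ BF (fun x => v (ZMod.castHom h (ZMod p) x)) φ φ := by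
  set π := ZMod.castHom h (ZMod p) with hπ
  refine ⟨_, rfl, ?_⟩
  set g : ZMod q → ℝ := fun x => ψ (π x) with hg
  set χ : ZMod q → ℝ := fun x => tent L x with hχ
  have heig' : ∀ x, g (x + 1) + g (x - 1) + v (π x) * g x = E * g x := by
    intro x
    have := heig (π x)
    simp only [hg, map_add, map_sub, map_one]
    exact this
  have e1 : BF (fun x => v (π x)) (fun x => g x * χ x) (fun x => g x * χ x) =
      E * NF (fun x => g x * χ x) - ∑ x, g x * g (x + 1) * (χ x - χ (x + 1)) ^ 2 := by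
    have s1 := sum_shift (fun x => g x * g (x - 1) * χ x ^ 2)
    simp only [add_sub_cancel_right] at s1
    unfold BF NF
    rw [mul_sum, ← sum_sub_distrib]
    have h2 : ∀ x : ZMod q, g x * χ x * (g (x + 1) * χ (x + 1)) + g (x + 1) * χ (x + 1) * (g x * χ x) +
        v (π x) * (g x * χ x * (g x * χ x)) =
        (E * (g x * χ x) ^ 2 - g x * g (x + 1) * (χ x - χ (x + 1)) ^ 2) +
        (g (x + 1) * g x * χ (x + 1) ^ 2 - g x * g (x - 1) * χ x ^ 2) := by
      intro x
      linear_combination (g x * χ x ^ 2) * heig' x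
    simp_rw [h2]
    rw [sum_add_distrib, sum_sub_distrib (f := fun x => g (x + 1) * g x * χ (x + 1) ^ 2), s1]
    ring
  rw [e1]
  have hL' : (0 : ℝ) < L := by exact_mod_cast hL
  have e2 : ∑ x, g x * g (x + 1) * (χ x - χ (x + 1)) ^ 2 ≤ 2 / L := by
    set A := (Finset.Ico (-(L : ℤ)) L).image (fun n : ℤ => (n : ZMod q)) with hA
    have hz : ∀ x ∉ A, g x * g (x + 1) * (χ x - χ (x + 1)) ^ 2 = 0 := by
      intro x hx
      have h1 : χ x = 0 := by
        by_contra hne
        exact hx (mem_image_of_nrm hL x (Or.inl (tent_support hL x hne)))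
      have h2 : χ (x + 1) = 0 := by
        by_contra hne
        exact hx (mem_image_of_nrm hL x (Or.inr (tent_support hL (x + 1) hne)))
      rw [h1, h2]; ring
    rw [← sum_subset (subset_univ A) (fun x _ hx => hz x hx)]
    calc ∑ x ∈ A, g x * g (x + 1) * (χ x - χ (x + 1)) ^ 2 ≤ ∑ x ∈ A, (1 / L : ℝ) ^ 2 := by
          apply sum_le_sum
          intro x _
          have h1 : g x * g (x + 1) ≤ 1 := by
            have a1 := hψ (π x)
            have a2 := hψ (π (x + 1))
            calc g x * g (x + 1) ≤ |g x * g (x + 1)| := le_abs_self _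
              _ = |g x| * |g (x + 1)| := abs_mul _ _
              _ ≤ 1 * 1 := by gcongr
              _ = 1 := one_mul 1
          have h2 : (χ x - χ (x + 1)) ^ 2 ≤ (1 / L) ^ 2 := by
            rw [← sq_abs]
            gcongr
            exact tent_lip hL x
          calc _ ≤ 1 * (χ x - χ (x + 1)) ^ 2 := by gcongr
            _ ≤ _ := by rw [one_mul]; exact h2
      _ = A.card * (1 / L : ℝ) ^ 2 := by rw [sum_const, nsmul_eq_mul]
      _ ≤ (2 * L) * (1 / L : ℝ) ^ 2 := by
          gcongr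
          have h3 : A.card ≤ (Finset.Ico (-(L : ℤ)) L).card := card_image_le
          rw [Int.card_Ico] at h3
          have h4 : ((L : ℤ) - -(L : ℤ)).toNat = 2 * L := by omega
          rw [h4] at h3
          exact_mod_cast h3
      _ = 2 / L := by field_simp
  linarith

/-- crude bound for the norm of the trial function -/
lemma NF_trial_le (h : p ∣ q) (ψ : ZMod p → ℝ) (hψ : ∀ y, |ψ y| ≤ 1) (L : ℕ) (hL : 0 < L) :
    NF (fun x : ZMod q => ψ (ZMod.castHom h (ZMod p) x) * tent L x) ≤ 2 * L := by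
  set A := (Finset.Ico (-(L : ℤ)) L).image (fun n : ℤ => (n : ZMod q)) with hA
  unfold NF
  have hz : ∀ x ∉ A, (ψ (ZMod.castHom h (ZMod p) x) * tent L x) ^ 2 = 0 := by
    intro x hx
    have h1 : tent L x = 0 := by
      by_contra hne
      exact hx (mem_image_of_nrm hL x (Or.inl (tent_support hL x hne)))
    rw [h1]; ring
  rw [← sum_subset (subset_univ A) (fun x _ hx => hz x hx)]
  calc _ ≤ ∑ x ∈ A, (1 : ℝ) := by
        apply sum_le_sum
        intro x _
        have a1 := hψ (ZMod.castHom h (ZMod p) x)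
        have a2 := tent_nonneg L x
        have a3 := tent_le_one L x
        rw [mul_pow, ← sq_abs (ψ _)]
        calc _ ≤ (1 : ℝ) ^ 2 * 1 ^ 2 := by gcongr
          _ = 1 := by norm_num
    _ = A.card := by simp
    _ ≤ _ := by
      have h3 : A.card ≤ (Finset.Ico (-(L : ℤ)) L).card := card_image_le
      rw [Int.card_Ico] at h3
      have h4 : ((L : ℤ) - -(L : ℤ)).toNat = 2 * L := by omega
      rw [h4] at h3
      exact_mod_cast h3

/-- if the tent lives in one period of `ψ` the trial function has norm at most that of `ψ` -/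
lemma NF_trial_le' (h : p ∣ q) (ψ : ZMod p → ℝ) (L : ℕ) (hL : 0 < L) (hLp : 2 * L ≤ p) :
    NF (fun x : ZMod q => ψ (ZMod.castHom h (ZMod p) x) * tent L x) ≤ NF ψ := by
  set A : Finset (ZMod q) := univ.filter (fun x => nrm x < L) with hA
  unfold NF
  have hz : ∀ x ∉ A, (ψ (ZMod.castHom h (ZMod p) x) * tent L x) ^ 2 = 0 := by
    intro x hx
    have h1 : tent L x = 0 := by
      by_contra hne
      exact hx (by rw [hA, mem_filter]; exact ⟨mem_univ _, tent_support hL x hne⟩)
    rw [h1]; ring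
  rw [← sum_subset (subset_univ A) (fun x _ hx => hz x hx)]
  have hinj : Set.InjOn (ZMod.castHom h (ZMod p)) (A : Set (ZMod q)) := by
    intro x hx y hy hxy
    rw [hA, mem_coe, mem_filter] at hx hy
    have hx' := hx.2
    have hy' := hy.2
    unfold nrm at hx' hy'
    have h1 : ((x.valMinAbs : ℤ) : ZMod p) = ((y.valMinAbs : ℤ) : ZMod p) := by
      have e : ∀ z : ZMod q, ZMod.castHom h (ZMod p) z = ((z.valMinAbs : ℤ) : ZMod p) := by
        intro z
        conv_lhs => rw [← ZMod.coe_valMinAbs z]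
        rw [map_intCast]
      rw [← e, ← e, hxy]
    rw [ZMod.intCast_eq_intCast_iff] at h1
    have h2 : x.valMinAbs = y.valMinAbs := by
      have h3 := h1.dvd
      obtain ⟨c, hc⟩ := h3
      have h4 : |y.valMinAbs - x.valMinAbs| < p := by
        rw [abs_lt]; omega
      have h5 : c = 0 := by
        by_contra hne
        have h6 : 1 ≤ |c| := Int.one_le_abs hne
        rw [hc, abs_mul] at h4
        have h7 : |(p : ℤ)| = p := abs_of_nonneg (by positivity)
        rw [h7] at h4
        nlinarith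
      rw [h5, mul_zero] at hc
      omega
    rw [← ZMod.coe_valMinAbs x, ← ZMod.coe_valMinAbs y, h2]
  calc _ ≤ ∑ x ∈ A, (ψ (ZMod.castHom h (ZMod p) x)) ^ 2 := by
        apply sum_le_sum
        intro x _
        have a2 := tent_nonneg L x
        have a3 := tent_le_one L x
        rw [mul_pow]
        calc _ ≤ (ψ (ZMod.castHom h (ZMod p) x)) ^ 2 * 1 ^ 2 := by gcongr
          _ = _ := by ring
    _ = ∑ y ∈ A.image (ZMod.castHom h (ZMod p)), ψ y ^ 2 := by
        rw [sum_image hinj]
    _ ≤ _ := sum_le_sum_of_subset_of_nonneg (subset_univ _) (fun _ _ _ => sq_nonneg _)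

end fold

end Pool.Agent.H792R3
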