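import Mathlib
import Pool.Agent.H792R3.Cyc

set_option autoImplicit false

/-!
Existence of a square summable solution for the potential `∑ e k 1[p (k+1) ∣ n]`.
-/

namespace Pool.Agent.H792R3

open Finset

section

variable (p : ℕ → ℕ) (e : ℕ → ℝ)

/-- potentials on the cycles -/
noncomputable def vk (hd : ∀ k, p k ∣ p (k + 1)) : (k : ℕ) → ZMod (p k) → ℝ
  | 0 => fun _ => 0
  | k + 1 => fun x => vk hd k (ZMod.castHom (hd k) (ZMod (p k)) x) + if x = 0 then e k else 0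

/-- truncated potential on `ℤ` -/
noncomputable def Vt (k : ℕ) (n : ℤ) : ℝ :=
  ∑ j ∈ range k, if ((p (j + 1) : ℕ) : ℤ) ∣ n then e j else 0

lemma vk_int (hd : ∀ k, p k ∣ p (k + 1)) (k : ℕ) (n : ℤ) :
    vk p e hd k ((n : ℤ) : ZMod (p k)) = Vt p e k n := by
  induction k with
  | zero => simp [vk, Vt]
  | succ k ih =>
    have h1 : vk p e hd (k + 1) ((n : ℤ) : ZMod (p (k + 1))) =
        vk p e hd k (ZMod.castHom (hd k) (ZMod (p k)) ((n : ℤ) : ZMod (p (k + 1)))) +
          if ((n : ℤ) : ZMod (p (k + 1))) = 0 then e k else 0 := rfl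
    rw [h1, map_intCast, ih, Vt, Vt, sum_range_succ]
    congr 1
    simp only [ZMod.intCast_zmod_eq_zero_iff_dvd]

end

theorem eig_exists (p : ℕ → ℕ) (e : ℕ → ℝ) (hp0 : p 0 = 1) (hd : ∀ k, p k ∣ p (k + 1))
    (hpos : ∀ k, 0 < p k) (he : ∀ k, 0 < e k) (hes : Summable e)
    (htend : Filter.Tendsto p Filter.atTop Filter.atTop)
    (L₀ : ℕ) (hL₀ : 4 ≤ e 0 * L₀)
    (hbig : ∀ k, 2 ^ (k + 7) * (L₀ : ℝ) ≤ e (k + 1) * p (k + 1))
    (hbig2 : ∀ k, 4 ≤ p (k + 1)) :
    ∃ (ψ : ℤ → ℝ) (E : ℝ), ψ 0 ≠ 0 ∧ Summable (fun n => ψ n ^ 2) ∧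
      ∀ n, ψ (n + 1) + ψ (n - 1) + (∑' k, if ((p (k + 1) : ℕ) : ℤ) ∣ n then e k else 0) * ψ n =
        E * ψ n := by
  have hne : ∀ k, NeZero (p k) := fun k => ⟨(hpos k).ne'⟩
  have hex : ∀ k, ∃ (E : ℝ) (ψ : ZMod (p k) → ℝ), NF ψ = 1 ∧
      (∀ y, ψ (y + 1) + ψ (y - 1) + vk p e hd k y * ψ y = E * ψ y) ∧
      ∀ f, BF (vk p e hd k) f f ≤ E * NF f := fun k => exists_top _
  choose E ψ hN heig hle using hex
  have hψ1 : ∀ k y, |ψ k y| ≤ 1 := by
    intro k y
    have h1 : ψ k y ^ 2 ≤ NF (ψ k) := single_le_sum (f := fun x => ψ k x ^ 2)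
      (fun _ _ => sq_nonneg _) (mem_univ y)
    rw [hN] at h1
    exact abs_le_one_iff_mul_self_le_one.2 (by nlinarith)
  -- the energy of `ψ`
  have hBψ : ∀ k, BF (vk p e hd k) (ψ k) (ψ k) = E k := by
    intro k
    have h1 : BF (vk p e hd k) (ψ k) (ψ k) = ∑ x, ψ k x * (E k * ψ k x) := by
      have s1 := sum_shift (fun x => ψ k x * ψ k (x - 1))
      simp only [add_sub_cancel_right] at s1
      calc BF (vk p e hd k) (ψ k) (ψ k) = ∑ x, ψ k x * (ψ k (x + 1) + ψ k (x - 1) +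
            vk p e hd k x * ψ k x) + (∑ x, ψ k (x + 1) * ψ k x - ∑ x, ψ k x * ψ k (x - 1)) := by
            unfold BF
            rw [← sum_sub_distrib, ← sum_add_distrib]
            apply sum_congr rfl
            intro x _
            ring
        _ = ∑ x, ψ k x * (E k * ψ k x) := by
            rw [s1, sub_self, add_zero]
            apply sum_congr rfl
            intro x _
            rw [heig]
    rw [h1]
    have h2 : ∑ x, ψ k x * (E k * ψ k x) = E k * NF (ψ k) := by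
      unfold NF
      rw [mul_sum]
      apply sum_congr rfl
      intro x _
      ring
    rw [h2, hN, mul_one]
  -- splitting the form
  have hsplit : ∀ k (f : ZMod (p (k + 1)) → ℝ), BF (vk p e hd (k + 1)) f f =
      BF (fun x => vk p e hd k (ZMod.castHom (hd k) (ZMod (p k)) x)) f f + e k * f 0 ^ 2 := by
    intro k f
    unfold BF
    have h1 : e k * f 0 ^ 2 = ∑ x : ZMod (p (k + 1)), (if x = 0 then e k else 0) * (f x * f x) := by
      rw [sum_eq_single 0]
      · rw [if_pos rfl]; ring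
      · intro b _ hb; simp [hb]
      · simp
    rw [h1, ← sum_add_distrib]
    apply sum_congr rfl
    intro x _
    rw [vk]
    ring
  -- upper estimate
  have hup : ∀ k, E (k + 1) ≤ E k + e k * ψ (k + 1) 0 ^ 2 := by
    intro k
    rw [← hBψ (k + 1), hsplit]
    have := fold_le (hd k) (vk p e hd k) (E k) (hle k) (ψ (k + 1))
    rw [hN, mul_one] at this
    linarith
  -- lower estimate
  have hlow : ∀ k (L : ℕ), 0 < L → ∃ M : ℝ, 0 ≤ M ∧ M ≤ 2 * L ∧ (2 * L ≤ p k → M ≤ 1) ∧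
      e k * ψ k 0 ^ 2 - 2 / L ≤ (E (k + 1) - E k) * M := by
    intro k L hL
    obtain ⟨φ, hφ, h1⟩ := trial (hd k) (vk p e hd k) (E k) (ψ k) (heig k) (hψ1 k) L hL
    refine ⟨NF φ, NF_nonneg _, ?_, ?_, ?_⟩
    · rw [hφ]; exact NF_trial_le (hd k) (ψ k) (hψ1 k) L hL
    · intro h2
      have := NF_trial_le' (hd k) (ψ k) L hL h2
      rw [← hφ, hN] at this
      exact this
    · have h2 := hle (k + 1) φ
      rw [hsplit] at h2
      have h3 : φ 0 = ψ k 0 := by
        rw [hφ]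
        simp only [map_zero, tent_zero, mul_one]
      rw [h3] at h2
      linarith
  -- first step
  have hL0pos : 0 < L₀ := by
    rcases Nat.eq_zero_or_pos L₀ with h | h
    · rw [h] at hL₀; norm_num at hL₀
    · exact h
  have hL0' : (0 : ℝ) < L₀ := by exact_mod_cast hL0pos
  set c : ℝ := 1 / (4 * L₀) with hc
  have hcpos : 0 < c := by positivity
  have hfirst : c ≤ ψ 1 0 ^ 2 := by
    obtain ⟨M, hM0, hM1, -, hM⟩ := hlow 0 L₀ hL0pos
    have hψ0 : ψ 0 0 ^ 2 = 1 := by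
      have h1 := hN 0
      unfold NF at h1
      have : Subsingleton (ZMod (p 0)) := by rw [hp0]; infer_instance
      rw [Fintype.sum_subsingleton _ (0 : ZMod (p 0))] at h1
      exact h1
    rw [hψ0, mul_one] at hM
    have h2 : 2 / (L₀ : ℝ) ≤ e 0 / 2 := by
      rw [div_le_iff₀ hL0']; linarith
    have h3 := hup 0
    have h4 : e 0 / 2 ≤ (e 0 * ψ (0 + 1) 0 ^ 2) * (2 * L₀) := by
      calc e 0 / 2 ≤ (E (0 + 1) - E 0) * M := by linarith
        _ ≤ (e 0 * ψ (0 + 1) 0 ^ 2) * M := by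
            apply mul_le_mul_of_nonneg_right _ hM0; linarith
        _ ≤ _ := by
            apply mul_le_mul_of_nonneg_left hM1
            have := he 0; positivity
    have h5 := he 0
    rw [hc, div_le_iff₀ (by positivity)]
    have h6 : e 0 * 1 ≤ e 0 * (ψ (0 + 1) 0 ^ 2 * (4 * L₀)) := by linarith
    exact le_of_mul_le_mul_left h6 h5
  have hstep : ∀ k, ψ (k + 1) 0 ^ 2 - c / 2 ^ (k + 2) ≤ ψ (k + 2) 0 ^ 2 ∨
      ψ (k + 1) 0 ^ 2 ≤ c / 2 ^ (k + 2) := by
    intro k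
    set L := p (k + 1) / 2 with hL
    have hLp : 2 * L ≤ p (k + 1) := by omega
    have hL0 : 0 < L := by have := hbig2 k; omega
    have hL4 : p (k + 1) ≤ 4 * L := by omega
    obtain ⟨M, hM0, -, hM1, hM⟩ := hlow (k + 1) L hL0
    have hM1' := hM1 hLp
    have hek := he (k + 1)
    have hLr : (0 : ℝ) < L := by exact_mod_cast hL0
    have h1 : 2 / (L : ℝ) ≤ e (k + 1) * (c / 2 ^ (k + 2)) := by
      have h2 := hbig k
      have h3 : (p (k + 1) : ℝ) ≤ 4 * L := by exact_mod_cast hL4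
      have h4 : 2 ^ (k + 7) * (L₀ : ℝ) ≤ e (k + 1) * (4 * L) := h2.trans (by gcongr)
      rw [div_le_iff₀ hLr, hc]
      have h5 : e (k + 1) * (1 / (4 * (L₀ : ℝ)) / 2 ^ (k + 2)) * L =
          (e (k + 1) * (4 * L)) / (2 ^ (k + 2) * 16 * L₀) := by
        field_simp
        ring
      rw [h5, le_div_iff₀ (by positivity)]
      refine le_trans (le_of_eq ?_) h4
      rw [show (2 : ℝ) ^ (k + 7) = 2 ^ (k + 2) * 32 by
        rw [show k + 7 = (k + 2) + 5 by ring, pow_add]; norm_num]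
      ring
    by_cases hcase : ψ (k + 1) 0 ^ 2 ≤ c / 2 ^ (k + 2)
    · exact Or.inr hcase
    · left
      rw [not_le] at hcase
      have h7 : 0 < e (k + 1) * ψ (k + 1) 0 ^ 2 - 2 / L := by
        have : e (k + 1) * (c / 2 ^ (k + 2)) < e (k + 1) * ψ (k + 1) 0 ^ 2 := by gcongr
        linarith
      have h8 : 0 < E (k + 1 + 1) - E (k + 1) := by
        by_contra hcon
        have : (E (k + 1 + 1) - E (k + 1)) * M ≤ 0 :=
          mul_nonpos_of_nonpos_of_nonneg (not_lt.1 hcon) hM0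
        linarith
      have h9 : (E (k + 1 + 1) - E (k + 1)) * M ≤ E (k + 1 + 1) - E (k + 1) := by
        calc _ ≤ (E (k + 1 + 1) - E (k + 1)) * 1 := by gcongr
          _ = _ := mul_one _
      have h10 := hup (k + 1)
      have h11 : e (k + 1) * (ψ (k + 1) 0 ^ 2 - c / 2 ^ (k + 2)) ≤
          e (k + 1) * ψ (k + 1 + 1) 0 ^ 2 := by
        rw [mul_sub]; linarith
      exact le_of_mul_le_mul_left h11 hek
  have hpow : ∀ k : ℕ, c / 2 ^ (k + 2) = c * (1 / 2) ^ (k + 2) := by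
    intro k; rw [one_div, inv_pow]; rfl
  have hlower : ∀ k, c * (1 / 2 + (1 / 2) ^ (k + 1)) ≤ ψ (k + 1) 0 ^ 2 := by
    intro k
    induction k with
    | zero => simpa using by linarith
    | succ k ih =>
      rcases hstep k with h | h
      · rw [hpow] at h
        have e1 : ((1 : ℝ) / 2) ^ (k + 2) = (1 / 2) ^ (k + 1) * (1 / 2) := pow_succ _ _
        have e2 : c * (1 / 2 + (1 / 2) ^ (k + 1 + 1)) =
            c * (1 / 2 + (1 / 2) ^ (k + 1)) - c * (1 / 2) ^ (k + 2) := by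
          rw [show k + 1 + 1 = k + 2 by ring, e1]; ring
        rw [e2]
        linarith
      · exfalso
        rw [hpow] at h
        have e1 : ((1 : ℝ) / 2) ^ (k + 2) = (1 / 2) ^ (k + 1) * (1 / 2) := pow_succ _ _
        have e3 : (0 : ℝ) < (1 / 2) ^ (k + 1) := by positivity
        have e4 : c * (1 / 2) ^ (k + 2) < c * (1 / 2 + (1 / 2) ^ (k + 1)) := by
          apply mul_lt_mul_of_pos_left _ hcpos
          rw [e1]; linarith
        linarith
  have hlow2 : ∀ k, c / 2 ≤ ψ (k + 1) 0 ^ 2 := by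
    intro k
    refine le_trans ?_ (hlower k)
    have h2 : 0 ≤ c * (1 / 2) ^ (k + 1) := by positivity
    linarith
  -- the limit
  set 𝒰 : Ultrafilter ℕ := Filter.hyperfilter ℕ with h𝒰
  have hU : (𝒰 : Filter ℕ) ≤ Filter.atTop := by
    rw [h𝒰, ← Nat.cofinite_eq_atTop]; exact Filter.hyperfilter_le_cofinite
  set g : ℕ → ℤ → ℝ := fun k n => ψ (k + 1) ((n : ℤ) : ZMod (p (k + 1))) with hg
  have hlim : ∀ n : ℤ, ∃ a : ℝ, Filter.Tendsto (fun k => g k n) 𝒰 (nhds a) := by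
    intro n
    have h1 : (𝒰.map (fun k => g k n) : Filter ℝ) ≤ Filter.principal (Set.Icc (-1) 1) := by
      rw [Filter.le_principal_iff]
      change (fun k => g k n) ⁻¹' (Set.Icc (-1) 1) ∈ (𝒰 : Filter ℕ)
      apply Filter.mem_of_superset Filter.univ_mem
      intro k _
      exact abs_le.1 (hψ1 (k + 1) _)
    obtain ⟨a, -, ha⟩ := isCompact_Icc.ultrafilter_le_nhds (𝒰.map (fun k => g k n)) h1
    exact ⟨a, ha⟩
  choose Ψ hΨ using hlim
  have hΨ0 : c / 2 ≤ Ψ 0 ^ 2 := by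
    have h1 : Filter.Tendsto (fun k => g k 0 ^ 2) 𝒰 (nhds (Ψ 0 ^ 2)) := (hΨ 0).pow 2
    apply ge_of_tendsto h1
    apply Filter.Eventually.of_forall
    intro k
    simp only [hg, Int.cast_zero]
    exact hlow2 k
  have hΨ0' : Ψ 0 ≠ 0 := by
    intro h0
    rw [h0] at hΨ0
    have : 0 < c / 2 := by positivity
    norm_num at hΨ0
    linarith
  have hVsum : ∀ n : ℤ, Summable fun k => if ((p (k + 1) : ℕ) : ℤ) ∣ n then e k else 0 := by
    intro n
    refine Summable.of_nonneg_of_le (fun k => ?_) (fun k => ?_) hes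
    · split_ifs
      · exact (he k).le
      · exact le_rfl
    · split_ifs
      · exact le_rfl
      · exact (he k).le
  have hVlim : ∀ n : ℤ, Filter.Tendsto (fun k => Vt p e (k + 1) n) 𝒰
      (nhds (∑' k, if ((p (k + 1) : ℕ) : ℤ) ∣ n then e k else 0)) := by
    intro n
    have h1 := (hVsum n).hasSum.tendsto_sum_nat
    have h2 := (Filter.tendsto_add_atTop_iff_nat 1).2 h1
    exact h2.mono_left hU
  have heq : ∀ k (n : ℤ), g k (n + 1) + g k (n - 1) + Vt p e (k + 1) n * g k n =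
      E (k + 1) * g k n := by
    intro k n
    have h1 := heig (k + 1) ((n : ℤ) : ZMod (p (k + 1)))
    rw [vk_int] at h1
    simp only [hg]
    push_cast
    exact h1
  set V : ℤ → ℝ := fun n => ∑' k, if ((p (k + 1) : ℕ) : ℤ) ∣ n then e k else 0 with hV
  have hE : Filter.Tendsto (fun k => E (k + 1)) 𝒰 (nhds ((Ψ 1 + Ψ (-1) + V 0 * Ψ 0) / Ψ 0)) := by
    have h1 : (fun k => E (k + 1)) = fun k => (g k 1 + g k (-1) + Vt p e (k + 1) 0 * g k 0) / g k 0 := by
      funext k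
      have h2 := heq k 0
      have h3 : g k 0 ≠ 0 := by
        intro h0
        have := hlow2 k
        simp only [hg, Int.cast_zero] at h0
        rw [h0] at this
        have h5 : 0 < c / 2 := by positivity
        norm_num at this
        linarith
      rw [eq_div_iff h3, ← h2]
      norm_num
    rw [h1]
    exact (((hΨ 1).add (hΨ (-1))).add ((hVlim 0).mul (hΨ 0))).div (hΨ 0) hΨ0'
  refine ⟨Ψ, (Ψ 1 + Ψ (-1) + V 0 * Ψ 0) / Ψ 0, hΨ0', ?_, fun n => ?_⟩
  · apply summable_of_sum_le (c := 1) (fun n => sq_nonneg _)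
    intro s
    have h1 : Filter.Tendsto (fun k => ∑ n ∈ s, g k n ^ 2) 𝒰 (nhds (∑ n ∈ s, Ψ n ^ 2)) :=
      tendsto_finsetSum s (fun n _ => (hΨ n).pow 2)
    apply le_of_tendsto h1
    obtain ⟨R, hR⟩ : ∃ R : ℕ, ∀ n ∈ s, n.natAbs ≤ R := by
      refine ⟨s.sup Int.natAbs, fun n hn => Finset.le_sup hn⟩
    have h2 : ∀ᶠ k in Filter.atTop, 2 * R < p (k + 1) :=
      ((Filter.tendsto_add_atTop_iff_nat 1).2 htend).eventually_gt_atTop (2 * R)
    filter_upwards [hU h2] with k hk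
    have hinj : Set.InjOn (fun n : ℤ => ((n : ℤ) : ZMod (p (k + 1)))) (s : Set ℤ) := by
      intro x hx y hy hxy
      have hx' := hR x hx
      have hy' := hR y hy
      simp only at hxy
      rw [ZMod.intCast_eq_intCast_iff] at hxy
      obtain ⟨d, hd'⟩ := hxy.dvd
      have h4 : |y - x| < p (k + 1) := by
        rw [abs_lt]; omega
      have h5 : d = 0 := by
        by_contra hne'
        have h6 : 1 ≤ |d| := Int.one_le_abs hne'
        rw [hd', abs_mul] at h4
        have h7 : |((p (k + 1) : ℕ) : ℤ)| = p (k + 1) := abs_of_nonneg (by positivity)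
        rw [h7] at h4
        nlinarith
      rw [h5, mul_zero] at hd'
      omega
    calc ∑ n ∈ s, g k n ^ 2 = ∑ y ∈ s.image (fun n : ℤ => ((n : ℤ) : ZMod (p (k + 1)))),
          ψ (k + 1) y ^ 2 := by rw [sum_image hinj]
      _ ≤ NF (ψ (k + 1)) := sum_le_sum_of_subset_of_nonneg (subset_univ _) (fun _ _ _ => sq_nonneg _)
      _ = 1 := hN _
  · have h1 : Filter.Tendsto (fun k => g k (n + 1) + g k (n - 1) + Vt p e (k + 1) n * g k n) 𝒰
        (nhds (Ψ (n + 1) + Ψ (n - 1) + V n * Ψ n)) :=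
      ((hΨ _).add (hΨ _)).add ((hVlim n).mul (hΨ n))
    have h2 : Filter.Tendsto (fun k => E (k + 1) * g k n) 𝒰
        (nhds ((Ψ 1 + Ψ (-1) + V 0 * Ψ 0) / Ψ 0 * Ψ n)) := hE.mul (hΨ n)
    refine tendsto_nhds_unique (h1.congr fun k => heq k n) h2

end Pool.Agent.H792R3
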