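import Mathlib

set_option autoImplicit false

/-!
Averaging over multiples of an angle function.
-/

namespace Pool.Agent.H792R3

open MeasureTheory Filter Topology

/-- unit complex number -/
noncomputable def zz (φ : ℝ) : ℂ := Complex.exp (((2 * φ : ℝ) : ℂ) * Complex.I)

lemma norm_zz (φ : ℝ) : ‖zz φ‖ = 1 := Complex.norm_exp_ofReal_mul_I _

lemma zz_pow (φ : ℝ) (n : ℕ) : zz φ ^ n = zz (n * φ) := by
  unfold zz
  rw [← Complex.exp_nat_mul]
  congr 1
  push_cast
  ring

lemma zz_re (φ : ℝ) : (zz φ).re = Real.cos (2 * φ) := Complex.exp_ofReal_mul_I_re _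

lemma zz_im (φ : ℝ) : (zz φ).im = Real.sin (2 * φ) := Complex.exp_ofReal_mul_I_im _

lemma norm_zz_sub_one (φ : ℝ) : ‖zz φ - 1‖ ^ 2 = 4 * Real.sin φ ^ 2 := by
  rw [← Complex.normSq_eq_norm_sq, Complex.normSq_apply]
  simp only [Complex.sub_re, Complex.sub_im, zz_re, zz_im, Complex.one_re, Complex.one_im]
  rw [Real.cos_two_mul, Real.sin_two_mul]
  have := Real.sin_sq_add_cos_sq φ
  have h2 : Real.cos φ ^ 2 = 1 - Real.sin φ ^ 2 := by linarith
  ring_nf
  rw [show Real.cos φ ^ 4 = (Real.cos φ ^ 2) ^ 2 by ring, h2]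
  ring

lemma norm_pow_sub_one (z : ℂ) (hz : ‖z‖ = 1) (n : ℕ) : ‖z ^ n - 1‖ ≤ n * ‖z - 1‖ := by
  induction n with
  | zero => simp
  | succ n ih =>
    have : z ^ (n + 1) - 1 = z * (z ^ n - 1) + (z - 1) := by ring
    rw [this]
    refine (norm_add_le _ _).trans ?_
    rw [norm_mul, hz]
    push_cast
    linarith

lemma geom_lower (φ η : ℝ) (m : ℕ) (hη : |Real.sin φ| < η) (hm : m * η ≤ 1 / 2) :
    (m : ℝ) ^ 2 / 4 ≤ ‖∑ j ∈ Finset.range m, zz φ ^ j‖ ^ 2 := by
  have h0 : ‖zz φ - 1‖ ≤ 2 * η := by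
    have h1 := norm_zz_sub_one φ
    have h2 : ‖zz φ - 1‖ ^ 2 ≤ (2 * η) ^ 2 := by
      rw [h1]
      have : Real.sin φ ^ 2 ≤ η ^ 2 := by rw [← sq_abs]; gcongr
      linarith
    exact (pow_le_pow_iff_left₀ (norm_nonneg _) (by have := abs_nonneg (Real.sin φ); linarith)
      two_ne_zero).1 h2
  have h1 : ‖∑ j ∈ Finset.range m, (zz φ ^ j - 1)‖ ≤ m / 2 := by
    refine (norm_sum_le _ _).trans ?_
    calc ∑ j ∈ Finset.range m, ‖zz φ ^ j - 1‖ ≤ ∑ j ∈ Finset.range m, (j : ℝ) * (2 * η) := by
          apply Finset.sum_le_sum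
          intro j _
          exact (norm_pow_sub_one _ (norm_zz φ) j).trans (by gcongr)
      _ = (∑ j ∈ Finset.range m, (j : ℝ)) * (2 * η) := by rw [Finset.sum_mul]
      _ ≤ (m * m / 2) * (2 * η) := by
          have hη0 : 0 ≤ η := (abs_nonneg _).trans hη.le
          gcongr
          have h2 : (∑ j ∈ Finset.range m, j) * 2 = m * (m - 1) := Finset.sum_range_id_mul_two m
          have h3 : (∑ j ∈ Finset.range m, j) * 2 ≤ m * m := by
            rw [h2]; gcongr; omega
          have h4 : (∑ j ∈ Finset.range m, (j : ℝ)) * 2 ≤ m * m := by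
            have h5 : (((∑ j ∈ Finset.range m, j) * 2 : ℕ) : ℝ) ≤ ((m * m : ℕ) : ℝ) :=
              Nat.cast_le.2 h3
            push_cast at h5
            exact h5
          linarith
      _ = m * (m * η) := by ring
      _ ≤ m * (1 / 2) := by gcongr
      _ = m / 2 := by ring
  have h2 : ∑ j ∈ Finset.range m, zz φ ^ j = m + ∑ j ∈ Finset.range m, (zz φ ^ j - 1) := by
    rw [Finset.sum_sub_distrib]
    simp
  have h3 : (m : ℝ) / 2 ≤ ‖∑ j ∈ Finset.range m, zz φ ^ j‖ := by
    rw [h2]
    have h4 := norm_sub_le_norm_add (m : ℂ) (∑ j ∈ Finset.range m, (zz φ ^ j - 1))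
    rw [Complex.norm_natCast] at h4
    linarith
  calc (m : ℝ) ^ 2 / 4 = (m / 2) ^ 2 := by ring
    _ ≤ _ := by gcongr

lemma geom_expand (φ : ℝ) (m : ℕ) : ‖∑ j ∈ Finset.range m, zz φ ^ j‖ ^ 2 =
    ∑ j ∈ Finset.range m, ∑ l ∈ Finset.range m, Real.cos (2 * ((j : ℝ) - l) * φ) := by
  rw [← Complex.normSq_eq_norm_sq]
  have h1 : ((Complex.normSq (∑ j ∈ Finset.range m, zz φ ^ j) : ℝ) : ℂ) =
      (∑ j ∈ Finset.range m, zz φ ^ j) * (starRingEnd ℂ) (∑ j ∈ Finset.range m, zz φ ^ j) :=
    (Complex.mul_conj _).symm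
  have h2 := congrArg Complex.re h1
  rw [Complex.ofReal_re] at h2
  rw [h2, map_sum, Finset.sum_mul_sum, Complex.re_sum]
  apply Finset.sum_congr rfl
  intro j _
  rw [Complex.re_sum]
  apply Finset.sum_congr rfl
  intro l _
  rw [zz_pow, zz_pow, Complex.mul_re, Complex.conj_re, Complex.conj_im, zz_re, zz_re, zz_im, zz_im]
  rw [show 2 * ((j : ℝ) - l) * φ = 2 * (j * φ) - 2 * (l * φ) by ring, Real.cos_sub]
  ring

/-- Cesaro means of `cos (2 a N θ)` tend to zero -/
lemma cesaro_pt (φ : ℝ) (h : Real.cos (2 * φ) ≠ 1) (N₀ : ℕ) :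
    Tendsto (fun L : ℕ => (∑ N ∈ Finset.range L, Real.cos (2 * ((N₀ + N : ℕ) * φ))) / L) atTop
      (𝓝 0) := by
  have hz : zz φ ≠ 1 := by
    intro h1
    apply h
    rw [← zz_re, h1, Complex.one_re]
  have hbd : ∀ L : ℕ, |∑ N ∈ Finset.range L, Real.cos (2 * ((N₀ + N : ℕ) * φ))| ≤
      2 / ‖zz φ - 1‖ := by
    intro L
    have h1 : ∑ N ∈ Finset.range L, Real.cos (2 * ((N₀ + N : ℕ) * φ)) =
        (zz φ ^ N₀ * ∑ N ∈ Finset.range L, zz φ ^ N).re := by
      rw [Finset.mul_sum, Complex.re_sum]
      apply Finset.sum_congr rfl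
      intro N _
      rw [← pow_add, zz_pow, zz_re]
    rw [h1]
    refine (Complex.abs_re_le_norm _).trans ?_
    rw [norm_mul, norm_pow, norm_zz, one_pow, one_mul, geom_sum_eq hz, norm_div]
    gcongr
    refine (norm_sub_le _ _).trans ?_
    rw [norm_pow, norm_zz, one_pow, norm_one]
    norm_num
  have h2 : Tendsto (fun L : ℕ => 2 / ‖zz φ - 1‖ / (L : ℝ)) atTop (𝓝 0) :=
    tendsto_const_div_atTop_nhds_zero_nat _
  refine squeeze_zero_norm (fun L => ?_) h2
  rw [norm_div, Real.norm_eq_abs, Real.norm_of_nonneg (Nat.cast_nonneg L)]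
  gcongr
  exact hbd L

lemma cesaro_int (S : Set ℝ) (hS1 : volume S ≠ ⊤) (θ : ℝ → ℝ)
    (hθ : Measurable θ) (a : ℝ) (h : ∀ᵐ E ∂(volume.restrict S), Real.cos (2 * (a * θ E)) ≠ 1)
    (N₀ : ℕ) :
    Tendsto (fun L : ℕ => (∑ N ∈ Finset.range L, ∫ E in S, Real.cos (2 * ((N₀ + N : ℕ) * (a * θ E)))) / L)
      atTop (𝓝 0) := by
  have hfin : IsFiniteMeasure (volume.restrict S) := ⟨by
    rw [Measure.restrict_apply_univ]; exact lt_top_iff_ne_top.2 hS1⟩
  have hint : ∀ c : ℝ, Integrable (fun E => Real.cos (c * (a * θ E))) (volume.restrict S) := by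
    intro c
    apply Integrable.of_bound (C := 1)
    · exact (Real.continuous_cos.measurable.comp (by fun_prop)).aestronglyMeasurable
    · exact Eventually.of_forall fun E => by
        rw [Real.norm_eq_abs]; exact Real.abs_cos_le_one _
  have h1 : ∀ L : ℕ, (∑ N ∈ Finset.range L, ∫ E in S, Real.cos (2 * ((N₀ + N : ℕ) * (a * θ E)))) / L =
      ∫ E in S, (∑ N ∈ Finset.range L, Real.cos (2 * ((N₀ + N : ℕ) * (a * θ E)))) / L := by
    intro L
    rw [integral_div, integral_finsetSum]
    intro N _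
    have := hint (2 * ((N₀ + N : ℕ) : ℝ))
    refine this.congr (Eventually.of_forall fun E => ?_)
    simp only
    ring_nf
  simp_rw [h1]
  have h2 : (0 : ℝ) = ∫ E in S, (0 : ℝ) := by simp
  rw [h2]
  apply tendsto_integral_of_dominated_convergence (fun _ => (1 : ℝ))
  · intro L
    apply Measurable.aestronglyMeasurable
    apply Measurable.div_const
    apply Finset.measurable_sum
    intro N _
    exact Real.continuous_cos.measurable.comp (by fun_prop)
  · exact integrable_const _
  · intro L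
    apply Eventually.of_forall
    intro E
    rcases Nat.eq_zero_or_pos L with hL | hL
    · simp [hL]
    · rw [norm_div, Real.norm_of_nonneg (Nat.cast_nonneg L), div_le_one (by exact_mod_cast hL)]
      refine (norm_sum_le _ _).trans ?_
      calc ∑ N ∈ Finset.range L, ‖Real.cos (2 * ((N₀ + N : ℕ) * (a * θ E)))‖ ≤
          ∑ N ∈ Finset.range L, (1 : ℝ) := by
            apply Finset.sum_le_sum
            intro N _
            rw [Real.norm_eq_abs]
            exact Real.abs_cos_le_one _
        _ = L := by simp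
  · filter_upwards [h] with E hE
    exact cesaro_pt (a * θ E) hE N₀

/-- selection of a good multiple -/
theorem select_mult (S : Set ℝ) (hS : MeasurableSet S) (hS1 : volume S ≠ ⊤) (θ : ℝ → ℝ)
    (hθ : Measurable θ)
    (h : ∀ a : ℕ, 0 < a → ∀ᵐ E ∂(volume.restrict S), Real.cos (2 * (a * θ E)) ≠ 1)
    (N₀ m : ℕ) (hm0 : 0 < m) (η δ : ℝ) (hm : m * η ≤ 1 / 2) (hδ : 0 < δ) :
    ∃ N, N₀ ≤ N ∧ (volume {E | E ∈ S ∧ |Real.sin (N * θ E)| < η}).toReal ≤
      4 * (volume S).toReal / m + δ := by
  by_contra hcon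
  push Not at hcon
  have hfin : IsFiniteMeasure (volume.restrict S) := ⟨by
    rw [Measure.restrict_apply_univ]; exact lt_top_iff_ne_top.2 hS1⟩
  have hint : ∀ c : ℝ, Integrable (fun E => Real.cos (c * θ E)) (volume.restrict S) := by
    intro c
    apply Integrable.of_bound (C := 1)
    · exact (Real.continuous_cos.measurable.comp (by fun_prop)).aestronglyMeasurable
    · exact Eventually.of_forall fun E => by
        rw [Real.norm_eq_abs]; exact Real.abs_cos_le_one _
  set V := (volume S).toReal with hV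
  -- the integrals
  set I : ℕ → ℝ := fun N => ∑ j ∈ Finset.range m, ∑ l ∈ Finset.range m,
    ∫ E in S, Real.cos (2 * ((N : ℕ) * (((j : ℝ) - l) * θ E))) with hI
  have hm' : (0 : ℝ) < m := by exact_mod_cast hm0
  have hIlow : ∀ N, N₀ ≤ N → m * V + m ^ 2 / 4 * δ ≤ I N := by
    intro N hN
    have h1 := hcon N hN
    set B := {E | E ∈ S ∧ |Real.sin (N * θ E)| < η} with hB
    have hBm : MeasurableSet B := by
      apply hS.inter
      exact measurableSet_lt ((Real.continuous_sin.measurable.comp (by fun_prop)).abs)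
        measurable_const
    have hBS : B ⊆ S := fun E hE => hE.1
    have h2 : I N = ∫ E in S, ‖∑ j ∈ Finset.range m, zz (N * θ E) ^ j‖ ^ 2 := by
      simp_rw [geom_expand]
      rw [hI]
      simp only
      have hi : ∀ j l : ℕ, Integrable (fun E => Real.cos (2 * ((j : ℝ) - l) * (N * θ E)))
          (volume.restrict S) := by
        intro j l
        have := hint (2 * ((j : ℝ) - l) * N)
        refine this.congr (Eventually.of_forall fun E => ?_)
        simp only
        ring_nf
      rw [integral_finsetSum _ (fun j _ => integrable_finsetSum _ (fun l _ => hi j l))]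
      apply Finset.sum_congr rfl
      intro j _
      rw [integral_finsetSum _ (fun l _ => hi j l)]
      apply Finset.sum_congr rfl
      intro l _
      congr 1
      funext E
      congr 1
      ring
    have hcontz : Measurable fun E => ‖∑ j ∈ Finset.range m, zz (N * θ E) ^ j‖ ^ 2 := by
      apply Measurable.pow_const
      apply Measurable.norm
      apply Finset.measurable_sum
      intro j _
      apply Measurable.pow_const
      unfold zz
      fun_prop
    have hbdz : ∀ E, ‖∑ j ∈ Finset.range m, zz (N * θ E) ^ j‖ ^ 2 ≤ m ^ 2 := by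
      intro E
      gcongr
      refine (norm_sum_le _ _).trans ?_
      calc _ = ∑ j ∈ Finset.range m, (1 : ℝ) := by
            apply Finset.sum_congr rfl
            intro j _
            rw [norm_pow, norm_zz, one_pow]
        _ = m := by simp
        _ ≤ m := le_rfl
    have hintz : Integrable (fun E => ‖∑ j ∈ Finset.range m, zz (N * θ E) ^ j‖ ^ 2)
        (volume.restrict S) := by
      apply Integrable.of_bound (C := m ^ 2) hcontz.aestronglyMeasurable
      exact Eventually.of_forall fun E => by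
        rw [Real.norm_of_nonneg (by positivity)]; exact hbdz E
    have h3 : (m : ℝ) ^ 2 / 4 * (volume B).toReal ≤ I N := by
      rw [h2]
      calc (m : ℝ) ^ 2 / 4 * (volume B).toReal = ∫ E in B, (m : ℝ) ^ 2 / 4 := by
            rw [setIntegral_const, smul_eq_mul, mul_comm]; rfl
        _ ≤ ∫ E in B, ‖∑ j ∈ Finset.range m, zz (N * θ E) ^ j‖ ^ 2 := by
            apply setIntegral_mono_on _ (hintz.mono_measure (Measure.restrict_mono hBS le_rfl)) hBm
            · intro E hE
              exact geom_lower (N * θ E) η m hE.2 hm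
            · have hBfin : volume B ≠ ⊤ := ne_top_of_le_ne_top hS1 (measure_mono hBS)
              exact integrableOn_const hBfin
        _ ≤ _ := by
            apply setIntegral_mono_set hintz
            · exact Eventually.of_forall fun E => by positivity
            · exact LE.le.eventuallyLE hBS
    have h4 : (m : ℝ) ^ 2 / 4 * (4 * V / m + δ) ≤ (m : ℝ) ^ 2 / 4 * (volume B).toReal := by
      apply mul_le_mul_of_nonneg_left h1.le (by positivity)
    have h5 : (m : ℝ) ^ 2 / 4 * (4 * V / m + δ) = m * V + m ^ 2 / 4 * δ := by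
      field_simp
    linarith
  -- Cesaro limit of `I`
  have hcase : ∀ j l : ℕ, Tendsto (fun L : ℕ => (∑ N ∈ Finset.range L,
      ∫ E in S, Real.cos (2 * ((N₀ + N : ℕ) * (((j : ℝ) - l) * θ E)))) / L) atTop
      (𝓝 (if j = l then V else 0)) := by
    intro j l
    split_ifs with hjl
    · subst hjl
      have h1 : ∀ L : ℕ, 0 < L → (∑ N ∈ Finset.range L,
          ∫ E in S, Real.cos (2 * ((N₀ + N : ℕ) * (((j : ℝ) - j) * θ E)))) / L = V := by
        intro L hL
        simp only [sub_self, zero_mul, mul_zero, Real.cos_zero, setIntegral_const, smul_eq_mul,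
          mul_one, Finset.sum_const, Finset.card_range, nsmul_eq_mul]
        have : (0 : ℝ) < L := by exact_mod_cast hL
        rw [mul_div_cancel_left₀ _ this.ne']
        rfl
      refine tendsto_const_nhds.congr' ?_
      filter_upwards [eventually_gt_atTop 0] with L hL
      exact (h1 L hL).symm
    · apply cesaro_int S hS1 θ hθ
      rcases lt_or_gt_of_ne hjl with h1 | h1
      · have h2 := h (l - j) (by omega)
        filter_upwards [h2] with E hE
        rw [Nat.cast_sub h1.le] at hE
        rw [show 2 * (((j : ℝ) - l) * θ E) = -(2 * (((l : ℝ) - j) * θ E)) by ring, Real.cos_neg]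
        exact hE
      · have h2 := h (j - l) (by omega)
        filter_upwards [h2] with E hE
        rw [Nat.cast_sub h1.le] at hE
        exact hE
  have hlim : Tendsto (fun L : ℕ => (∑ N ∈ Finset.range L, I (N₀ + N)) / L) atTop
      (𝓝 (m * V)) := by
    have h1 : ∀ L : ℕ, (∑ N ∈ Finset.range L, I (N₀ + N)) / L =
        ∑ j ∈ Finset.range m, ∑ l ∈ Finset.range m, (∑ N ∈ Finset.range L,
      ∫ E in S, Real.cos (2 * ((N₀ + N : ℕ) * (((j : ℝ) - l) * θ E)))) / L := by
      intro L
      simp only [hI]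
      rw [Finset.sum_comm, Finset.sum_div]
      apply Finset.sum_congr rfl
      intro j _
      rw [Finset.sum_comm, Finset.sum_div]
    simp_rw [h1]
    have h2 : (m * V : ℝ) = ∑ j ∈ Finset.range m, ∑ l ∈ Finset.range m, if j = l then V else 0 := by
      have : ∀ j ∈ Finset.range m, (∑ l ∈ Finset.range m, if j = l then V else 0) = V := by
        intro j hj
        rw [Finset.sum_ite_eq, if_pos hj]
      rw [Finset.sum_congr rfl this]
      simp
    rw [h2]
    exact tendsto_finsetSum _ (fun j _ => tendsto_finsetSum _ (fun l _ => hcase j l))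
  have hge : m * V + m ^ 2 / 4 * δ ≤ m * V := by
    apply ge_of_tendsto hlim
    filter_upwards [eventually_gt_atTop 0] with L hL
    have hL' : (0 : ℝ) < L := by exact_mod_cast hL
    rw [le_div_iff₀ hL']
    calc (m * V + m ^ 2 / 4 * δ) * L = ∑ N ∈ Finset.range L, (m * V + m ^ 2 / 4 * δ) := by
          simp; ring
      _ ≤ _ := Finset.sum_le_sum fun N _ => hIlow (N₀ + N) (by omega)
  have : 0 < (m : ℝ) ^ 2 / 4 * δ := by positivity
  linarith

end Pool.Agent.H792R3
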