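import Mathlib

set_option autoImplicit false
set_option maxHeartbeats 1000000

/-!
Elliptic 2x2 matrices and their perturbations.
-/

namespace Pool.Agent.H792R3

open Matrix

abbrev M2 : Type := Matrix (Fin 2) (Fin 2) ℝ

/-- one step transfer matrix at energy `E`, potential value `v` -/
def tA (E v : ℝ) : M2 := !![E - v, -1; 1, 0]

/-- change of the potential value at one site -/
def Pm (ε : ℝ) : M2 := !![1, -ε; 0, 1]

lemma tA_add (E v ε : ℝ) : tA E (v + ε) = Pm ε * tA E v := by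
  unfold tA Pm
  ext i j
  fin_cases i <;> fin_cases j <;> simp [Matrix.mul_apply, Fin.sum_univ_two]
  ring

/-- elliptic matrix with data -/
noncomputable def El (θ α β γ : ℝ) : M2 :=
  !![Real.cos θ + Real.sin θ * α, Real.sin θ * β; Real.sin θ * γ, Real.cos θ - Real.sin θ * α]

lemma El_mul (θ φ α β γ : ℝ) (h : α ^ 2 + β * γ = -1) :
    El θ α β γ * El φ α β γ = El (θ + φ) α β γ := by
  unfold El
  ext i j
  fin_cases i <;> fin_cases j <;>
    simp [Matrix.mul_apply, Fin.sum_univ_two, Real.cos_add, Real.sin_add]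
  · linear_combination (Real.sin θ * Real.sin φ) * h
  · ring
  · ring
  · linear_combination (Real.sin θ * Real.sin φ) * h

lemma El_zero (α β γ : ℝ) : El 0 α β γ = 1 := by
  unfold El
  ext i j
  fin_cases i <;> fin_cases j <;> simp

lemma El_pow (θ α β γ : ℝ) (h : α ^ 2 + β * γ = -1) (n : ℕ) :
    El θ α β γ ^ n = El (n * θ) α β γ := by
  induction n with
  | zero => simp [El_zero]
  | succ n ih =>
    rw [pow_succ, ih, El_mul _ _ _ _ _ h]
    congr 1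
    push_cast; ring

lemma El_trace (θ α β γ : ℝ) : (El θ α β γ).trace = 2 * Real.cos θ := by
  unfold El
  rw [Matrix.trace_fin_two]
  simp
  ring

/-- invariant quadratic form -/
def qf (α β γ x y : ℝ) : ℝ := γ * x ^ 2 - 2 * α * x * y - β * y ^ 2

lemma qf_inv (θ α β γ : ℝ) (h : α ^ 2 + β * γ = -1) (x : Fin 2 → ℝ) :
    qf α β γ ((El θ α β γ *ᵥ x) 0) ((El θ α β γ *ᵥ x) 1) = qf α β γ (x 0) (x 1) := by
  unfold El qf
  simp [Matrix.mulVec, dotProduct, Fin.sum_univ_two]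
  have hs := Real.sin_sq_add_cos_sq θ
  have hc : Real.cos θ ^ 2 = 1 - Real.sin θ ^ 2 := by linarith
  have hb : β * γ = -1 - α ^ 2 := by linarith
  linear_combination (γ * x 0 ^ 2 - 2 * α * x 0 * x 1 - β * x 1 ^ 2) * hc +
    (-(Real.sin θ ^ 2) * (γ * x 0 ^ 2 - 2 * α * x 0 * x 1 - β * x 1 ^ 2)) * hb

lemma qf_lower {K α β γ : ℝ} (hγ : 0 < γ) (h : α ^ 2 + β * γ = -1) (hK : γ - β ≤ K) (x y : ℝ) :
    x ^ 2 + y ^ 2 ≤ K * qf α β γ x y := by
  have hβ : β < 0 := by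
    by_contra hcon
    have : 0 ≤ β * γ := mul_nonneg (not_lt.1 hcon) hγ.le
    nlinarith [sq_nonneg α]
  have h1 : x ^ 2 + y ^ 2 ≤ (γ - β) * qf α β γ x y := by
    unfold qf
    nlinarith [sq_nonneg (γ * x - α * y), sq_nonneg (α * x + β * y)]
  have h2 : 0 ≤ qf α β γ x y := by
    by_contra hcon
    have : (γ - β) * qf α β γ x y < 0 := mul_neg_of_pos_of_neg (by linarith) (not_le.1 hcon)
    nlinarith [sq_nonneg x, sq_nonneg y]
  refine h1.trans ?_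
  exact mul_le_mul_of_nonneg_right hK h2

/-- elliptic matrices with a bound -/
def EllK (K : ℝ) (M : M2) : Prop :=
  ∃ θ α β γ : ℝ, 0 < γ ∧ α ^ 2 + β * γ = -1 ∧ γ - β ≤ K ∧ M = El θ α β γ

lemma exists_angle (c s : ℝ) (h : c ^ 2 + s ^ 2 = 1) : ∃ θ, Real.cos θ = c ∧ Real.sin θ = s := by
  have hc1 : -1 ≤ c := by nlinarith [sq_nonneg s]
  have hc2 : c ≤ 1 := by nlinarith [sq_nonneg s]
  have h1 : 1 - c ^ 2 = s ^ 2 := by linarith
  rcases le_total 0 s with hs | hs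
  · refine ⟨Real.arccos c, Real.cos_arccos hc1 hc2, ?_⟩
    rw [Real.sin_arccos, h1, Real.sqrt_sq hs]
  · refine ⟨-Real.arccos c, ?_, ?_⟩
    · rw [Real.cos_neg, Real.cos_arccos hc1 hc2]
    · rw [Real.sin_neg, Real.sin_arccos, h1]
      have : s ^ 2 = (-s) ^ 2 := by ring
      rw [this, Real.sqrt_sq (by linarith)]
      ring

lemma rho_bounds {δ κ r ρ : ℝ} (hδ0 : 0 < δ) (hδ1 : δ ≤ 1 / 8) (hκ1 : 1 - δ / 2 ≤ κ)
    (hκ2 : κ ≤ 1 + δ / 2) (hr0 : 0 < r) (hr2 : r ^ 2 = κ) (hρr : ρ * r = 1) :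
    ρ ≤ 1 + δ ∧ 1 - δ ≤ ρ := by
  have h3 : δ ^ 3 ≤ δ := by
    have : δ ^ 3 = δ * (δ * δ) := by ring
    rw [this]
    have : δ * δ ≤ 1 := by nlinarith
    nlinarith
  constructor
  · have h1 : 1 ≤ ((1 + δ) * r) ^ 2 := by
      rw [mul_pow, hr2]
      calc (1 : ℝ) ≤ (1 + δ) ^ 2 * (1 - δ / 2) := by
            have : (1 + δ) ^ 2 * (1 - δ / 2) = 1 + 3 / 2 * δ - δ ^ 3 / 2 := by ring
            rw [this]; linarith
        _ ≤ _ := by gcongr
    have h2 : 1 ≤ (1 + δ) * r := by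
      by_contra hcon
      push Not at hcon
      have h4 : 0 < (1 + δ) * r := by positivity
      nlinarith
    have h4 : ρ * r ≤ (1 + δ) * r := by rw [hρr]; exact h2
    exact le_of_mul_le_mul_right h4 hr0
  · have h1 : ((1 - δ) * r) ^ 2 ≤ 1 := by
      rw [mul_pow, hr2]
      calc (1 - δ) ^ 2 * κ ≤ (1 - δ) ^ 2 * (1 + δ / 2) := by gcongr
        _ ≤ 1 := by
            have : (1 - δ) ^ 2 * (1 + δ / 2) = 1 - 3 / 2 * δ + δ ^ 3 / 2 := by ring
            rw [this]; linarith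
    have h2 : (1 - δ) * r ≤ 1 := by
      by_contra hcon
      push Not at hcon
      nlinarith
    have h4 : (1 - δ) * r ≤ ρ * r := by rw [hρr]; exact h2
    exact le_of_mul_le_mul_right h4 hr0

lemma mat_id (c s α β γ ε τ : ℝ) (e4 : s * τ = ε * c) :
    (!![1, -ε; 0, 1] : M2) * !![c + s * α, s * β; s * γ, c - s * α] =
      !![(c - ε * s * γ / 2) + s * (α - ε * γ / 2), s * (β - τ + ε * α);
        s * γ, (c - ε * s * γ / 2) - s * (α - ε * γ / 2)] := by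
  ext i j
  fin_cases i <;> fin_cases j <;> simp [Matrix.mul_apply, Fin.sum_univ_two]
  · ring
  · linear_combination e4
  · ring

lemma qf_pert {α β γ ε τ δ ρ x y : ℝ} (hq : x ^ 2 + y ^ 2 ≤ 4 * qf α β γ x y) (hδ0 : 0 < δ)
    (hδ1 : δ ≤ 1 / 8) (hεγ0 : 0 < ε * γ) (hεγ : ε * γ ≤ δ / 4)
    (hτα : -(3 * δ / 16) ≤ τ - ε * α) (hρ : 1 - δ ≤ ρ) :
    (1 - 3 * δ) * qf α β γ x y ≤
      ρ * (qf α β γ x y + ε * γ * x * y + (τ - ε * α) * y ^ 2) := by
  set q := qf α β γ x y with hqdef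
  have hxy : 0 ≤ x ^ 2 + y ^ 2 := by positivity
  have hq0 : 0 ≤ q := by linarith
  have h2 : -(δ / 8 * (x ^ 2 + y ^ 2)) ≤ ε * γ * x * y := by
    have h3 : -(x ^ 2 + y ^ 2) ≤ 2 * (x * y) := by nlinarith [sq_nonneg (x + y)]
    have h4 : ε * γ * x * y = (ε * γ / 2) * (2 * (x * y)) := by ring
    rw [h4]
    have h5 : (ε * γ / 2) * (-(x ^ 2 + y ^ 2)) ≤ (ε * γ / 2) * (2 * (x * y)) :=
      mul_le_mul_of_nonneg_left h3 (by linarith)
    have h6 : (ε * γ / 2) * (x ^ 2 + y ^ 2) ≤ δ / 8 * (x ^ 2 + y ^ 2) :=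
      mul_le_mul_of_nonneg_right (by linarith) hxy
    linarith
  have h3 : -(3 * δ / 16 * (x ^ 2 + y ^ 2)) ≤ (τ - ε * α) * y ^ 2 := by
    have h5 : -(3 * δ / 16) * y ^ 2 ≤ (τ - ε * α) * y ^ 2 :=
      mul_le_mul_of_nonneg_right hτα (sq_nonneg y)
    have h6 : 0 ≤ 3 * δ / 16 * x ^ 2 := by positivity
    linarith
  have h4 : (1 - 5 * δ / 4) * q ≤ q + ε * γ * x * y + (τ - ε * α) * y ^ 2 := by
    have : 5 * δ / 16 * (x ^ 2 + y ^ 2) ≤ 5 * δ / 16 * (4 * q) :=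
      mul_le_mul_of_nonneg_left hq (by positivity)
    linarith
  have h7 : 0 ≤ (1 - 5 * δ / 4) * q := mul_nonneg (by linarith) hq0
  calc (1 - 3 * δ) * q ≤ (1 - δ) * ((1 - 5 * δ / 4) * q) := by
        rw [← mul_assoc]
        apply mul_le_mul_of_nonneg_right _ hq0
        nlinarith
    _ ≤ ρ * ((1 - 5 * δ / 4) * q) := mul_le_mul_of_nonneg_right hρ h7
    _ ≤ _ := mul_le_mul_of_nonneg_left h4 (by linarith)

/-- the perturbation step -/
theorem ell_step {K θ α β γ ε η δ : ℝ} (hγ : 0 < γ) (h : α ^ 2 + β * γ = -1) (hK : γ - β ≤ K)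
    (hK4 : K ≤ 4) (hη : 0 < η) (hε : 0 < ε) (hδ : 16 * ε = δ * η) (hδ1 : δ ≤ 1 / 8)
    (hs : η ≤ |Real.sin θ|) :
    ∃ θ' α' β' γ' : ℝ, 0 < γ' ∧ α' ^ 2 + β' * γ' = -1 ∧ γ' - β' ≤ K + 5 * δ ∧
      Pm ε * El θ α β γ = El θ' α' β' γ' ∧
      ∀ x y, (1 - 3 * δ) * qf α β γ x y ≤ qf α' β' γ' x y := by
  set s := Real.sin θ with hs'
  set c := Real.cos θ with hc'
  have hsc : s ^ 2 + c ^ 2 = 1 := Real.sin_sq_add_cos_sq θ
  have hδ0 : 0 < δ := by
    by_contra hcon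
    have : δ * η ≤ 0 := mul_nonpos_of_nonpos_of_nonneg (not_lt.1 hcon) hη.le
    linarith
  have hs1 : |s| ≤ 1 := Real.abs_sin_le_one θ
  have hη1 : η ≤ 1 := hs.trans hs1
  have hs0 : s ≠ 0 := by
    intro h0
    rw [h0, abs_zero] at hs
    linarith
  have hβ : β < 0 := by
    by_contra hcon
    have : 0 ≤ β * γ := mul_nonneg (not_lt.1 hcon) hγ.le
    nlinarith [sq_nonneg α]
  have hγ4 : γ ≤ 4 := by linarith
  have hα2 : |α| ≤ 2 := by
    apply abs_le_of_sq_le_sq' _ (by norm_num) |> abs_le.2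
    nlinarith [sq_nonneg (γ + β)]
  -- the small quantity `τ = ε c / s`
  set τ := ε * (c / s) with hτ
  have hcs : |c / s| ≤ 1 / η := by
    rw [abs_div, div_le_div_iff₀ (abs_pos.2 hs0) hη, one_mul]
    have h1 : |c| ≤ 1 := Real.abs_cos_le_one θ
    calc |c| * η ≤ 1 * η := mul_le_mul_of_nonneg_right h1 hη.le
      _ ≤ |s| := by rw [one_mul]; exact hs
  have hτ1 : |τ| ≤ δ / 16 := by
    rw [hτ, abs_mul, abs_of_pos hε]
    calc ε * |c / s| ≤ ε * (1 / η) := by gcongr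
      _ = δ / 16 := by
        have : ε = δ * η / 16 := by linarith
        rw [this]; field_simp
  have hε1 : ε ≤ δ / 16 := by
    have : δ * η ≤ δ * 1 := by gcongr
    linarith
  obtain ⟨hτa, hτb⟩ := abs_le.1 hτ1
  obtain ⟨hαa, hαb⟩ := abs_le.1 hα2
  set κ := 1 + τ * γ - ε ^ 2 * γ ^ 2 / 4 with hκ
  have hεγ : ε * γ ≤ δ / 4 := by
    calc ε * γ ≤ δ / 16 * 4 := mul_le_mul hε1 hγ4 hγ.le (by linarith)
      _ = δ / 4 := by ring
  have hεγ0 : 0 < ε * γ := by positivity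
  have hεγ2 : ε ^ 2 * γ ^ 2 / 4 ≤ δ / 4 := by
    have h1 : ε ^ 2 * γ ^ 2 = (ε * γ) * (ε * γ) := by ring
    have h2 : (ε * γ) * (ε * γ) ≤ (ε * γ) * 1 :=
      mul_le_mul_of_nonneg_left (by linarith) hεγ0.le
    rw [h1]
    linarith
  have hτγ : |τ * γ| ≤ δ / 4 := by
    rw [abs_mul, abs_of_pos hγ]
    calc |τ| * γ ≤ δ / 16 * 4 := by gcongr
      _ = δ / 4 := by ring
  obtain ⟨hτγa, hτγb⟩ := abs_le.1 hτγ
  have hεγ3 : 0 ≤ ε ^ 2 * γ ^ 2 / 4 := by positivity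
  have hκ1 : 1 - δ / 2 ≤ κ := by rw [hκ]; linarith
  have hκ2 : κ ≤ 1 + δ / 2 := by rw [hκ]; linarith
  have hκ0 : 0 < κ := by linarith
  set r := Real.sqrt κ with hr
  have hr0 : 0 < r := Real.sqrt_pos.2 hκ0
  have hr2 : r ^ 2 = κ := Real.sq_sqrt hκ0.le
  set ρ := 1 / r with hρ
  have hρ0 : 0 < ρ := by positivity
  have hρr : ρ * r = 1 := by rw [hρ]; field_simp
  obtain ⟨hρ1, hρ2⟩ := rho_bounds hδ0 hδ1 hκ1 hκ2 hr0 hr2 hρr
  have e4 : s * τ = ε * c := by rw [hτ]; field_simp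
  obtain ⟨θ', hθc, hθs⟩ := exists_angle (c - ε * s * γ / 2) (s * r) (by
    rw [mul_pow, hr2, hκ]
    linear_combination hsc + (s * γ) * e4)
  refine ⟨θ', ρ * (α - ε * γ / 2), ρ * (β - τ + ε * α), ρ * γ, by positivity, ?_, ?_, ?_, ?_⟩
  · have h1 : (ρ * (α - ε * γ / 2)) ^ 2 + ρ * (β - τ + ε * α) * (ρ * γ) =
        ρ ^ 2 * (α ^ 2 + β * γ - τ * γ + ε ^ 2 * γ ^ 2 / 4) := by ring
    rw [h1, h]
    have h2 : -1 - τ * γ + ε ^ 2 * γ ^ 2 / 4 = -κ := by rw [hκ]; ring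
    rw [h2, ← hr2]
    have h3 : ρ ^ 2 * -r ^ 2 = -(ρ * r) ^ 2 := by ring
    rw [h3, hρr]; norm_num
  · have h1 : ρ * γ - ρ * (β - τ + ε * α) = ρ * (γ - β + τ - ε * α) := by ring
    rw [h1]
    have h2 : -(ε * α) ≤ δ / 8 := by
      have := mul_le_mul_of_nonneg_left hαa hε.le
      linarith
    have h3 : γ - β + τ - ε * α ≤ K + 3 * δ / 16 := by linarith
    have h4 : 0 ≤ K + 3 * δ / 16 := by linarith
    calc ρ * (γ - β + τ - ε * α) ≤ ρ * (K + 3 * δ / 16) := by gcongr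
      _ ≤ (1 + δ) * (K + 3 * δ / 16) := by gcongr
      _ ≤ K + 5 * δ := by
        have a1 : δ * K ≤ δ * 4 := mul_le_mul_of_nonneg_left hK4 hδ0.le
        have a2 : δ * δ ≤ δ * (1 / 8) := mul_le_mul_of_nonneg_left hδ1 hδ0.le
        have a3 : (1 + δ) * (K + 3 * δ / 16) = K + 3 * δ / 16 + δ * K + 3 / 16 * (δ * δ) := by ring
        rw [a3]
        linarith
  · unfold Pm El
    rw [hθc, hθs]
    have e1 : s * r * (ρ * (α - ε * γ / 2)) = s * (α - ε * γ / 2) := by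
      linear_combination (s * (α - ε * γ / 2)) * hρr
    have e2 : s * r * (ρ * (β - τ + ε * α)) = s * (β - τ + ε * α) := by
      linear_combination (s * (β - τ + ε * α)) * hρr
    have e3 : s * r * (ρ * γ) = s * γ := by
      linear_combination (s * γ) * hρr
    rw [e1, e2, e3]
    exact mat_id c s α β γ ε τ e4
  · intro x y
    have hq := qf_lower hγ h (hK.trans hK4) x y
    have h1 : qf (ρ * (α - ε * γ / 2)) (ρ * (β - τ + ε * α)) (ρ * γ) x y =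
        ρ * (qf α β γ x y + ε * γ * x * y + (τ - ε * α) * y ^ 2) := by
      unfold qf; ring
    rw [h1]
    have h2 : ε * α ≤ δ / 8 := by
      have := mul_le_mul_of_nonneg_left hαb hε.le
      linarith
    exact qf_pert hq hδ0 hδ1 hεγ0 hεγ (by linarith) hρ2

end Pool.Agent.H792R3
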