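import Mathlib
import Pool.Agent.H792R3.Avg
import Pool.Agent.H792R3.Ell

set_option autoImplicit false
set_option maxHeartbeats 1000000

/-!
Recursive selection of the multiples.
-/

namespace Pool.Agent.H792R3

open MeasureTheory Filter Topology Matrix

/-- limit matrix -/
def P0 : M2 := !![1, 0; 0, 0]

lemma P0_pow (n : ℕ) (hn : 1 ≤ n) : P0 ^ n = P0 := by
  obtain ⟨m, rfl⟩ := Nat.exists_eq_succ_of_ne_zero (by omega : n ≠ 0)
  induction m with
  | zero => simp
  | succ m ih =>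
    rw [Nat.succ_eq_add_one, pow_succ, ih (by omega)]
    unfold P0
    ext i j
    fin_cases i <;> fin_cases j <;> simp [Matrix.mul_apply, Fin.sum_univ_two]

lemma Pm_P0 (ε : ℝ) : Pm ε * P0 = P0 := by
  unfold P0 Pm
  ext i j
  fin_cases i <;> fin_cases j <;> simp [Matrix.mul_apply, Fin.sum_univ_two]

/-- polynomial dependence on the energy with growth -/
def PT (M : ℝ → M2) : Prop :=
  ∃ n : ℕ, 1 ≤ n ∧ (∃ m : Matrix (Fin 2) (Fin 2) (Polynomial ℝ),
    ∀ E, M E = (Polynomial.evalRingHom E).mapMatrix m) ∧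
    Tendsto (fun E => (E ^ n)⁻¹ • M E) atTop (𝓝 P0)

lemma PT_step {M : ℝ → M2} (h : PT M) (ε : ℝ) (N : ℕ) (hN : 1 ≤ N) :
    PT (fun E => Pm ε * M E ^ N) := by
  obtain ⟨n, hn, ⟨m, hm⟩, ht⟩ := h
  refine ⟨n * N, Nat.one_le_iff_ne_zero.2 (by positivity), ⟨!![1, Polynomial.C (-ε); 0, 1] * m ^ N, ?_⟩, ?_⟩
  · intro E
    have hP : Pm ε = (Polynomial.evalRingHom E).mapMatrix !![1, Polynomial.C (-ε); 0, 1] := by
      unfold Pm
      ext i j
      fin_cases i <;> fin_cases j <;> simp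
    change Pm ε * M E ^ N = _
    rw [map_mul, map_pow, ← hm, ← hP]
  · have h1 : ∀ E : ℝ, (E ^ (n * N))⁻¹ • (Pm ε * M E ^ N) = Pm ε * ((E ^ n)⁻¹ • M E) ^ N := by
      intro E
      rw [smul_pow, Matrix.mul_smul, inv_pow, ← pow_mul]
    simp_rw [h1]
    have h2 : Pm ε * P0 ^ N = P0 := by rw [P0_pow N hN, Pm_P0]
    rw [← h2]
    exact tendsto_const_nhds.mul (ht.pow N)

lemma PT_null {M : ℝ → M2} (h : PT M) (a : ℕ) (ha : 1 ≤ a) :
    volume {E : ℝ | (M E ^ a).trace = 2} = 0 := by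
  obtain ⟨n, hn, ⟨m, hm⟩, ht⟩ := h
  set P : Polynomial ℝ := (m ^ a).trace - Polynomial.C 2 with hP
  have hev : ∀ E, P.eval E = (M E ^ a).trace - 2 := by
    intro E
    rw [hP, hm, ← map_pow]
    simp [Matrix.trace_fin_two]
  have hP0 : P ≠ 0 := by
    intro h0
    have h1 : ∀ E, (M E ^ a).trace = 2 := by
      intro E
      have := hev E
      rw [h0, Polynomial.eval_zero] at this
      linarith
    have h2 : Tendsto (fun E : ℝ => (((E ^ n)⁻¹ • M E) ^ a).trace) atTop (𝓝 (P0 ^ a).trace) := by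
      have hc : Continuous fun A : M2 => A.trace := by
        unfold Matrix.trace
        fun_prop
      exact (hc.tendsto _).comp (ht.pow a)
    have h3 : (P0 ^ a).trace = 1 := by
      rw [P0_pow a ha]
      unfold P0
      simp [Matrix.trace_fin_two]
    rw [h3] at h2
    have h4 : ∀ E : ℝ, (((E ^ n)⁻¹ • M E) ^ a).trace = (E ^ (n * a))⁻¹ * 2 := by
      intro E
      rw [smul_pow, Matrix.trace_smul, h1, inv_pow, ← pow_mul, smul_eq_mul]
    simp_rw [h4] at h2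
    have h5 : Tendsto (fun E : ℝ => (E ^ (n * a))⁻¹ * 2) atTop (𝓝 (0 * 2)) := by
      apply Tendsto.mul_const
      apply Tendsto.inv_tendsto_atTop
      apply tendsto_pow_atTop
      have : 0 < n * a := Nat.mul_pos (by omega) (by omega)
      omega
    rw [zero_mul] at h5
    have := tendsto_nhds_unique h2 h5
    norm_num at this
  have hsub : {E : ℝ | (M E ^ a).trace = 2} ⊆ (P.roots.toFinset : Set ℝ) := by
    intro E hE
    simp only [Finset.mem_coe, Multiset.mem_toFinset]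
    rw [Polynomial.mem_roots hP0, Polynomial.IsRoot, hev]
    have : (M E ^ a).trace = 2 := hE
    linarith
  exact measure_mono_null hsub (Finset.measure_zero _ _)

/-- amplitudes -/
noncomputable def ek (k : ℕ) : ℝ := (1 / 2) ^ (2 * k + 16)
/-- thresholds -/
noncomputable def ηk (k : ℕ) : ℝ := (1 / 2) ^ (k + 6)
/-- bounds -/
noncomputable def Kk (k : ℕ) : ℝ := 4 - (1 / 2) ^ k

lemma ek_pos (k : ℕ) : 0 < ek k := by unfold ek; positivity
lemma ηk_pos (k : ℕ) : 0 < ηk k := by unfold ηk; positivity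

lemma ek_eq (k : ℕ) : 16 * ek k = ηk k * ηk k := by
  unfold ek ηk
  rw [← pow_add, show k + 6 + (k + 6) = 2 * k + 12 by ring, show 2 * k + 16 = (2 * k + 12) + 4 by ring,
    pow_add _ (2 * k + 12) 4]
  ring

lemma Kk_step (k : ℕ) : Kk k + 5 * ηk k ≤ Kk (k + 1) := by
  unfold Kk ηk
  have e1 : (1 / 2 : ℝ) ^ (k + 6) = (1 / 2) ^ k * (1 / 64) := by rw [pow_add]; norm_num
  have e2 : (1 / 2 : ℝ) ^ (k + 1) = (1 / 2) ^ k * (1 / 2) := by rw [pow_succ]
  rw [e1, e2]
  have : (0 : ℝ) < (1 / 2) ^ k := by positivity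
  linarith

lemma Kk_le (k : ℕ) : Kk k ≤ 4 := by
  unfold Kk
  have : (0 : ℝ) < (1 / 2) ^ k := by positivity
  linarith

lemma Kk_ge (k : ℕ) : 3 ≤ Kk k := by
  unfold Kk
  have : ((1 : ℝ) / 2) ^ k ≤ 1 := pow_le_one₀ (by norm_num) (by norm_num)
  linarith

lemma ηk_le (k : ℕ) : ηk k ≤ 1 / 8 := by
  unfold ηk
  have : ((1 : ℝ) / 2) ^ (k + 6) = (1 / 2) ^ k * (1 / 64) := by rw [pow_add]; norm_num
  rw [this]
  have : ((1 : ℝ) / 2) ^ k ≤ 1 := pow_le_one₀ (by norm_num) (by norm_num)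
  linarith

lemma Kk_step2 (k : ℕ) : Kk k ≤ (1 - 3 * ηk k) * Kk (k + 1) := by
  unfold Kk ηk
  have e1 : (1 / 2 : ℝ) ^ (k + 6) = (1 / 2) ^ k * (1 / 64) := by rw [pow_add]; norm_num
  have e2 : (1 / 2 : ℝ) ^ (k + 1) = (1 / 2) ^ k * (1 / 2) := by rw [pow_succ]
  rw [e1, e2]
  have h1 : (0 : ℝ) < (1 / 2) ^ k := by positivity
  have h2 : ((1 : ℝ) / 2) ^ k ≤ 1 := pow_le_one₀ (by norm_num) (by norm_num)
  set t := ((1 : ℝ) / 2) ^ k with ht
  nlinarith [mul_pos h1 h1]

/-- the angle function -/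
noncomputable def ang (M : ℝ → M2) (E : ℝ) : ℝ := Real.arccos ((M E).trace / 2)

lemma cos_mul_arccos_cos (a : ℕ) (θ : ℝ) :
    Real.cos (a * Real.arccos (Real.cos θ)) = Real.cos (a * θ) := by
  have h1 := Polynomial.Chebyshev.T_real_cos (Real.arccos (Real.cos θ)) a
  have h2 := Polynomial.Chebyshev.T_real_cos θ a
  rw [Real.cos_arccos (Real.neg_one_le_cos θ) (Real.cos_le_one θ)] at h1
  rw [h1] at h2
  exact_mod_cast h2

lemma abs_sin_mul_arccos_cos (a : ℕ) (θ : ℝ) :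
    |Real.sin (a * Real.arccos (Real.cos θ))| = |Real.sin (a * θ)| := by
  rw [Real.abs_sin_eq_sqrt_one_sub_cos_sq, Real.abs_sin_eq_sqrt_one_sub_cos_sq,
    cos_mul_arccos_cos]

/-- minimal size of the multiples -/
def Nmin (k : ℕ) : ℕ := 2 ^ (3 * k + 43)

/-- invariant of the recursion -/
def Inv (k : ℕ) (st : (ℝ → M2) × Set ℝ) : Prop :=
  MeasurableSet st.2 ∧ st.2 ⊆ Set.Icc (-1) 1 ∧ PT st.1 ∧ ∀ E ∈ st.2, EllK (Kk k) (st.1 E)

/-- one step of the recursion -/
def Step (k : ℕ) (st st' : (ℝ → M2) × Set ℝ) (N : ℕ) : Prop :=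
  Nmin k ≤ N ∧ st'.1 = (fun E => Pm (ek k) * st.1 E ^ N) ∧
    st'.2 = {E | E ∈ st.2 ∧ ηk k ≤ |Real.sin (N * ang st.1 E)|} ∧
    volume (st.2 \ st'.2) ≤ ENNReal.ofReal ((1 / 2) ^ (k + 1))

lemma PT_measurable {M : ℝ → M2} (h : PT M) : Measurable fun E => (M E).trace := by
  obtain ⟨n, hn, ⟨m, hm⟩, ht⟩ := h
  have : (fun E => (M E).trace) = fun E => (m.trace).eval E := by
    funext E
    rw [hm]
    simp [Matrix.trace_fin_two]
  rw [this]
  exact (Polynomial.continuous _).measurable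

theorem step_exists (k : ℕ) (st : (ℝ → M2) × Set ℝ) (h : Inv k st) :
    ∃ (N : ℕ) (st' : (ℝ → M2) × Set ℝ), Step k st st' N ∧ Inv (k + 1) st' := by
  obtain ⟨hm, hsub, hPT, hell⟩ := h
  have hfin : volume st.2 ≠ ⊤ :=
    ne_top_of_le_ne_top (by simp) (measure_mono (μ := volume) hsub)
  have hvol : (volume st.2).toReal ≤ 2 := by
    have h1 : volume st.2 ≤ ENNReal.ofReal 2 := by
      refine (measure_mono hsub).trans ?_
      rw [Real.volume_Icc]; norm_num
    have := ENNReal.toReal_mono ENNReal.ofReal_ne_top h1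
    rwa [ENNReal.toReal_ofReal (by norm_num)] at this
  have hang : Measurable (ang st.1) := by
    unfold ang
    exact Real.measurable_arccos.comp ((PT_measurable hPT).div_const 2)
  have hnull : ∀ a : ℕ, 0 < a → ∀ᵐ E ∂(volume.restrict st.2),
      Real.cos (2 * (a * ang st.1 E)) ≠ 1 := by
    intro a ha
    rw [ae_restrict_iff' hm]
    have h1 := PT_null hPT (2 * a) (by omega)
    have h2 : ∀ᵐ E ∂(volume : Measure ℝ), ¬ ((st.1 E ^ (2 * a)).trace = 2) := by
      rw [ae_iff]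
      simpa using h1
    filter_upwards [h2] with E hE hES hcos
    apply hE
    obtain ⟨θ, α, β, γ, hγ, hab, hK, hM⟩ := hell E hES
    rw [hM, El_pow _ _ _ _ hab, El_trace]
    have h3 : ang st.1 E = Real.arccos (Real.cos θ) := by
      unfold ang
      rw [hM, El_trace]
      congr 1; ring
    rw [h3] at hcos
    have h4 := cos_mul_arccos_cos (2 * a) θ
    push_cast at h4 ⊢
    rw [mul_assoc, hcos] at h4
    rw [← h4]; norm_num
  obtain ⟨N, hN, hNv⟩ := select_mult st.2 hm hfin (ang st.1) hang hnull (Nmin k) (2 ^ (k + 5))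
    (by positivity) (ηk k) ((1 / 2) ^ (k + 2)) (by
      unfold ηk
      push_cast
      rw [show k + 6 = (k + 5) + 1 by ring, pow_succ (1 / 2 : ℝ), ← mul_assoc, ← mul_pow]
      norm_num) (by positivity)
  set S' : Set ℝ := {E | E ∈ st.2 ∧ ηk k ≤ |Real.sin (N * ang st.1 E)|} with hS'
  have hN1 : 1 ≤ N := by
    refine le_trans ?_ hN
    unfold Nmin
    exact Nat.one_le_two_pow
  refine ⟨N, (fun E => Pm (ek k) * st.1 E ^ N, S'), ⟨hN, rfl, rfl, ?_⟩, ?_, ?_, ?_, ?_⟩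
  · have h1 : st.2 \ S' = {E | E ∈ st.2 ∧ |Real.sin (N * ang st.1 E)| < ηk k} := by
      ext E
      simp only [hS', Set.mem_sdiff, Set.mem_ofPred_eq, not_and, not_le]
      constructor
      · rintro ⟨h2, h3⟩; exact ⟨h2, h3 h2⟩
      · rintro ⟨h2, h3⟩; exact ⟨h2, fun _ => h3⟩
    change volume (st.2 \ S') ≤ _
    rw [h1]
    have hfin2 : volume {E | E ∈ st.2 ∧ |Real.sin (N * ang st.1 E)| < ηk k} ≠ ⊤ :=
      ne_top_of_le_ne_top hfin (measure_mono fun E hE => hE.1)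
    rw [← ENNReal.ofReal_toReal hfin2]
    apply ENNReal.ofReal_le_ofReal
    refine hNv.trans ?_
    have h2 : 4 * (volume st.2).toReal / ((2 ^ (k + 5) : ℕ) : ℝ) ≤ (1 / 2) ^ (k + 2) := by
      push_cast
      rw [div_le_iff₀ (by positivity)]
      have h3 : ((1 : ℝ) / 2) ^ (k + 2) * 2 ^ (k + 5) = 8 := by
        rw [show k + 5 = (k + 2) + 3 by ring, pow_add (2 : ℝ), ← mul_assoc, ← mul_pow]
        norm_num
      rw [h3]; linarith
    have h4 : ((1 : ℝ) / 2) ^ (k + 1) = (1 / 2) ^ (k + 2) + (1 / 2) ^ (k + 2) := by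
      rw [show k + 2 = (k + 1) + 1 by ring, pow_succ]; ring
    rw [h4]
    linarith
  · apply hm.inter
    exact measurableSet_le measurable_const
      ((Real.continuous_sin.measurable.comp (hang.const_mul _)).abs)
  · exact fun E hE => hsub hE.1
  · exact PT_step hPT (ek k) N hN1
  · intro E hE
    obtain ⟨θ, α, β, γ, hγ, hab, hK, hM⟩ := hell E hE.1
    have h3 : ang st.1 E = Real.arccos (Real.cos θ) := by
      unfold ang
      rw [hM, El_trace]
      congr 1; ring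
    have h4 := hE.2
    rw [h3, abs_sin_mul_arccos_cos] at h4
    obtain ⟨θ', α', β', γ', h5, h6, h7, h8, -⟩ := ell_step (θ := N * θ) hγ hab hK (Kk_le k) (ηk_pos k)
      (ek_pos k) (ek_eq k) (ηk_le k) h4
    refine ⟨θ', α', β', γ', h5, h6, h7.trans (Kk_step k), ?_⟩
    change Pm (ek k) * st.1 E ^ N = _
    rw [hM, El_pow _ _ _ _ hab, h8]

/-- the initial state -/
def st0 : (ℝ → M2) × Set ℝ := (fun E => tA E 0, Set.Icc (-1) 1)

lemma inv0 : Inv 0 st0 := by
  refine ⟨measurableSet_Icc, subset_rfl, ⟨1, le_rfl, ⟨!![Polynomial.X, -1; 1, 0], ?_⟩, ?_⟩, ?_⟩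
  · intro E
    unfold st0 tA
    ext i j
    fin_cases i <;> fin_cases j <;> simp
  · have h1 : ∀ᶠ E : ℝ in atTop, !![1, -E⁻¹; E⁻¹, 0] = (E ^ 1)⁻¹ • st0.1 E := by
      filter_upwards [eventually_gt_atTop 0] with E hE
      unfold st0 tA
      ext i j
      fin_cases i <;> fin_cases j <;> simp
      field_simp
    refine Tendsto.congr' h1 ?_
    have h2 : Tendsto (fun E : ℝ => E⁻¹) atTop (𝓝 0) := tendsto_inv_atTop_zero
    have hc : Continuous fun x : ℝ => (!![1, -x; x, 0] : M2) := by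
      apply continuous_matrix
      intro i j
      fin_cases i <;> fin_cases j <;> simp <;> fun_prop
    have h3 := (hc.tendsto 0).comp h2
    have h4 : (!![1, -(0 : ℝ); 0, 0] : M2) = P0 := by
      unfold P0; simp
    rw [h4] at h3
    exact h3
  · intro E hE
    obtain ⟨hE1, hE2⟩ := hE
    have hE3 : E ^ 2 ≤ 1 := by nlinarith
    obtain ⟨θ, hθc, hθs⟩ := exists_angle (E / 2) (Real.sqrt (1 - E ^ 2 / 4)) (by
      rw [Real.sq_sqrt (by linarith)]; ring)
    set s := Real.sqrt (1 - E ^ 2 / 4) with hs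
    have hs2 : s ^ 2 = 1 - E ^ 2 / 4 := Real.sq_sqrt (by linarith)
    have hs0 : 0 < s := Real.sqrt_pos.2 (by linarith)
    have hs1 : 2 / 3 ≤ s := by
      by_contra hcon
      push Not at hcon
      nlinarith
    refine ⟨θ, E / (2 * s), -(1 / s), 1 / s, by positivity, ?_, ?_, ?_⟩
    · field_simp
      rw [hs2]; ring
    · have h1 : 1 / s - -(1 / s) = 2 / s := by ring
      rw [h1, div_le_iff₀ hs0]
      have := Kk_ge 0
      nlinarith
    · unfold st0 tA El
      rw [hθc, hθs]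
      ext i j
      fin_cases i <;> fin_cases j <;> simp <;> field_simp <;> ring

theorem seq_exists : ∃ (st : ℕ → (ℝ → M2) × Set ℝ) (N : ℕ → ℕ), st 0 = st0 ∧
    (∀ k, Inv k (st k)) ∧ ∀ k, Step k (st k) (st (k + 1)) (N k) := by
  have h1 : ∀ (k : ℕ) (s : {s : (ℝ → M2) × Set ℝ // Inv k s}),
      ∃ (N : ℕ) (s' : {s : (ℝ → M2) × Set ℝ // Inv (k + 1) s}), Step k s.1 s'.1 N := by
    intro k s
    obtain ⟨N, s', h1, h2⟩ := step_exists k s.1 s.2
    exact ⟨N, ⟨s', h2⟩, h1⟩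
  choose F G hG using h1
  let sq : (k : ℕ) → {s : (ℝ → M2) × Set ℝ // Inv k s} :=
    fun k => Nat.rec (motive := fun k => {s : (ℝ → M2) × Set ℝ // Inv k s}) ⟨st0, inv0⟩
      (fun k s => G k s) k
  exact ⟨fun k => (sq k).1, fun k => F k (sq k), rfl, fun k => (sq k).2, fun k => hG k (sq k)⟩

end Pool.Agent.H792R3
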