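import Mathlib
import Pool.Agent.H792R3.Sel
import Pool.Agent.H792R3.Eig
import Pool.Agent.H792R3.ACAbs

set_option autoImplicit false
set_option maxHeartbeats 1000000

/-!
Assembly: a limit-periodic potential with an eigenvalue and absolutely continuous spectrum.
-/

namespace Pool.Agent.H792R3

open MeasureTheory Filter Topology Matrix

/-- transfer matrices over the sites `1, ..., n` -/
def tm (E : ℝ) (v : ℕ → ℝ) : ℕ → M2
  | 0 => 1
  | n + 1 => tA E (v (n + 1)) * tm E v n

lemma tm_congr (E : ℝ) (v w : ℕ → ℝ) (n : ℕ) (h : ∀ i, 1 ≤ i → i ≤ n → v i = w i) :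
    tm E v n = tm E w n := by
  induction n with
  | zero => rfl
  | succ n ih =>
    rw [tm, tm, ih (fun i h1 h2 => h i h1 (by omega)), h (n + 1) (by omega) le_rfl]

lemma tm_add (E : ℝ) (v : ℕ → ℝ) (a b : ℕ) :
    tm E v (a + b) = tm E (fun i => v (a + i)) b * tm E v a := by
  induction b with
  | zero => simp [tm]
  | succ b ih =>
    rw [← add_assoc, tm, ih, tm, Matrix.mul_assoc]
    rfl

lemma tm_per (E : ℝ) (v : ℕ → ℝ) (p : ℕ) (hv : ∀ i, v (i + p) = v i) (j r : ℕ) :
    tm E v (j * p + r) = tm E v r * tm E v p ^ j := by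
  have hv2 : ∀ j i, v (j * p + i) = v i := by
    intro j
    induction j with
    | zero => intro i; simp
    | succ j ih =>
      intro i
      rw [show (j + 1) * p + i = (j * p + i) + p by ring, hv, ih]
  induction j generalizing r with
  | zero => simp
  | succ j ih =>
    rw [tm_add, pow_succ', ← Matrix.mul_assoc]
    have h1 : (fun i => v ((j + 1) * p + i)) = v := by funext i; exact hv2 (j + 1) i
    rw [h1]
    have h2 := ih p
    rw [show j * p + p = (j + 1) * p by ring] at h2
    rw [h2, Matrix.mul_assoc]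

/-- the Dirichlet solution -/
noncomputable def dir (E : ℝ) (v : ℕ → ℝ) (n : ℕ) : ℝ := (tm E v n *ᵥ ![1, 0]) 1

lemma dir_zero (E : ℝ) (v : ℕ → ℝ) : dir E v 0 = 0 := by simp [dir, tm]

lemma tm_fst (E : ℝ) (v : ℕ → ℝ) (n : ℕ) : (tm E v n *ᵥ ![1, 0]) 0 = dir E v (n + 1) := by
  unfold dir
  rw [tm, ← Matrix.mulVec_mulVec]
  unfold tA
  simp [Matrix.mulVec, dotProduct, Fin.sum_univ_two]

lemma dir_one (E : ℝ) (v : ℕ → ℝ) : dir E v 1 = 1 := by
  have := tm_fst E v 0
  rw [← this]
  simp [tm]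

lemma dir_rec (E : ℝ) (v : ℕ → ℝ) (n : ℕ) :
    dir E v (n + 2) = (E - v (n + 1)) * dir E v (n + 1) - dir E v n := by
  rw [← tm_fst E v (n + 1), tm, ← Matrix.mulVec_mulVec, ← tm_fst E v n]
  unfold dir tA
  simp [Matrix.mulVec, dotProduct, Fin.sum_univ_two]
  ring

set_option linter.unusedSectionVars false

section main

variable (st : ℕ → (ℝ → M2) × Set ℝ) (N p : ℕ → ℕ)
  (hst0 : st 0 = st0) (hInv : ∀ k, Inv k (st k)) (hStep : ∀ k, Step k (st k) (st (k + 1)) (N k))
  (hp0 : p 0 = 1) (hp : ∀ k, p (k + 1) = N k * p k)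

include hp hp0 hStep in
lemma p_pos (k : ℕ) : 0 < p k := by
  induction k with
  | zero => omega
  | succ k ih =>
    rw [hp]
    apply Nat.mul_pos _ ih
    have := (hStep k).1
    have h2 : 0 < Nmin k := by unfold Nmin; positivity
    omega

include hp in
lemma p_dvd (k : ℕ) : p k ∣ p (k + 1) := by rw [hp]; exact Dvd.intro_left _ rfl

include hp in
lemma p_dvd_of_le {j k : ℕ} (h : j ≤ k) : p j ∣ p k := by
  induction k, h using Nat.le_induction with
  | base => exact dvd_rfl
  | succ k _ ih => exact ih.trans (p_dvd N p hp k)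

include hp hp0 hStep in
lemma p_big (k : ℕ) : Nmin k ≤ p (k + 1) := by
  rw [hp]
  have h1 := (hStep k).1
  have h2 := p_pos st N p hStep hp0 hp k
  calc Nmin k = Nmin k * 1 := (mul_one _).symm
    _ ≤ N k * p k := Nat.mul_le_mul h1 h2

/-- full potential -/
noncomputable def Vf (n : ℤ) : ℝ := ∑' k, if ((p (k + 1) : ℕ) : ℤ) ∣ n then ek k else 0

lemma ek_summable : Summable ek := by
  have h1 : ∀ k, ek k = (1 / 4) ^ k * (1 / 2) ^ 16 := by
    intro k
    unfold ek
    rw [pow_add, pow_mul]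
    norm_num
  have : ek = fun k => (1 / 4) ^ k * (1 / 2) ^ 16 := funext h1
  rw [this]
  exact (summable_geometric_of_lt_one (by norm_num) (by norm_num)).mul_right _

lemma Vf_summable (n : ℤ) : Summable fun k => if ((p (k + 1) : ℕ) : ℤ) ∣ n then ek k else 0 := by
  refine Summable.of_nonneg_of_le (fun k => ?_) (fun k => ?_) ek_summable
  · split_ifs
    · exact (ek_pos k).le
    · exact le_rfl
  · split_ifs
    · exact le_rfl
    · exact (ek_pos k).le

include hp hp0 hStep in
lemma Vf_eq_Vt (k : ℕ) (n : ℕ) (h1 : 1 ≤ n) (h2 : n < p (k + 1)) :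
    Vf p (n : ℤ) = Vt p ek k n := by
  unfold Vf Vt
  rw [tsum_eq_sum (s := Finset.range k)]
  intro j hj
  rw [Finset.mem_range, not_lt] at hj
  rw [if_neg]
  intro hdvd
  have h3 : p (j + 1) ∣ n := by exact_mod_cast hdvd
  have h4 : p (k + 1) ∣ p (j + 1) := p_dvd_of_le N p hp (by omega)
  have h5 := Nat.le_of_dvd (by omega) (h4.trans h3)
  omega

include hp in
lemma Vt_per (k : ℕ) (n : ℤ) : Vt p ek k (n + p k) = Vt p ek k n := by
  unfold Vt
  apply Finset.sum_congr rfl
  intro j hj
  rw [Finset.mem_range] at hj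
  have h1 : ((p (j + 1) : ℕ) : ℤ) ∣ (p k : ℕ) := by
    exact_mod_cast p_dvd_of_le N p hp (by omega : j + 1 ≤ k)
  have h2 : (((p (j + 1) : ℕ) : ℤ) ∣ n + p k) ↔ (((p (j + 1) : ℕ) : ℤ) ∣ n) :=
    dvd_add_left h1
  simp only [h2]

include hp hp0 hStep hst0 in
/-- the matrices of the recursion are monodromy matrices -/
lemma monodromy (E : ℝ) (k : ℕ) : tm E (fun n => Vt p ek k n) (p k) = (st k).1 E := by
  induction k with
  | zero =>
    rw [hp0, hst0]
    simp [tm, Vt, st0]
  | succ k ih =>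
    have hpp := p_pos st N p hStep hp0 hp (k + 1)
    obtain ⟨q, hq⟩ := Nat.exists_eq_succ_of_ne_zero hpp.ne'
    have h1 : tm E (fun n => Vt p ek (k + 1) n) (p (k + 1)) =
        Pm (ek k) * tm E (fun n => Vt p ek k n) (p (k + 1)) := by
      rw [hq, Nat.succ_eq_add_one, tm, tm, ← Matrix.mul_assoc, ← tA_add]
      congr 1
      · congr 1
        have : ((q + 1 : ℕ) : ℤ) = (p (k + 1) : ℕ) := by rw [hq]
        rw [this]
        unfold Vt
        rw [Finset.sum_range_succ, if_pos dvd_rfl]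
      · apply tm_congr
        intro i hi1 hi2
        unfold Vt
        rw [Finset.sum_range_succ, if_neg, add_zero]
        intro hdvd
        have h3 : p (k + 1) ∣ i := by exact_mod_cast hdvd
        have := Nat.le_of_dvd (by omega) h3
        omega
    have h2 : tm E (fun n => Vt p ek k n) (p (k + 1)) = (st k).1 E ^ N k := by
      have h3 := tm_per E (fun n : ℕ => Vt p ek k (n : ℤ)) (p k) (fun i => by
        have := Vt_per N p hp k (i : ℤ)
        push_cast
        exact this) (N k) 0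
      rw [add_zero, ← hp] at h3
      rw [h3, ih]
      simp [tm]
    rw [h1, h2]
    have h4 := (hStep k).2.1
    rw [h4]

include hp hp0 hStep hst0 hInv in
/-- the bound for the transfer matrices -/
lemma bound_main (k : ℕ) (E : ℝ) (hE : E ∈ (st k).2) : ∃ θ α β γ : ℝ, 0 < γ ∧
    α ^ 2 + β * γ = -1 ∧ γ - β ≤ Kk k ∧ (st k).1 E = El θ α β γ ∧
    ∀ n < p k, ∀ x : Fin 2 → ℝ, ((tm E (fun n => Vf p n) n *ᵥ x) 0) ^ 2 +
      ((tm E (fun n => Vf p n) n *ᵥ x) 1) ^ 2 ≤ Kk k * qf α β γ (x 0) (x 1) := by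
  induction k with
  | zero =>
    obtain ⟨θ, α, β, γ, h1, h2, h3, h4⟩ := (hInv 0).2.2.2 E hE
    refine ⟨θ, α, β, γ, h1, h2, h3, h4, fun n hn x => ?_⟩
    have : n = 0 := by omega
    subst this
    simp only [tm, Matrix.one_mulVec]
    exact qf_lower h1 h2 h3 _ _
  | succ k ih =>
    have hS := (hStep k).2.2.1
    rw [hS] at hE
    obtain ⟨θ, α, β, γ, h1, h2, h3, h4, hb⟩ := ih hE.1
    have h5 : ang (st k).1 E = Real.arccos (Real.cos θ) := by
      unfold ang
      rw [h4, El_trace]
      congr 1; ring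
    have h6 := hE.2
    rw [h5, abs_sin_mul_arccos_cos] at h6
    obtain ⟨θ', α', β', γ', g1, g2, g3, g4, g5⟩ := ell_step (θ := N k * θ) h1 h2 h3 (Kk_le k)
      (ηk_pos k) (ek_pos k) (ek_eq k) (ηk_le k) h6
    refine ⟨θ', α', β', γ', g1, g2, g3.trans (Kk_step k), ?_, fun n hn x => ?_⟩
    · rw [(hStep k).2.1]
      change Pm (ek k) * (st k).1 E ^ N k = _
      rw [h4, El_pow _ _ _ _ h2, g4]
    · have hpk := p_pos st N p hStep hp0 hp k
      set r := n % p k with hr
      set j := n / p k with hj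
      have hn2 : n = j * p k + r := by
        rw [hr, hj, mul_comm]; exact (Nat.div_add_mod n (p k)).symm
      have hr2 : r < p k := Nat.mod_lt n hpk
      have e1 : tm E (fun n => Vf p n) n = tm E (fun n => Vt p ek k n) n := by
        apply tm_congr
        intro i hi1 hi2
        exact Vf_eq_Vt st N p hStep hp0 hp k i hi1 (by omega)
      have e2 : tm E (fun n => Vf p n) r = tm E (fun n => Vt p ek k n) r := by
        apply tm_congr
        intro i hi1 hi2
        have : p k ≤ p (k + 1) := Nat.le_of_dvd (p_pos st N p hStep hp0 hp (k + 1))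
          (p_dvd N p hp k)
        exact Vf_eq_Vt st N p hStep hp0 hp k i hi1 (by omega)
      have e3 : tm E (fun n => Vf p n) n = tm E (fun n => Vf p n) r * El (j * θ) α β γ := by
        rw [e1, e2]
        conv_lhs => rw [hn2]
        rw [tm_per E (fun n : ℕ => Vt p ek k (n : ℤ)) (p k) (fun i => by
          have := Vt_per N p hp k (i : ℤ)
          push_cast
          exact this) j r, monodromy st N p hst0 hStep hp0 hp E k, h4, El_pow _ _ _ _ h2]
      rw [e3, ← Matrix.mulVec_mulVec]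
      have e4 := hb r hr2 (El (j * θ) α β γ *ᵥ x)
      rw [qf_inv _ _ _ _ h2] at e4
      refine e4.trans ?_
      have e5 := g5 (x 0) (x 1)
      have e6 := Kk_step2 k
      have e7 : 0 ≤ qf α β γ (x 0) (x 1) := by
        have := qf_lower h1 h2 (h3.trans (Kk_le k)) (x 0) (x 1)
        nlinarith [sq_nonneg (x 0), sq_nonneg (x 1)]
      have e8 : 0 ≤ Kk (k + 1) := by linarith [Kk_ge (k + 1)]
      calc Kk k * qf α β γ (x 0) (x 1) ≤ ((1 - 3 * ηk k) * Kk (k + 1)) * qf α β γ (x 0) (x 1) :=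
            mul_le_mul_of_nonneg_right e6 e7
        _ = Kk (k + 1) * ((1 - 3 * ηk k) * qf α β γ (x 0) (x 1)) := by ring
        _ ≤ _ := mul_le_mul_of_nonneg_left e5 e8

include hp hp0 hStep hst0 hInv in
lemma dir_bound (E : ℝ) (hE : ∀ k, E ∈ (st k).2) (n : ℕ) :
    |dir E (fun n => Vf p n) n| ≤ 4 := by
  have h1 : n < p (n + 1) := by
    have h2 := p_big st N p hStep hp0 hp n
    have h3 : n < Nmin n := by
      unfold Nmin
      calc n < 2 ^ n := Nat.lt_two_pow_self
        _ ≤ 2 ^ (3 * n + 43) := Nat.pow_le_pow_right (by norm_num) (by omega)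
    omega
  obtain ⟨θ, α, β, γ, g1, g2, g3, g4, g5⟩ := bound_main st N p hst0 hInv hStep hp0 hp (n + 1) E
    (hE (n + 1))
  have h2 := g5 n h1 ![1, 0]
  have h3 : qf α β γ ((![1, 0] : Fin 2 → ℝ) 0) ((![1, 0] : Fin 2 → ℝ) 1) = γ := by
    unfold qf; simp
  rw [h3] at h2
  have hβ : β < 0 := by
    by_contra hcon
    have : 0 ≤ β * γ := mul_nonneg (not_lt.1 hcon) g1.le
    nlinarith [sq_nonneg α]
  have h4 : γ ≤ 4 := by linarith [Kk_le (n + 1)]
  have h5 : Kk (n + 1) * γ ≤ 4 * 4 := by
    apply mul_le_mul (Kk_le _) h4 g1.le (by norm_num)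
  have h6 : dir E (fun n => Vf p n) n ^ 2 ≤ 16 := by
    unfold dir
    nlinarith [sq_nonneg ((tm E (fun n => Vf p n) n *ᵥ ![1, 0]) 0)]
  apply abs_le_of_sq_le_sq _ (by norm_num)
  linarith

end main

/-- **Main construction.** -/
theorem main_pot : ∃ V : ℤ → ℝ,
    (∀ ε : ℝ, 0 < ε → ∃ p : ℤ, p ≠ 0 ∧ ∃ Q : ℤ → ℝ,
          Function.Periodic Q p ∧ ∀ n : ℤ, |V n - Q n| < ε) ∧
    (∃ φ : ℤ → ℂ, Summable (fun n : ℤ => ‖φ n‖ ^ 2) ∧
        ∃ μ : Measure ℝ, IsFiniteMeasure μ ∧
          (∀ k : ℕ, Integrable (fun x : ℝ => x ^ k) μ ∧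
            ((∫ x, x ^ k ∂μ : ℝ) : ℂ) =
              ∑' n : ℤ, (starRingEnd ℂ) (φ n) *
                (Nat.iterate (fun ψ : ℤ → ℂ => fun m : ℤ =>
                  ψ (m + 1) + ψ (m - 1) + (V m : ℂ) * ψ m) k φ) n) ∧
          ¬ μ ⟂ₘ volume) ∧
    ∃ (ψ : ℤ → ℝ) (E : ℝ), ψ 0 ≠ 0 ∧ Summable (fun n => ψ n ^ 2) ∧
      ∀ n, ψ (n + 1) + ψ (n - 1) + V n * ψ n = E * ψ n := by
  obtain ⟨st, N, hst0, hInv, hStep⟩ := seq_exists
  let p : ℕ → ℕ := fun k => Nat.rec (motive := fun _ => ℕ) 1 (fun k q => N k * q) k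
  have hp0 : p 0 = 1 := rfl
  have hp : ∀ k, p (k + 1) = N k * p k := fun k => rfl
  have hpos := p_pos st N p hStep hp0 hp
  have hbig := p_big st N p hStep hp0 hp
  refine ⟨Vf p, ?_, ?_, ?_⟩
  · intro ε hε
    have h1 : Tendsto (fun k => ∑' j, ek (j + k)) atTop (𝓝 0) := tendsto_sum_nat_add ek
    obtain ⟨k, hk⟩ := (h1.eventually (gt_mem_nhds hε)).exists
    refine ⟨(p k : ℕ), by exact_mod_cast (hpos k).ne', Vt p ek k, fun n => Vt_per N p hp k n,
      fun n => ?_⟩
    have h2 : Vf p n - Vt p ek k n = ∑' j, if ((p (j + k + 1) : ℕ) : ℤ) ∣ n then ek (j + k) else 0 := by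
      unfold Vf Vt
      rw [← (Vf_summable p n).sum_add_tsum_nat_add k]
      ring
    rw [h2]
    have h3 : Summable fun j => ek (j + k) := (summable_nat_add_iff k).2 ek_summable
    have h4 : Summable fun j => (if ((p (j + k + 1) : ℕ) : ℤ) ∣ n then ek (j + k) else 0) :=
      (summable_nat_add_iff k).2 (Vf_summable p n)
    have h5 : 0 ≤ ∑' j, (if ((p (j + k + 1) : ℕ) : ℤ) ∣ n then ek (j + k) else 0) := by
      apply tsum_nonneg
      intro j
      split_ifs
      · exact (ek_pos _).le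
      · exact le_rfl
    rw [abs_of_nonneg h5]
    refine lt_of_le_of_lt ?_ hk
    apply h4.tsum_le_tsum _ h3
    intro j
    split_ifs
    · exact le_rfl
    · exact (ek_pos _).le
  · set S : Set ℝ := ⋂ k, (st k).2 with hS
    have hSm : MeasurableSet S := MeasurableSet.iInter fun k => (hInv k).1
    have hSsub : S ⊆ Set.Icc (-1) 1 := fun E hE => (hInv 0).2.1 (Set.mem_iInter.1 hE 0)
    have hS1 : volume S ≠ ⊤ := ne_top_of_le_ne_top (by simp) (measure_mono (μ := volume) hSsub)
    have hS0 : volume S ≠ 0 := by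
      intro h0
      have h1 : (st 0).2 \ S ⊆ ⋃ k, ((st k).2 \ (st (k + 1)).2) := by
        rintro E ⟨hE0, hES⟩
        rw [hS, Set.mem_iInter] at hES
        by_contra hcon
        apply hES
        intro k
        induction k with
        | zero => exact hE0
        | succ k ih =>
          by_contra hk
          exact hcon (Set.mem_iUnion.2 ⟨k, ih, hk⟩)
      have h2 : volume ((st 0).2 \ S) ≤ ENNReal.ofReal 1 := by
        refine (measure_mono h1).trans ((measure_iUnion_le _).trans ?_)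
        have h3 : ∑' k, volume ((st k).2 \ (st (k + 1)).2) ≤
            ∑' k, ENNReal.ofReal ((1 / 2) ^ (k + 1)) :=
          ENNReal.tsum_le_tsum fun k => (hStep k).2.2.2
        refine h3.trans (le_of_eq ?_)
        rw [← ENNReal.ofReal_tsum_of_nonneg]
        · congr 1
          simp_rw [pow_succ]
          rw [tsum_mul_right, tsum_geometric_of_lt_one (by norm_num) (by norm_num)]
          norm_num
        · intro k; positivity
        · simp_rw [pow_succ]
          exact (summable_geometric_of_lt_one (by norm_num) (by norm_num)).mul_right _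
      have h4 : volume (st 0).2 ≤ volume ((st 0).2 \ S) + volume S := by
        refine (measure_mono (?_ : (st 0).2 ⊆ ((st 0).2 \ S) ∪ S)).trans (measure_union_le _ _)
        intro E hE
        by_cases hES : E ∈ S
        · exact Or.inr hES
        · exact Or.inl ⟨hE, hES⟩
      rw [h0, add_zero, hst0] at h4
      have h5 : volume st0.2 = ENNReal.ofReal 2 := by
        unfold st0
        rw [Real.volume_Icc]; norm_num
      rw [hst0] at h2
      rw [h5] at h4
      have h6 := h4.trans h2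
      rw [ENNReal.ofReal_le_ofReal_iff (by norm_num)] at h6
      norm_num at h6
    apply ac_part (Vf p) (∑' k, ek k) ?_ ?_ S hSm hS0 hS1 4 (by norm_num)
    · intro E hE
      refine ⟨dir E (fun n => Vf p n), dir_zero _ _, dir_one _ _, fun n => ?_, fun n => ?_⟩
      · have := dir_rec E (fun n : ℕ => Vf p (n : ℤ)) n
        rw [this]
        push_cast
        rfl
      · exact dir_bound st N p hst0 hInv hStep hp0 hp E (fun k => Set.mem_iInter.1 hE k) n
    · intro n
      have h5 : 0 ≤ Vf p n := by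
        apply tsum_nonneg
        intro j
        split_ifs
        · exact (ek_pos _).le
        · exact le_rfl
      rw [abs_of_nonneg h5]
      apply (Vf_summable p n).tsum_le_tsum _ ek_summable
      intro j
      split_ifs
      · exact le_rfl
      · exact (ek_pos _).le
    · intro n
      unfold Vf
      simp only [dvd_neg]
  · have htend : Tendsto p atTop atTop := by
      rw [← tendsto_add_atTop_iff_nat 1]
      apply tendsto_atTop_mono (f := fun k => k) (fun k => ?_) tendsto_id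
      refine le_trans ?_ (hbig k)
      unfold Nmin
      exact (Nat.lt_two_pow_self).le.trans (Nat.pow_le_pow_right (by norm_num) (by omega))
    obtain ⟨ψ, E, h1, h2, h3⟩ := eig_exists p ek hp0 (p_dvd N p hp) hpos ek_pos ek_summable htend
      (2 ^ 18) (by unfold ek; norm_num) (fun k => by
        have h1 : (Nmin k : ℝ) ≤ p (k + 1) := by exact_mod_cast hbig k
        have h2 : ek (k + 1) * Nmin k ≤ ek (k + 1) * p (k + 1) :=
          mul_le_mul_of_nonneg_left h1 (ek_pos _).le
        refine le_trans (le_of_eq ?_) h2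
        unfold ek Nmin
        push_cast
        have e : (2 : ℝ) ^ (3 * k + 43) = 2 ^ (2 * (k + 1) + 16) * (2 ^ (k + 7) * 2 ^ 18) := by
          rw [← pow_add, ← pow_add]; congr 1; ring
        rw [e, ← mul_assoc ((1 / 2 : ℝ) ^ (2 * (k + 1) + 16)), ← mul_pow]
        norm_num) (fun k => by
        refine le_trans ?_ (hbig k)
        unfold Nmin
        calc 4 = 2 ^ 2 := by norm_num
          _ ≤ _ := Nat.pow_le_pow_right (by norm_num) (by omega))
    exact ⟨ψ, E, h1, h2, h3⟩

end Pool.Agent.H792R3
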