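import Mathlib

set_option autoImplicit false

/-!
Gordon's three block lemma for the equation `ψ (n+1) + ψ (n-1) = v n * ψ n` on `ℤ`.
-/

namespace Pool.Agent.H792R3

open Matrix

/-- one step transfer matrix -/
def stepA (z : ℂ) : Matrix (Fin 2) (Fin 2) ℂ := !![z, -1; 1, 0]

/-- transfer matrix over the sites `m+1, ..., m+j` -/
def trM (v : ℤ → ℂ) (m : ℤ) : ℕ → Matrix (Fin 2) (Fin 2) ℂ
  | 0 => 1
  | j + 1 => stepA (v (m + j + 1)) * trM v m j

lemma det_trM (v : ℤ → ℂ) (m : ℤ) (j : ℕ) : (trM v m j).det = 1 := by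
  induction j with
  | zero => simp [trM]
  | succ j ih => rw [trM, Matrix.det_mul, ih, stepA, Matrix.det_fin_two_of]; ring

lemma trM_congr (v : ℤ → ℂ) (m m' : ℤ) (j : ℕ)
    (h : ∀ i : ℕ, i < j → v (m + i + 1) = v (m' + i + 1)) : trM v m j = trM v m' j := by
  induction j with
  | zero => rfl
  | succ j ih =>
    rw [trM, trM, ih (fun i hi => h i (by omega)), h j (by omega)]

lemma trM_apply (v ψ : ℤ → ℂ) (hψ : ∀ n, ψ (n + 1) + ψ (n - 1) = v n * ψ n) (m : ℤ) (j : ℕ) :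
    trM v m j *ᵥ ![ψ (m + 1), ψ m] = ![ψ (m + j + 1), ψ (m + j)] := by
  induction j with
  | zero => simp [trM]
  | succ j ih =>
    rw [trM, ← Matrix.mulVec_mulVec, ih, stepA]
    have h := hψ (m + j + 1)
    rw [show m + (j : ℤ) + 1 - 1 = m + j by ring] at h
    ext i
    fin_cases i
    · simp [Matrix.mulVec, dotProduct, Fin.sum_univ_two]
      rw [show m + ((j : ℤ) + 1) + 1 = m + j + 1 + 1 by ring]
      linear_combination -h
    · simp [Matrix.mulVec, dotProduct, Fin.sum_univ_two]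
      rw [show m + ((j : ℤ) + 1) = m + j + 1 by ring]

lemma cayley (M : Matrix (Fin 2) (Fin 2) ℂ) (h : M.det = 1) (x : Fin 2 → ℂ) :
    M *ᵥ (M *ᵥ x) = M.trace • (M *ᵥ x) - x := by
  rw [Matrix.det_fin_two] at h
  ext i
  fin_cases i
  · simp [Matrix.mulVec, dotProduct, Fin.sum_univ_two, Matrix.trace_fin_two]
    linear_combination -(x 0) * h
  · simp [Matrix.mulVec, dotProduct, Fin.sum_univ_two, Matrix.trace_fin_two]
    linear_combination -(x 1) * h

/-- Three block relation. -/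
lemma three_block (v ψ : ℤ → ℂ) (hψ : ∀ n, ψ (n + 1) + ψ (n - 1) = v n * ψ n) (q : ℕ)
    (hper : ∀ n : ℤ, 1 - (q : ℤ) ≤ n → n ≤ q → v (n + q) = v n) :
    ∃ t : ℂ, (ψ (2 * q) = t * ψ q - ψ 0 ∧ ψ q = t * ψ 0 - ψ (-q)) ∧
      (ψ (2 * q + 1) = t * ψ (q + 1) - ψ 1 ∧ ψ (q + 1) = t * ψ 1 - ψ (-q + 1)) := by
  set M := trM v 0 q with hM
  have h1 : trM v (-q) q = M := by
    apply trM_congr
    intro i hi
    have := hper (-q + i + 1) (by omega) (by omega)
    rw [← this]
    congr 1; ring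
  have h2 : trM v q q = M := by
    apply trM_congr
    intro i hi
    have := hper (0 + i + 1) (by omega) (by omega)
    rw [← this]
    congr 1; ring
  have e0 := trM_apply v ψ hψ (-q) q
  have e1 := trM_apply v ψ hψ 0 q
  have e2 := trM_apply v ψ hψ q q
  rw [h1] at e0
  rw [h2] at e2
  rw [← hM] at e1
  have c1 := cayley M (det_trM v 0 q) ![ψ (-q + 1), ψ (-q)]
  have c2 := cayley M (det_trM v 0 q) ![ψ (0 + 1), ψ 0]
  rw [e0] at c1
  rw [show -(q : ℤ) + q = 0 by ring] at c1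
  rw [e1] at c1 c2
  rw [show (0 : ℤ) + q = q by ring] at c1 c2
  rw [e2] at c2
  refine ⟨M.trace, ⟨?_, ?_⟩, ?_, ?_⟩
  · have := congrFun c2 1
    simp at this
    rw [show (2 : ℤ) * q = q + q by ring]
    exact this
  · have := congrFun c1 1
    simpa using this
  · have := congrFun c2 0
    simp at this
    rw [show (2 : ℤ) * q = q + q by ring]
    exact this
  · have := congrFun c1 0
    simpa using this

lemma alt_bound {t a b c d : ℂ} (h1 : a = t * b - c) (h2 : b = t * c - d) :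
    ‖c‖ ≤ ‖a‖ + ‖b‖ + ‖d‖ := by
  by_cases ht : ‖t‖ ≤ 1
  · have : c = t * b - a := by rw [h1]; ring
    calc ‖c‖ = ‖t * b - a‖ := by rw [← this]
      _ ≤ ‖t * b‖ + ‖a‖ := norm_sub_le _ _
      _ ≤ 1 * ‖b‖ + ‖a‖ := by rw [norm_mul]; gcongr
      _ ≤ _ := by have := norm_nonneg d; linarith
  · have ht' : 1 ≤ ‖t‖ := by linarith [not_le.1 ht]
    have : t * c = b + d := by rw [h2]; ring
    calc ‖c‖ = 1 * ‖c‖ := by ring
      _ ≤ ‖t‖ * ‖c‖ := by gcongr
      _ = ‖b + d‖ := by rw [← norm_mul, this]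
      _ ≤ ‖b‖ + ‖d‖ := norm_add_le _ _
      _ ≤ _ := by have := norm_nonneg a; linarith

/-- a solution vanishing at two neighbouring sites is zero -/
lemma sol_zero (v ψ : ℤ → ℂ) (hψ : ∀ n, ψ (n + 1) + ψ (n - 1) = v n * ψ n)
    (h0 : ψ 0 = 0) (h1 : ψ 1 = 0) : ψ = 0 := by
  have hp : ∀ n : ℕ, ψ n = 0 ∧ ψ (n + 1) = 0 := by
    intro n
    induction n with
    | zero => exact ⟨by simpa using h0, by simpa using h1⟩
    | succ n ih =>
      refine ⟨by push_cast; exact ih.2, ?_⟩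
      have := hψ (n + 1)
      rw [show (n : ℤ) + 1 - 1 = n by ring, ih.1, ih.2] at this
      push_cast
      simpa using this
  have hm : ∀ n : ℕ, ψ (-n) = 0 ∧ ψ (-n + 1) = 0 := by
    intro n
    induction n with
    | zero => exact ⟨by simpa using h0, by simpa using h1⟩
    | succ n ih =>
      have := hψ (-n)
      rw [ih.1, ih.2] at this
      refine ⟨?_, ?_⟩
      · push_cast
        rw [show -((n : ℤ) + 1) = -n - 1 by ring]
        simpa using this
      · push_cast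
        rw [show -((n : ℤ) + 1) + 1 = -n by ring]
        exact ih.1
  funext n
  rcases Int.eq_nat_or_neg n with ⟨k, rfl | rfl⟩
  · exact (hp k).1
  · exact (hm k).1

/-- Gordon's lemma: no nonzero solution tends to `0` at infinity. -/
theorem gordon (v ψ : ℤ → ℂ) (hψ : ∀ n, ψ (n + 1) + ψ (n - 1) = v n * ψ n)
    (hlim : Filter.Tendsto ψ Filter.cofinite (nhds 0))
    (hper : ∀ N : ℕ, ∃ q : ℕ, N ≤ q ∧ ∀ n : ℤ, 1 - (q : ℤ) ≤ n → n ≤ q → v (n + q) = v n) :
    ψ = 0 := by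
  have key : ∀ ε : ℝ, 0 < ε → ‖ψ 0‖ ≤ ε ∧ ‖ψ 1‖ ≤ ε := by
    intro ε hε
    have h1 : ∀ᶠ n in Filter.cofinite, ‖ψ n‖ < ε / 3 := by
      have := hlim.norm
      rw [norm_zero] at this
      exact this.eventually (gt_mem_nhds (by positivity))
    rw [Filter.eventually_cofinite] at h1
    obtain ⟨B, hB⟩ : ∃ B : ℕ, ∀ n : ℤ, (B : ℤ) ≤ |n| → ‖ψ n‖ < ε / 3 := by
      have hf := h1.image (fun n : ℤ => n.natAbs)
      obtain ⟨B, hB⟩ := hf.bddAbove
      refine ⟨B + 1, fun n hn => ?_⟩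
      by_contra hc
      have h3 : n.natAbs ≤ B := hB ⟨n, hc, rfl⟩
      have h4 := Int.abs_eq_natAbs n
      omega
    obtain ⟨q, hq, hp⟩ := hper (B + 1)
    obtain ⟨t, ⟨a1, a2⟩, b1, b2⟩ := three_block v ψ hψ q hp
    have A := alt_bound a1 a2
    have C := alt_bound b1 b2
    have k1 := hB (2 * q) (by rw [abs_of_nonneg (by positivity)]; omega)
    have k2 := hB q (by rw [abs_of_nonneg (by positivity)]; omega)
    have k3 := hB (-q) (by rw [abs_neg, abs_of_nonneg (by positivity)]; omega)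
    have k4 := hB (2 * q + 1) (by rw [abs_of_nonneg (by positivity)]; omega)
    have k5 := hB (q + 1) (by rw [abs_of_nonneg (by positivity)]; omega)
    have k6 := hB (-q + 1) (by
      rw [abs_of_nonpos (by omega)]; omega)
    constructor <;> linarith
  have z0 : ψ 0 = 0 := by
    rw [← norm_le_zero_iff]
    exact le_of_forall_pos_le_add fun ε hε => by rw [zero_add]; exact (key ε hε).1
  have z1 : ψ 1 = 0 := by
    rw [← norm_le_zero_iff]
    exact le_of_forall_pos_le_add fun ε hε => by rw [zero_add]; exact (key ε hε).2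
  exact sol_zero v ψ hψ z0 z1

end Pool.Agent.H792R3
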