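import Pool.Agent.Helper344.Ent.P_Th_zero
import Pool.Agent.Helper344.Ent.P_Th_simple
import Pool.Agent.Helper344.Ent.P_liou
import Pool.Agent.Helper344.Ent.P_div1

set_option autoImplicit false

/-!
The sigma function of the square lattice and its uniqueness property.
-/

namespace Pool.Agent.H792R3.Lame

open Complex Filter Topology Pool.Agent.Helper344.Ent
open scoped Real

/-- the sigma function of the lattice `ℤ + ℤ i`, up to a constant factor -/
noncomputable def sg (z : ℂ) : ℂ := cexp (π * z ^ 2 / 2) * (Complex.sin (π * z) * Kp z)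

lemma sg_eq (z : ℂ) : sg z = I / 2 * cexp (π * z ^ 2 / 2 - π * I * z) * Th z := by
  have h1 : cexp (π * z ^ 2 / 2 - π * I * z) = cexp (π * z ^ 2 / 2) * cexp (-(π * z) * I) := by
    rw [← Complex.exp_add]; congr 1; ring
  have h2 : cexp (2 * π * I * z) = cexp (π * z * I) * cexp (π * z * I) := by
    rw [← Complex.exp_add]; congr 1; ring
  have h3 : cexp (-(π * z) * I) * cexp (π * z * I) = 1 := by
    rw [← Complex.exp_add, show (-(π * z) * I + π * z * I : ℂ) = 0 by ring, Complex.exp_zero]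
  unfold sg Th Complex.sin
  rw [h1, h2]
  linear_combination ((I / 2) * cexp (π * z ^ 2 / 2) * Kp z * cexp (π * z * I)) * h3

lemma sg_diff : Differentiable ℂ sg := by
  have h : Differentiable ℂ Kp := Kp_diff.1
  unfold sg
  fun_prop

/-- the multiplier for the period one -/
noncomputable def m1 (z : ℂ) : ℂ := -cexp (π * z + π / 2)
/-- the multiplier for the period `i` -/
noncomputable def mI (z : ℂ) : ℂ := -cexp (π / 2 - π * I * z)

lemma m1_ne (z : ℂ) : m1 z ≠ 0 := neg_ne_zero.2 (Complex.exp_ne_zero _)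
lemma mI_ne (z : ℂ) : mI z ≠ 0 := neg_ne_zero.2 (Complex.exp_ne_zero _)

lemma m1_hd (z : ℂ) : HasDerivAt m1 (π * m1 z) z := by
  have h : HasDerivAt (fun w : ℂ => (π : ℂ) * w + π / 2) π z := by
    simpa using ((hasDerivAt_id z).const_mul (π : ℂ)).add_const ((π : ℂ) / 2)
  have h2 := h.cexp.neg
  have e : (π : ℂ) * m1 z = -(cexp (π * z + π / 2) * π) := by unfold m1; ring
  rw [e]
  exact h2

lemma mI_hd (z : ℂ) : HasDerivAt mI (-(π * I) * mI z) z := by
  have h : HasDerivAt (fun w : ℂ => (π : ℂ) / 2 - π * I * w) (-(π * I)) z := by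
    simpa using ((hasDerivAt_id z).const_mul ((π : ℂ) * I)).const_sub ((π : ℂ) / 2)
  have h2 := h.cexp.neg
  have e : (-(π * I) : ℂ) * mI z = -(cexp (π / 2 - π * I * z) * (-(π * I))) := by unfold mI; ring
  rw [e]
  exact h2

lemma m1_add (z a : ℂ) : m1 (z + a) = cexp (π * a) * m1 z := by
  unfold m1
  rw [show (π * (z + a) + π / 2 : ℂ) = π * a + (π * z + π / 2) by ring, Complex.exp_add]
  ring

lemma mI_add (z a : ℂ) : mI (z + a) = cexp (-(π * I * a)) * mI z := by
  unfold mI
  rw [show (π / 2 - π * I * (z + a) : ℂ) = -(π * I * a) + (π / 2 - π * I * z) by ring,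
    Complex.exp_add]
  ring

lemma sg_one (z : ℂ) : sg (z + 1) = m1 z * sg z := by
  rw [sg_eq, sg_eq, (Th_mult z).1]
  unfold m1
  have h : cexp (π * (z + 1) ^ 2 / 2 - π * I * (z + 1)) =
      -cexp (π * z + π / 2) * cexp (π * z ^ 2 / 2 - π * I * z) := by
    rw [show (π * (z + 1) ^ 2 / 2 - π * I * (z + 1) : ℂ) =
      (π * z + π / 2) + (π * z ^ 2 / 2 - π * I * z) + (-(π * I)) by ring, Complex.exp_add,
      Complex.exp_add, Complex.exp_neg, Complex.exp_pi_mul_I]
    norm_num
  rw [h]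
  ring

lemma sg_I (z : ℂ) : sg (z + I) = mI z * sg z := by
  rw [sg_eq, sg_eq, (Th_mult z).2]
  unfold mI
  have h : cexp (π * (z + I) ^ 2 / 2 - π * I * (z + I)) * cexp (-2 * π * I * z) =
      cexp (π / 2 - π * I * z) * cexp (π * z ^ 2 / 2 - π * I * z) := by
    rw [← Complex.exp_add, ← Complex.exp_add]
    congr 1
    linear_combination (-(π : ℂ) / 2) * Complex.I_mul_I
  linear_combination (-(I / 2) * Th z) * h

lemma sg_zero : sg 0 = 0 := by simp [sg]

lemma sg_zero_lat (z : ℂ) (h : sg z = 0) : ∃ m n : ℤ, z = m + n * I := by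
  rw [sg_eq] at h
  refine Th_zero z ?_
  rcases mul_eq_zero.1 h with h | h
  · rcases mul_eq_zero.1 h with h | h
    · exfalso
      exact (div_ne_zero Complex.I_ne_zero two_ne_zero) h
    · exact absurd h (Complex.exp_ne_zero _)
  · exact h

lemma sg_lat (m n : ℤ) : sg (m + n * I) = 0 := by
  rw [sg_eq, (Th_simple m n).1, mul_zero]

lemma dsg_ne (z : ℂ) (h : sg z = 0) : deriv sg z ≠ 0 := by
  obtain ⟨m, n, hz⟩ := sg_zero_lat z h
  have h1 : HasDerivAt (fun w : ℂ => I / 2 * cexp (π * w ^ 2 / 2 - π * I * w))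
      (deriv (fun w : ℂ => I / 2 * cexp (π * w ^ 2 / 2 - π * I * w)) z) z := by
    apply DifferentiableAt.hasDerivAt
    fun_prop
  have hTd : Differentiable ℂ Th := by
    have h : Differentiable ℂ Kp := Kp_diff.1
    unfold Th
    fun_prop
  have h2 := h1.mul (hTd z).hasDerivAt
  have h3 : HasDerivAt sg (deriv (fun w : ℂ => I / 2 * cexp (π * w ^ 2 / 2 - π * I * w)) z * Th z +
      I / 2 * cexp (π * z ^ 2 / 2 - π * I * z) * deriv Th z) z := by
    have e : sg = (fun w : ℂ => I / 2 * cexp (π * w ^ 2 / 2 - π * I * w)) * Th := by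
      funext w; exact sg_eq w
    rw [e]
    exact h2
  have hT0 : Th z = 0 := by rw [hz]; exact (Th_simple m n).1
  have hT1 : deriv Th z ≠ 0 := by rw [hz]; exact (Th_simple m n).2
  rw [h3.deriv, hT0, mul_zero, zero_add]
  exact mul_ne_zero (mul_ne_zero (div_ne_zero Complex.I_ne_zero two_ne_zero)
    (Complex.exp_ne_zero _)) hT1

/-- first derivative -/
noncomputable def s1 : ℂ → ℂ := deriv sg
/-- second derivative -/
noncomputable def s2 : ℂ → ℂ := deriv s1
/-- third derivative -/
noncomputable def s3 : ℂ → ℂ := deriv s2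

lemma ddiff {f : ℂ → ℂ} (hf : Differentiable ℂ f) : Differentiable ℂ (deriv f) := by
  intro z
  exact ((hf.analyticAt z).deriv).differentiableAt

lemma s1_diff : Differentiable ℂ s1 := ddiff sg_diff
lemma s2_diff : Differentiable ℂ s2 := ddiff s1_diff
lemma s3_diff : Differentiable ℂ s3 := ddiff s2_diff
lemma hd0 (z : ℂ) : HasDerivAt sg (s1 z) z := (sg_diff z).hasDerivAt
lemma hd1 (z : ℂ) : HasDerivAt s1 (s2 z) z := (s1_diff z).hasDerivAt
lemma hd2 (z : ℂ) : HasDerivAt s2 (s3 z) z := (s2_diff z).hasDerivAt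

lemma s1_zero_ne : s1 0 ≠ 0 := dsg_ne 0 sg_zero

/-- quasi-periodicity of the derivative -/
lemma qp_deriv {f f' m : ℂ → ℂ} {al om : ℂ} (hf : ∀ z, HasDerivAt f (f' z) z)
    (hm : ∀ z, HasDerivAt m (al * m z) z) (h : ∀ z, f (z + om) = m z * f z) (z : ℂ) :
    f' (z + om) = m z * (al * f z + f' z) := by
  have h1 : HasDerivAt (fun w => f (w + om)) (f' (z + om)) z := (hf (z + om)).comp_add_const z om
  have h2 : HasDerivAt (fun w => m w * f w) (al * m z * f z + m z * f' z) z := (hm z).mul (hf z)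
  have h3 : (fun w => f (w + om)) = fun w => m w * f w := funext h
  rw [h3] at h1
  rw [h1.unique h2]
  ring

lemma qp_deriv2 {f f' f'' m : ℂ → ℂ} {al om : ℂ} (hf : ∀ z, HasDerivAt f (f' z) z)
    (hf' : ∀ z, HasDerivAt f' (f'' z) z)
    (hm : ∀ z, HasDerivAt m (al * m z) z) (h : ∀ z, f (z + om) = m z * f z) (z : ℂ) :
    f'' (z + om) = m z * (al ^ 2 * f z + 2 * al * f' z + f'' z) := by
  have h0 := qp_deriv hf hm h
  have h1 : HasDerivAt (fun w => f' (w + om)) (f'' (z + om)) z :=
    (hf' (z + om)).comp_add_const z om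
  have h2 : HasDerivAt (fun w => m w * (al * f w + f' w))
      (al * m z * (al * f z + f' z) + m z * (al * f' z + f'' z)) z :=
    (hm z).mul (((hf z).const_mul al).add (hf' z))
  have h3 : (fun w => f' (w + om)) = fun w => m w * (al * f w + f' w) := funext h0
  rw [h3] at h1
  rw [h1.unique h2]
  ring

lemma lat_ind (Q : ℂ → Prop) (h1 : ∀ z, Q (z + 1) ↔ Q z) (hI : ∀ z, Q (z + I) ↔ Q z)
    (h0 : Q 0) (m n : ℤ) : Q (m + n * I) := by
  have hA : ∀ m : ℤ, Q m := by
    intro m
    induction m with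
    | zero => simpa using h0
    | succ i ih =>
      have := (h1 (i : ℂ)).2 (by simpa using ih)
      simpa using this
    | pred i ih =>
      have e : ((-(i : ℤ) - 1 : ℤ) : ℂ) + 1 = ((-(i : ℤ) : ℤ) : ℂ) := by push_cast; ring
      rw [← e] at ih
      exact (h1 _).1 ih
  induction n with
  | zero => simpa using hA m
  | succ i ih =>
    have e : ((m : ℂ) + ((i : ℤ) + 1 : ℤ) * I) = (m + ((i : ℤ) : ℂ) * I) + I := by push_cast; ring
    rw [e]
    exact (hI _).2 ih
  | pred i ih =>
    have e : ((m : ℂ) + ((-(i : ℤ) : ℤ) : ℂ) * I) = (m + ((-(i : ℤ) - 1 : ℤ) : ℂ) * I) + I := by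
      push_cast; ring
    rw [e] at ih
    exact (hI _).1 ih

/-- an entire function that vanishes off the lattice vanishes -/
lemma of_sg {f : ℂ → ℂ} (hf : Continuous f) (h : ∀ z, sg z ≠ 0 → f z = 0) (z : ℂ) : f z = 0 := by
  by_cases hz : sg z = 0
  · have h1 : ∀ᶠ w in 𝓝[≠] z, sg w ≠ 0 :=
      (hd0 z).eventually_ne (dsg_ne z hz)
    have h2 : Tendsto f (𝓝[≠] z) (𝓝 (f z)) := hf.continuousAt.tendsto.mono_left nhdsWithin_le_nhds
    have h3 : Tendsto f (𝓝[≠] z) (𝓝 0) := by
      refine (tendsto_const_nhds (x := (0:ℂ))).congr' ?_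
      filter_upwards [h1] with w hw
      exact (h w hw).symm
    exact tendsto_nhds_unique h2 h3
  · exact h z hz

/-- double division by the sigma function -/
lemma div_sq {L L' : ℂ → ℂ} (hL : ∀ z, HasDerivAt L (L' z) z)
    (h : ∀ z, sg z = 0 → L z = 0 ∧ L' z = 0) :
    ∃ D : ℂ → ℂ, Differentiable ℂ D ∧ ∀ z, L z = sg z ^ 2 * D z := by
  have hLd : Differentiable ℂ L := fun z => (hL z).differentiableAt
  obtain ⟨D1, hD1, hD2⟩ := div1 hLd sg_diff (fun z hz => ⟨(h z hz).1, dsg_ne z hz⟩)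
  have h3 : ∀ z, sg z = 0 → D1 z = 0 ∧ deriv sg z ≠ 0 := by
    intro z hz
    refine ⟨?_, dsg_ne z hz⟩
    have h4 : HasDerivAt L (s1 z * D1 z + sg z * deriv D1 z) z := by
      have h5 := (hd0 z).mul (hD1 z).hasDerivAt
      have e : L = sg * D1 := by funext w; exact hD2 w
      rw [e]
      exact h5
    have h6 := (hL z).unique h4
    rw [(h z hz).2, hz, zero_mul, add_zero] at h6
    rcases mul_eq_zero.1 h6.symm with h7 | h7
    · exact absurd h7 (dsg_ne z hz)
    · exact h7
  obtain ⟨D, hDa, hDb⟩ := div1 hD1 sg_diff h3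
  exact ⟨D, hDa, fun z => by rw [hD2, hDb]; ring⟩

/-- an entire function with vanishing double quasi-periods -/
lemma div_qp {L L' : ℂ → ℂ} (hL : ∀ z, HasDerivAt L (L' z) z) (c1 cI : ℂ) (hc1 : c1 ≠ 0)
    (hcI : cI ≠ 0)
    (h1 : ∀ z, L (z + 1) = c1 * m1 z ^ 2 * L z) (hI : ∀ z, L (z + I) = cI * mI z ^ 2 * L z)
    (h0 : L 0 = 0) (h0' : L' 0 = 0) :
    ∃ D : ℂ → ℂ, Differentiable ℂ D ∧ (∀ z, L z = sg z ^ 2 * D z) ∧
      (∀ z, D (z + 1) = c1 * D z) ∧ ∀ z, D (z + I) = cI * D z := by
  have hm1 : ∀ z, HasDerivAt (fun z => c1 * m1 z ^ 2) (2 * π * (c1 * m1 z ^ 2)) z := by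
    intro z
    have := ((m1_hd z).pow 2).const_mul c1
    refine this.congr_deriv ?_
    simp only [Nat.cast_ofNat, Nat.add_one_sub_one, pow_one]
    ring
  have hmI : ∀ z, HasDerivAt (fun z => cI * mI z ^ 2) (-2 * π * I * (cI * mI z ^ 2)) z := by
    intro z
    have := ((mI_hd z).pow 2).const_mul cI
    refine this.congr_deriv ?_
    simp only [Nat.cast_ofNat, Nat.add_one_sub_one, pow_one]
    ring
  have hd1 := qp_deriv hL hm1 h1
  have hdI := qp_deriv hL hmI hI
  have hQ : ∀ m n : ℤ, (fun z => L z = 0 ∧ L' z = 0) ((m : ℂ) + n * I) := by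
    apply lat_ind (fun z => L z = 0 ∧ L' z = 0)
    · intro z
      have hne : c1 * m1 z ^ 2 ≠ 0 := mul_ne_zero hc1 (pow_ne_zero _ (m1_ne z))
      constructor
      · rintro ⟨ha, hb⟩
        rw [h1] at ha
        rw [hd1] at hb
        have hz : L z = 0 := (mul_eq_zero.1 ha).resolve_left hne
        refine ⟨hz, ?_⟩
        rw [hz, mul_zero, zero_add] at hb
        exact (mul_eq_zero.1 hb).resolve_left hne
      · rintro ⟨ha, hb⟩
        refine ⟨by rw [h1, ha, mul_zero], by rw [hd1, ha, hb]; ring⟩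
    · intro z
      have hne : cI * mI z ^ 2 ≠ 0 := mul_ne_zero hcI (pow_ne_zero _ (mI_ne z))
      constructor
      · rintro ⟨ha, hb⟩
        rw [hI] at ha
        rw [hdI] at hb
        have hz : L z = 0 := (mul_eq_zero.1 ha).resolve_left hne
        refine ⟨hz, ?_⟩
        rw [hz, mul_zero, zero_add] at hb
        exact (mul_eq_zero.1 hb).resolve_left hne
      · rintro ⟨ha, hb⟩
        refine ⟨by rw [hI, ha, mul_zero], by rw [hdI, ha, hb]; ring⟩
    · exact ⟨h0, h0'⟩
  obtain ⟨D, hD, hLD⟩ := div_sq hL (fun z hz => by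
    obtain ⟨m, n, hmn⟩ := sg_zero_lat z hz
    rw [hmn]
    exact hQ m n)
  refine ⟨D, hD, hLD, ?_, ?_⟩
  · intro z
    have := of_sg (f := fun z => D (z + 1) - c1 * D z)
      ((hD.continuous.comp (continuous_id.add continuous_const)).sub
        (continuous_const.mul hD.continuous)) (fun z hz => by
        have h := h1 z
        rw [hLD, hLD, sg_one] at h
        have hne : m1 z ^ 2 * sg z ^ 2 ≠ 0 := mul_ne_zero (pow_ne_zero _ (m1_ne z)) (pow_ne_zero _ hz)
        have h2 : m1 z ^ 2 * sg z ^ 2 * (D (z + 1) - c1 * D z) = 0 := by linear_combination h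
        exact (mul_eq_zero.1 h2).resolve_left hne) z
    exact sub_eq_zero.1 this
  · intro z
    have := of_sg (f := fun z => D (z + I) - cI * D z)
      ((hD.continuous.comp (continuous_id.add continuous_const)).sub
        (continuous_const.mul hD.continuous)) (fun z hz => by
        have h := hI z
        rw [hLD, hLD, sg_I] at h
        have hne : mI z ^ 2 * sg z ^ 2 ≠ 0 := mul_ne_zero (pow_ne_zero _ (mI_ne z)) (pow_ne_zero _ hz)
        have h2 : mI z ^ 2 * sg z ^ 2 * (D (z + I) - cI * D z) = 0 := by linear_combination h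
        exact (mul_eq_zero.1 h2).resolve_left hne) z
    exact sub_eq_zero.1 this

lemma sg_neg (z : ℂ) : sg (-z) = -sg z := by
  have h : Kp (-z) = Kp z := by
    unfold Kp
    congr 1
    funext n
    unfold qf
    rw [show (-2 * π * (n + 1) + 2 * π * I * (-z) : ℂ) = -2 * π * (n + 1) - 2 * π * I * z by ring,
      show (-2 * π * (n + 1) - 2 * π * I * (-z) : ℂ) = -2 * π * (n + 1) + 2 * π * I * z by ring]
    ring
  unfold sg
  rw [h, show (π * -z : ℂ) = -(π * z) by ring, Complex.sin_neg,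
    show (π * (-z) ^ 2 / 2 : ℂ) = π * z ^ 2 / 2 by ring]
  ring

lemma s1_neg (z : ℂ) : s1 (-z) = s1 z := by
  have h1 : HasDerivAt (fun w => sg (-w)) (-(s1 (-z))) z := by
    have := (hd0 (-z)).scomp z ((hasDerivAt_id z).neg)
    simpa [Function.comp_def] using this
  have h2 : (fun w => sg (-w)) = fun w => -sg w := funext sg_neg
  rw [h2] at h1
  have h3 := h1.unique (hd0 z).neg
  exact neg_injective h3

lemma s2_neg (z : ℂ) : s2 (-z) = -s2 z := by
  have h1 : HasDerivAt (fun w => s1 (-w)) (-(s2 (-z))) z := by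
    have := (hd1 (-z)).scomp z ((hasDerivAt_id z).neg)
    simpa [Function.comp_def] using this
  have h2 : (fun w => s1 (-w)) = fun w => s1 w := funext s1_neg
  rw [h2] at h1
  have h3 := h1.unique (hd1 z)
  rw [← h3, neg_neg]

lemma s2_zero : s2 0 = 0 := by
  have h := s2_neg 0
  rw [neg_zero] at h
  have : (2 : ℂ) * s2 0 = 0 := by linear_combination h
  simpa using this

/-- uniqueness of the sigma function -/
theorem sg_unique {H H' H'' : ℂ → ℂ} (hH : ∀ z, HasDerivAt H (H' z) z)
    (hH' : ∀ z, HasDerivAt H' (H'' z) z)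
    (h1 : ∀ z, H (z + 1) = m1 z * H z) (hI : ∀ z, H (z + I) = mI z * H z) :
    ∃ C : ℂ, ∀ z, H z = C * sg z := by
  set ka : ℂ := H 0 / s1 0 with hka
  have hka2 : ka * s1 0 = H 0 := by rw [hka]; field_simp [s1_zero_ne]
  -- the function `L`
  have hL : ∀ z, HasDerivAt (fun z => H' z * sg z - H z * s1 z + ka * (s1 z ^ 2 - sg z * s2 z))
      (H'' z * sg z - H z * s2 z + ka * (s1 z * s2 z - sg z * s3 z)) z := by
    intro z
    have a1 := (hH' z).mul (hd0 z)
    have a2 := (hH z).mul (hd1 z)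
    have a3 := (hd1 z).pow 2
    have a4 := (hd0 z).mul (hd2 z)
    refine ((a1.sub a2).add ((a3.sub a4).const_mul ka)).congr_deriv ?_
    simp only [Nat.cast_ofNat, Nat.add_one_sub_one, pow_one]
    ring
  obtain ⟨D, hD, hLD, hD1, hDI⟩ := div_qp hL 1 1 one_ne_zero one_ne_zero
    (by
      intro z
      have e1 := qp_deriv hH m1_hd h1 z
      have e2 := qp_deriv hd0 m1_hd sg_one z
      have e3 := qp_deriv2 hd0 hd1 m1_hd sg_one z
      simp only [e1, e2, e3, h1 z, sg_one z]
      ring)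
    (by
      intro z
      have e1 := qp_deriv hH mI_hd hI z
      have e2 := qp_deriv hd0 mI_hd sg_I z
      have e3 := qp_deriv2 hd0 hd1 mI_hd sg_I z
      simp only [e1, e2, e3, hI z, sg_I z]
      ring)
    (by
      simp only [sg_zero]
      linear_combination s1 0 * hka2)
    (by
      simp only [sg_zero, s2_zero]
      ring)
  obtain ⟨K, hK⟩ := liou hD (fun z => by rw [hD1, one_mul]) (fun z => by rw [hDI, one_mul])
  have hL2 : ∀ z, H' z * sg z - H z * s1 z + ka * (s1 z ^ 2 - sg z * s2 z) = K * sg z ^ 2 := by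
    intro z
    have h2 := hLD z
    simp only [hK z] at h2
    rw [h2]; ring
  -- the function `Q`
  have hQ : ∀ z, HasDerivAt (fun z => H z - K * z * sg z - ka * s1 z)
      (H' z - K * sg z - K * z * s1 z - ka * s2 z) z := by
    intro z
    have a1 := (((hasDerivAt_id z).const_mul K).mul (hd0 z))
    have a2 := (hd1 z).const_mul ka
    refine (((hH z).sub a1).sub a2).congr_deriv ?_
    simp only [id]
    ring
  have hQd : Differentiable ℂ (fun z => H z - K * z * sg z - ka * s1 z) :=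
    fun z => (hQ z).differentiableAt
  have hQW : ∀ z, (H' z - K * sg z - K * z * s1 z - ka * s2 z) * sg z -
      (H z - K * z * sg z - ka * s1 z) * s1 z = 0 := by
    intro z
    linear_combination hL2 z
  obtain ⟨g, hg, hQg⟩ := div1 hQd sg_diff (fun z hz => by
    refine ⟨?_, dsg_ne z hz⟩
    have := hQW z
    rw [hz] at this
    have hne : s1 z ≠ 0 := dsg_ne z hz
    have h3 : (H z - K * z * sg z - ka * s1 z) * s1 z = 0 := by
      rw [hz]; linear_combination -this
    exact (mul_eq_zero.1 h3).resolve_right hne)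
  have hg' : ∀ z, deriv g z = 0 := by
    apply of_sg (ddiff hg).continuous
    intro z hz
    have h4 : HasDerivAt (fun z => H z - K * z * sg z - ka * s1 z)
        (s1 z * g z + sg z * deriv g z) z := by
      have h5 := (hd0 z).mul (hg z).hasDerivAt
      have e : (fun z => H z - K * z * sg z - ka * s1 z) = sg * g := by funext w; exact hQg w
      rw [e]
      exact h5
    have h6 := (hQ z).unique h4
    have h7 := hQW z
    rw [h6, hQg z] at h7
    have h8 : sg z ^ 2 * deriv g z = 0 := by linear_combination h7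
    exact (mul_eq_zero.1 h8).resolve_left (pow_ne_zero _ hz)
  have hgc : ∀ z, g z = g 0 := fun z => is_const_of_deriv_eq_zero hg hg' z 0
  have hH3 : ∀ z, H z = (K * z + g 0) * sg z + ka * s1 z := by
    intro z
    have := hQg z
    rw [hgc z] at this
    linear_combination this
  -- periodicity forces `K = ka = 0`
  obtain ⟨z0, hz0⟩ : ∃ z0, sg z0 ≠ 0 := by
    by_contra hcon
    push Not at hcon
    have h9 : s1 0 = 0 := by
      have : sg = fun _ => 0 := funext hcon
      unfold s1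
      rw [this]
      simp
    exact s1_zero_ne h9
  have hK1 : K + ka * π = 0 := by
    have e := h1 z0
    rw [hH3, hH3, sg_one, qp_deriv hd0 m1_hd sg_one z0] at e
    have h10 : (K + ka * π) * (m1 z0 * sg z0) = 0 := by linear_combination e
    exact (mul_eq_zero.1 h10).resolve_right (mul_ne_zero (m1_ne _) hz0)
  have hK2 : K - ka * π = 0 := by
    have e := hI z0
    rw [hH3, hH3, sg_I, qp_deriv hd0 mI_hd sg_I z0] at e
    have h10 : (K - ka * π) * (I * (mI z0 * sg z0)) = 0 := by linear_combination e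
    exact (mul_eq_zero.1 h10).resolve_right (mul_ne_zero Complex.I_ne_zero (mul_ne_zero (mI_ne _) hz0))
  have hpi : (π : ℂ) ≠ 0 := Complex.ofReal_ne_zero.2 Real.pi_ne_zero
  have hka0 : ka = 0 := by
    have : ka * π = 0 := by linear_combination (hK1 - hK2) / 2
    exact (mul_eq_zero.1 this).resolve_right hpi
  have hK0 : K = 0 := by rw [hka0] at hK1; simpa using hK1
  refine ⟨g 0, fun z => ?_⟩
  rw [hH3, hka0, hK0]
  ring

end Pool.Agent.H792R3.Lame
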