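import Pool.Agent.H792R3.LA

set_option autoImplicit false

/-!
The Weierstrass functions of the square lattice and the Lame equation.
-/

namespace Pool.Agent.H792R3.Lame

open Complex Filter Topology Pool.Agent.Helper344.Ent
open scoped Real

/-- rotation by `i` -/
lemma sg_rot (z : ℂ) : sg (I * z) = I * sg z := by
  have hd : ∀ z, HasDerivAt (fun w => sg (I * w)) (I * s1 (I * z)) z := by
    intro z
    have h := (hd0 (I * z)).scomp z ((hasDerivAt_id z).const_mul I)
    simpa [Function.comp_def, mul_comm] using h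
  have hd' : ∀ z, HasDerivAt (fun w => I * s1 (I * w)) (I * (I * s2 (I * z))) z := by
    intro z
    have h := (hd1 (I * z)).scomp z ((hasDerivAt_id z).const_mul I)
    have h2 := h.const_mul I
    simpa [Function.comp_def, mul_comm] using h2
  obtain ⟨C, hC⟩ := sg_unique hd hd'
    (by
      intro z
      show sg (I * (z + 1)) = m1 z * sg (I * z)
      rw [show I * (z + 1) = I * z + I by ring, sg_I]
      unfold mI m1
      rw [show (π / 2 - π * I * (I * z) : ℂ) = π * z + π / 2 by
        linear_combination (-(π * z) : ℂ) * Complex.I_mul_I])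
    (by
      intro z
      show sg (I * (z + I)) = mI z * sg (I * z)
      have h := sg_one (I * z - 1)
      rw [sub_add_cancel] at h
      rw [show I * (z + I) = I * z - 1 by linear_combination Complex.I_mul_I, h]
      unfold mI m1
      rw [show -cexp (π / 2 - π * I * z) * (-cexp (π * (I * z - 1) + π / 2) * sg (I * z - 1)) =
        (cexp (π / 2 - π * I * z) * cexp (π * (I * z - 1) + π / 2)) * sg (I * z - 1) by ring,
        ← Complex.exp_add, show (π / 2 - π * I * z + (π * (I * z - 1) + π / 2) : ℂ) = 0 by ring,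
        Complex.exp_zero, one_mul])
  have h1 := hd 0
  have h2 : (fun w => sg (I * w)) = fun w => C * sg w := funext hC
  rw [h2, mul_zero] at h1
  have h3 := h1.unique ((hd0 0).const_mul C)
  have h4 : C = I := (mul_right_cancel₀ s1_zero_ne h3).symm
  have h5 := hC z
  rw [h4] at h5
  exact h5

lemma s1_rot (z : ℂ) : s1 (I * z) = s1 z := by
  have h := (hd0 (I * z)).scomp z ((hasDerivAt_id z).const_mul I)
  have h1 : HasDerivAt (fun w => sg (I * w)) (I * s1 (I * z)) z := by
    simpa [Function.comp_def, mul_comm] using h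
  have h2 : (fun w => sg (I * w)) = fun w => I * sg w := funext sg_rot
  rw [h2] at h1
  have h3 := h1.unique ((hd0 z).const_mul I)
  exact mul_left_cancel₀ Complex.I_ne_zero h3

lemma s2_rot (z : ℂ) : I * s2 (I * z) = s2 z := by
  have h := (hd1 (I * z)).scomp z ((hasDerivAt_id z).const_mul I)
  have h1 : HasDerivAt (fun w => s1 (I * w)) (I * s2 (I * z)) z := by
    simpa [Function.comp_def, mul_comm] using h
  have h2 : (fun w => s1 (I * w)) = fun w => s1 w := funext s1_rot
  rw [h2] at h1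
  exact h1.unique (hd1 z)

lemma s3_zero : s3 0 = 0 := by
  have h := ((hd2 (I * 0)).scomp 0 ((hasDerivAt_id (0:ℂ)).const_mul I)).const_mul I
  have h1 : HasDerivAt (fun w => I * s2 (I * w)) (I * (I * s3 (I * 0))) 0 := by
    simpa [Function.comp_def, mul_comm] using h
  have h2 : (fun w => I * s2 (I * w)) = fun w => s2 w := funext s2_rot
  rw [h2] at h1
  have h3 := h1.unique (hd2 0)
  rw [mul_zero] at h3
  have h4 : (2 : ℂ) * s3 0 = 0 := by linear_combination (-1 : ℂ) * h3 + s3 0 * Complex.I_mul_I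
  simpa using h4

/-- complex conjugation -/
lemma Kp_conj (z : ℂ) : Kp (starRingEnd ℂ z) = starRingEnd ℂ (Kp z) := by
  unfold Kp
  have h : ∀ n, starRingEnd ℂ (qf n z) = qf n (starRingEnd ℂ z) := by
    intro n
    unfold qf
    rw [map_mul, map_sub, map_sub, ← Complex.exp_conj, ← Complex.exp_conj, map_one]
    simp only [map_add, map_sub, map_mul, map_neg, Complex.conj_ofReal, Complex.conj_I, map_one,
      map_natCast, map_ofNat]
    rw [show (-2 * π * (n + 1) + 2 * π * -I * (starRingEnd ℂ) z : ℂ) =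
        -2 * π * (n + 1) - 2 * π * I * (starRingEnd ℂ) z by ring,
      show (-2 * π * (n + 1) - 2 * π * -I * (starRingEnd ℂ) z : ℂ) =
        -2 * π * (n + 1) + 2 * π * I * (starRingEnd ℂ) z by ring]
    ring
  have h2 := (Kp_diff.2 z).map_tprod (starRingEnd ℂ) Complex.continuous_conj
  rw [h2]
  simp only [h]

lemma sg_conj (z : ℂ) : sg (starRingEnd ℂ z) = starRingEnd ℂ (sg z) := by
  unfold sg
  rw [map_mul, map_mul, ← Complex.exp_conj, ← Complex.sin_conj, Kp_conj]
  simp only [map_div₀, map_mul, map_pow, Complex.conj_ofReal, map_ofNat]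

lemma d_conj {f f' : ℂ → ℂ} (hf : ∀ z, HasDerivAt f (f' z) z)
    (h : ∀ z, f (starRingEnd ℂ z) = starRingEnd ℂ (f z)) (z : ℂ) :
    f' (starRingEnd ℂ z) = starRingEnd ℂ (f' z) := by
  have h1 := (hf z).conj_conj
  have h2 : (starRingEnd ℂ ∘ f ∘ starRingEnd ℂ) = f := by
    funext w
    simp only [Function.comp_apply]
    rw [h, Complex.conj_conj]
  rw [h2] at h1
  exact (hf _).unique h1

lemma s1_conj (z : ℂ) : s1 (starRingEnd ℂ z) = starRingEnd ℂ (s1 z) := d_conj hd0 sg_conj z
lemma s2_conj (z : ℂ) : s2 (starRingEnd ℂ z) = starRingEnd ℂ (s2 z) := d_conj hd1 s1_conj z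

/-- the zeta function -/
noncomputable def ze (z : ℂ) : ℂ := s1 z / sg z
/-- the elliptic function -/
noncomputable def wp (z : ℂ) : ℂ := (s1 z ^ 2 - sg z * s2 z) / sg z ^ 2

lemma ze_one (z : ℂ) (hz : sg z ≠ 0) : ze (z + 1) = ze z + π := by
  unfold ze
  rw [sg_one, qp_deriv hd0 m1_hd sg_one z]
  field_simp [m1_ne z, hz]
  ring

lemma ze_I (z : ℂ) (hz : sg z ≠ 0) : ze (z + I) = ze z - π * I := by
  unfold ze
  rw [sg_I, qp_deriv hd0 mI_hd sg_I z]
  field_simp [mI_ne z, hz]
  ring

lemma wp_one (z : ℂ) : wp (z + 1) = wp z := by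
  unfold wp
  rw [sg_one, qp_deriv hd0 m1_hd sg_one z, qp_deriv2 hd0 hd1 m1_hd sg_one z]
  by_cases hz : sg z = 0
  · simp [hz]
  · field_simp [m1_ne z, hz]
    ring

lemma wp_I (z : ℂ) : wp (z + I) = wp z := by
  unfold wp
  rw [sg_I, qp_deriv hd0 mI_hd sg_I z, qp_deriv2 hd0 hd1 mI_hd sg_I z]
  by_cases hz : sg z = 0
  · simp [hz]
  · field_simp [mI_ne z, hz]
    ring

lemma ze_neg (z : ℂ) : ze (-z) = -ze z := by
  unfold ze; rw [s1_neg, sg_neg, div_neg]

lemma wp_neg (z : ℂ) : wp (-z) = wp z := by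
  unfold wp; rw [s1_neg, sg_neg, s2_neg]; ring_nf

lemma ze_rot (z : ℂ) : ze (I * z) = -I * ze z := by
  unfold ze
  rw [s1_rot, sg_rot, div_mul_eq_div_div, div_I]
  ring

lemma wp_rot (z : ℂ) : wp (I * z) = -wp z := by
  unfold wp
  rw [s1_rot, sg_rot, mul_pow, Complex.I_sq]
  have h := s2_rot z
  rw [show I * sg z * s2 (I * z) = sg z * (I * s2 (I * z)) by ring, h, neg_one_mul, div_neg]

lemma wp_conj (z : ℂ) : wp (starRingEnd ℂ z) = starRingEnd ℂ (wp z) := by
  unfold wp
  rw [s1_conj, sg_conj, s2_conj]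
  simp only [map_div₀, map_sub, map_mul, map_pow]

/-- the bilinear form of the Lame equation -/
theorem bilinear (a : ℂ) (ha : sg a ≠ 0) (z : ℂ) :
    (ze a ^ 2 * sg (z - a) + 2 * ze a * s1 (z - a) + s2 (z - a)) * sg z
      - 2 * (ze a * sg (z - a) + s1 (z - a)) * s1 z + sg (z - a) * s2 z
      - wp a * sg (z - a) * sg z = 0 := by
  have hna : sg (-a) ≠ 0 := by rw [sg_neg]; exact neg_ne_zero.2 ha
  have e0 : ∀ z, HasDerivAt (fun w => sg (w - a)) (s1 (z - a)) z := fun z =>
    (hd0 (z - a)).comp_sub_const z a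
  have e1 : ∀ z, HasDerivAt (fun w => s1 (w - a)) (s2 (z - a)) z := fun z =>
    (hd1 (z - a)).comp_sub_const z a
  have e2 : ∀ z, HasDerivAt (fun w => s2 (w - a)) (s3 (z - a)) z := fun z =>
    (hd2 (z - a)).comp_sub_const z a
  set ζ := ze a with hζ
  set P := wp a with hP
  have hL : ∀ z, HasDerivAt (fun z => (ζ ^ 2 * sg (z - a) + 2 * ζ * s1 (z - a) + s2 (z - a)) * sg z
      - 2 * (ζ * sg (z - a) + s1 (z - a)) * s1 z + sg (z - a) * s2 z
      - P * sg (z - a) * sg z)
      ((ζ ^ 2 * s1 (z - a) + 2 * ζ * s2 (z - a) + s3 (z - a)) * sg z +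
        (ζ ^ 2 * sg (z - a) + 2 * ζ * s1 (z - a) + s2 (z - a)) * s1 z
      - (2 * (ζ * s1 (z - a) + s2 (z - a)) * s1 z + 2 * (ζ * sg (z - a) + s1 (z - a)) * s2 z)
      + (s1 (z - a) * s2 z + sg (z - a) * s3 z)
      - (P * s1 (z - a) * sg z + P * sg (z - a) * s1 z)) z := by
    intro z
    have b1 := ((((e0 z).const_mul (ζ ^ 2)).add ((e1 z).const_mul (2 * ζ))).add (e2 z)).mul (hd0 z)
    have b2 := ((((e0 z).const_mul ζ).add (e1 z)).const_mul 2).mul (hd1 z)
    have b3 := (e0 z).mul (hd2 z)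
    have b4 := ((e0 z).const_mul P).mul (hd0 z)
    exact ((b1.sub b2).add b3).sub b4
  have q1 : ∀ z, sg (z + 1 - a) = cexp (-(π * a)) * (m1 z * sg (z - a)) := by
    intro z
    rw [show z + 1 - a = (z - a) + 1 by ring, sg_one, sub_eq_add_neg, m1_add,
      show (π * -a : ℂ) = -(π * a) by ring]
    ring
  have qI : ∀ z, sg (z + I - a) = cexp (π * I * a) * (mI z * sg (z - a)) := by
    intro z
    rw [show z + I - a = (z - a) + I by ring, sg_I, sub_eq_add_neg, mI_add,
      show (-(π * I * -a) : ℂ) = π * I * a by ring]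
    ring
  have r1 : ∀ z, s1 (z + 1 - a) = cexp (-(π * a)) * (m1 z * (π * sg (z - a) + s1 (z - a))) := by
    intro z
    rw [show z + 1 - a = (z - a) + 1 by ring, qp_deriv hd0 m1_hd sg_one, sub_eq_add_neg, m1_add,
      show (π * -a : ℂ) = -(π * a) by ring]
    ring
  have rI : ∀ z, s1 (z + I - a) = cexp (π * I * a) * (mI z * (-(π * I) * sg (z - a) + s1 (z - a))) := by
    intro z
    rw [show z + I - a = (z - a) + I by ring, qp_deriv hd0 mI_hd sg_I, sub_eq_add_neg, mI_add,
      show (-(π * I * -a) : ℂ) = π * I * a by ring]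
    ring
  have t1 : ∀ z, s2 (z + 1 - a) = cexp (-(π * a)) *
      (m1 z * ((π : ℂ) ^ 2 * sg (z - a) + 2 * π * s1 (z - a) + s2 (z - a))) := by
    intro z
    rw [show z + 1 - a = (z - a) + 1 by ring, qp_deriv2 hd0 hd1 m1_hd sg_one, sub_eq_add_neg, m1_add,
      show (π * -a : ℂ) = -(π * a) by ring]
    ring
  have tI : ∀ z, s2 (z + I - a) = cexp (π * I * a) *
      (mI z * ((-(π * I)) ^ 2 * sg (z - a) + 2 * (-(π * I)) * s1 (z - a) + s2 (z - a))) := by
    intro z
    rw [show z + I - a = (z - a) + I by ring, qp_deriv2 hd0 hd1 mI_hd sg_I, sub_eq_add_neg, mI_add,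
      show (-(π * I * -a) : ℂ) = π * I * a by ring]
    ring
  have hζs : ζ * sg a = s1 a := by rw [hζ]; unfold ze; field_simp
  have hPs : P * sg a = ζ * s1 a - s2 a := by
    rw [hζ, hP]; unfold ze wp; field_simp
  obtain ⟨D, hD, hLD, hD1, hDI⟩ := div_qp hL (cexp (-(π * a))) (cexp (π * I * a))
    (Complex.exp_ne_zero _) (Complex.exp_ne_zero _)
    (by
      intro z
      simp only [q1, r1, t1, sg_one z, qp_deriv hd0 m1_hd sg_one z, qp_deriv2 hd0 hd1 m1_hd sg_one z]
      ring)
    (by
      intro z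
      simp only [qI, rI, tI, sg_I z, qp_deriv hd0 mI_hd sg_I z, qp_deriv2 hd0 hd1 mI_hd sg_I z]
      ring)
    (by
      simp only [sg_zero, s2_zero, zero_sub, sg_neg, s1_neg, s2_neg]
      linear_combination (2 * s1 0) * hζs)
    (by
      simp only [sg_zero, s2_zero, zero_sub, sg_neg, s1_neg, s2_neg, s3_zero]
      linear_combination (s1 0) * hPs - (ζ * s1 0) * hζs)
  -- `D` times the sigma function is again a sigma function
  have hG : ∀ z, HasDerivAt (fun z => D (z + a) * sg (z + a))
      (deriv D (z + a) * sg (z + a) + D (z + a) * s1 (z + a)) z := by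
    intro z
    exact ((hD (z + a)).hasDerivAt.comp_add_const z a).mul ((hd0 (z + a)).comp_add_const z a)
  have hGd : Differentiable ℂ (fun z => D (z + a) * sg (z + a)) := fun z => (hG z).differentiableAt
  obtain ⟨C, hC⟩ := sg_unique (H := fun z => D (z + a) * sg (z + a))
    (fun z => (hGd z).hasDerivAt) (fun z => ((ddiff hGd) z).hasDerivAt)
    (by
      intro z
      show D (z + 1 + a) * sg (z + 1 + a) = m1 z * (D (z + a) * sg (z + a))
      rw [show z + 1 + a = (z + a) + 1 by ring, hD1, sg_one, m1_add]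
      have : cexp (-(π * a)) * cexp (π * a) = 1 := by
        rw [← Complex.exp_add, neg_add_cancel, Complex.exp_zero]
      linear_combination (D (z + a) * m1 z * sg (z + a)) * this)
    (by
      intro z
      show D (z + I + a) * sg (z + I + a) = mI z * (D (z + a) * sg (z + a))
      rw [show z + I + a = (z + a) + I by ring, hDI, sg_I, mI_add]
      have : cexp (π * I * a) * cexp (-(π * I * a)) = 1 := by
        rw [← Complex.exp_add, add_neg_cancel, Complex.exp_zero]
      linear_combination (D (z + a) * mI z * sg (z + a)) * this)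
  have hC0 : C = 0 := by
    have := hC (-a)
    simp only [neg_add_cancel, sg_zero, mul_zero] at this
    exact (mul_eq_zero.1 this.symm).resolve_right hna
  have hDs : ∀ z, D z * sg z = 0 := by
    intro z
    have := hC (z - a)
    simp only [sub_add_cancel, hC0, zero_mul] at this
    exact this
  have := hLD z
  rw [this]
  linear_combination sg z * hDs z

end Pool.Agent.H792R3.Lame
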