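import Pool.Agent.H792R3.LB

set_option autoImplicit false

/-!
The Lame potential on a shifted real line and its Bloch solutions.
-/

namespace Pool.Agent.H792R3.Lame

open Complex Filter Topology Pool.Agent.Helper344.Ent
open scoped Real ContDiff

/-- the real potential -/
noncomputable def vv (x : ℝ) : ℝ := 2 * (wp (x + I / 2)).re

lemma sg_half_ne (x : ℝ) : sg (x + I / 2) ≠ 0 := by
  intro h
  obtain ⟨m, n, hmn⟩ := sg_zero_lat _ h
  have h2 := congrArg Complex.im hmn
  simp at h2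
  have h3 : (2 * n : ℤ) = 1 := by
    have : (2 * (n : ℝ)) = 1 := by linarith
    exact_mod_cast this
  omega

lemma wp_real (x : ℝ) : ((wp (x + I / 2)).re : ℂ) = wp (x + I / 2) := by
  apply Complex.conj_eq_iff_re.1
  rw [← wp_conj]
  have h := wp_I (x - I / 2)
  rw [map_add, Complex.conj_ofReal, map_div₀, Complex.conj_I, map_ofNat,
    show (x + -I / 2 : ℂ) = x - I / 2 by ring, ← h]
  congr 1
  ring

lemma vv_eq (x : ℝ) : (vv x : ℂ) = 2 * wp (x + I / 2) := by
  unfold vv
  push_cast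
  rw [wp_real]

lemma vv_per (x : ℝ) : vv (x + 1) = vv x := by
  unfold vv
  rw [← wp_one (x + I / 2)]
  push_cast
  rw [show ((x : ℂ) + 1 + I / 2) = x + I / 2 + 1 by ring]

lemma cd_comp {f : ℂ → ℂ} (hf : Differentiable ℂ f) (c : ℂ) :
    ContDiff ℝ ∞ (fun x : ℝ => f (x + c)) := by
  have h1 : ContDiff ℂ ∞ f := hf.contDiff
  have h2 : ContDiff ℝ ∞ f := h1.restrict_scalars ℝ
  exact h2.comp ((Complex.ofRealCLM.contDiff).add contDiff_const)

lemma vv_smooth : ContDiff ℝ ∞ vv := by
  have h0 := cd_comp sg_diff (I / 2)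
  have h1 := cd_comp s1_diff (I / 2)
  have h2 := cd_comp s2_diff (I / 2)
  have h3 : ContDiff ℝ ∞ (fun x : ℝ => wp (x + I / 2)) := by
    unfold wp
    simp only [div_eq_mul_inv]
    exact ((h1.pow 2).sub (h0.mul h2)).mul ((h0.pow 2).inv (fun x => pow_ne_zero _ (sg_half_ne x)))
  have h4 : ContDiff ℝ ∞ (fun x : ℝ => (wp (x + I / 2)).re) := Complex.reCLM.contDiff.comp h3
  exact contDiff_const.mul h4

lemma vv_nonconst : ∃ x, vv x ≠ vv 0 := by
  by_contra hcon
  push Not at hcon
  set c : ℂ := wp (((0:ℝ) : ℂ) + I / 2) with hc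
  have hG : ∀ x : ℝ, s1 (x + I / 2) ^ 2 - sg (x + I / 2) * s2 (x + I / 2) - c * sg (x + I / 2) ^ 2 = 0 := by
    intro x
    have h1 : wp (x + I / 2) = c := by
      have := hcon x
      have h2 : (vv x : ℂ) = vv 0 := by rw [this]
      rw [vv_eq, vv_eq] at h2
      exact mul_left_cancel₀ two_ne_zero h2
    have h2 : sg (x + I / 2) ≠ 0 := sg_half_ne x
    unfold wp at h1
    rw [div_eq_iff (pow_ne_zero _ h2)] at h1
    rw [h1]; ring
  have hGd : Differentiable ℂ (fun z => s1 z ^ 2 - sg z * s2 z - c * sg z ^ 2) := by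
    have a0 := sg_diff
    have a1 := s1_diff
    have a2 := s2_diff
    fun_prop
  have hGa : AnalyticOnNhd ℂ (fun z => s1 z ^ 2 - sg z * s2 z - c * sg z ^ 2) Set.univ :=
    fun z _ => hGd.analyticAt z
  have hfr : ∃ᶠ z in 𝓝[≠] (I / 2), (fun z => s1 z ^ 2 - sg z * s2 z - c * sg z ^ 2) z =
      (fun _ => (0:ℂ)) z := by
    have ht : Tendsto (fun x : ℝ => (x : ℂ) + I / 2) (𝓝[≠] 0) (𝓝[≠] (I / 2)) := by
      rw [tendsto_nhdsWithin_iff]
      constructor
      · have : Continuous (fun x : ℝ => (x : ℂ) + I / 2) := by fun_prop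
        have h3 := this.tendsto 0
        simp only [Complex.ofReal_zero, zero_add] at h3
        exact h3.mono_left nhdsWithin_le_nhds
      · filter_upwards [self_mem_nhdsWithin] with x hx
        intro h4
        apply hx
        have h5 : (x : ℂ) = 0 := by
          have : (x : ℂ) + I / 2 = I / 2 := h4
          linear_combination this
        simpa using h5
    refine ht.frequently ?_
    exact (Filter.Eventually.of_forall (fun x => hG x)).frequently
  have := hGa.eq_of_frequently_eq (analyticOnNhd_const) hfr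
  have h0 := congrFun this 0
  simp only [sg_zero] at h0
  have : s1 0 ^ 2 = 0 := by linear_combination h0
  exact s1_zero_ne (by simpa using this)

/-- every value is taken -/
lemma wp_surj (mu : ℂ) : ∃ a, sg a ≠ 0 ∧ wp a = mu := by
  by_contra hcon
  push Not at hcon
  have hP : ∀ z, s1 z ^ 2 - sg z * s2 z - mu * sg z ^ 2 ≠ 0 := by
    intro z hz
    by_cases h0 : sg z = 0
    · rw [h0] at hz
      have : s1 z ^ 2 = 0 := by linear_combination hz
      have h9 : s1 z = 0 := by simpa using this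
      exact dsg_ne z h0 h9
    · apply hcon z h0
      unfold wp
      rw [div_eq_iff (pow_ne_zero _ h0)]
      linear_combination hz
  have hD : Differentiable ℂ (fun z => sg z ^ 2 / (s1 z ^ 2 - sg z * s2 z - mu * sg z ^ 2)) := by
    have a0 := sg_diff
    have a1 := s1_diff
    have a2 := s2_diff
    intro z
    have := hP z
    fun_prop (disch := assumption)
  obtain ⟨c, hc⟩ := liou hD
    (by
      intro z
      rw [sg_one, qp_deriv hd0 m1_hd sg_one z, qp_deriv2 hd0 hd1 m1_hd sg_one z]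
      rw [show (m1 z * (π * sg z + s1 z)) ^ 2 - m1 z * sg z *
        (m1 z * ((π : ℂ) ^ 2 * sg z + 2 * π * s1 z + s2 z)) - mu * (m1 z * sg z) ^ 2 =
        m1 z ^ 2 * (s1 z ^ 2 - sg z * s2 z - mu * sg z ^ 2) by ring, mul_pow,
        mul_div_mul_left _ _ (pow_ne_zero _ (m1_ne z))])
    (by
      intro z
      rw [sg_I, qp_deriv hd0 mI_hd sg_I z, qp_deriv2 hd0 hd1 mI_hd sg_I z]
      rw [show (mI z * (-(π * I) * sg z + s1 z)) ^ 2 - mI z * sg z *
        (mI z * ((-(π * I) : ℂ) ^ 2 * sg z + 2 * -(π * I) * s1 z + s2 z)) - mu * (mI z * sg z) ^ 2 =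
        mI z ^ 2 * (s1 z ^ 2 - sg z * s2 z - mu * sg z ^ 2) by ring, mul_pow,
        mul_div_mul_left _ _ (pow_ne_zero _ (mI_ne z))])
  have h0 := hc 0
  simp only [sg_zero] at h0
  have hc0 : c = 0 := by rw [← h0]; simp
  have h1 := hc (((0:ℝ) : ℂ) + I / 2)
  rw [hc0, div_eq_zero_iff] at h1
  rcases h1 with h1 | h1
  · exact sg_half_ne 0 (by simpa using h1)
  · exact hP _ h1

lemma sg_real (x : ℝ) : ((sg x).re : ℂ) = sg x := by
  apply Complex.conj_eq_iff_re.1
  rw [← sg_conj, Complex.conj_ofReal]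

lemma s1_real (x : ℝ) : ((s1 x).re : ℂ) = s1 x := by
  apply Complex.conj_eq_iff_re.1
  rw [← s1_conj, Complex.conj_ofReal]

/-- a zero of the zeta function -/
lemma zero_ze : ∃ b : ℂ, sg b ≠ 0 ∧ s1 b = 0 := by
  have hr : ∀ x : ℝ, HasDerivAt (fun y : ℝ => (sg y).re) ((s1 x).re) x := by
    intro x
    have h := (hd0 (x : ℂ)).comp_ofReal
    exact (Complex.reCLM.hasFDerivAt.comp_hasDerivAt x h)
  have h1 : sg ((1:ℝ) : ℂ) = 0 := by
    have := sg_lat 1 0
    simpa using this
  have h0 : sg ((0:ℝ) : ℂ) = 0 := by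
    have := sg_zero
    simpa using this
  obtain ⟨c, hc, hc2⟩ := exists_hasDerivAt_eq_zero (f := fun y : ℝ => (sg y).re)
    (f' := fun x => (s1 x).re) (a := 0) (b := 1) one_pos
    (fun x _ => (hr x).continuousAt.continuousWithinAt)
    (by simp only [h0, h1]) (fun x _ => hr x)
  refine ⟨c, ?_, ?_⟩
  · intro h
    obtain ⟨m, n, hmn⟩ := sg_zero_lat _ h
    have h2 := congrArg Complex.re hmn
    simp at h2
    have h3 : (0:ℝ) < (m : ℝ) := by rw [← h2]; exact hc.1
    have h4 : (m : ℝ) < 1 := by rw [← h2]; exact hc.2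
    have h5 : (0 : ℤ) < m := by exact_mod_cast h3
    have h6 : m < 1 := by exact_mod_cast h4
    omega
  · rw [← s1_real, hc2]; simp

/-- the Bloch solutions -/
noncomputable def psi (a : ℂ) (x : ℝ) : ℂ :=
  cexp (ze a * (x + I / 2)) * sg (x + I / 2 - a) / sg (x + I / 2)

lemma psi_smooth (a : ℂ) : ContDiff ℝ ∞ (psi a) := by
  have h0 := cd_comp sg_diff (I / 2)
  have h1 : ContDiff ℝ ∞ (fun x : ℝ => sg (x + I / 2 - a)) := by
    have := cd_comp sg_diff (I / 2 - a)
    simpa [add_sub_assoc] using this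
  have h2 : ContDiff ℝ ∞ (fun x : ℝ => cexp (ze a * (x + I / 2))) := by
    have : Differentiable ℂ (fun z => cexp (ze a * z)) := by fun_prop
    exact cd_comp this (I / 2)
  unfold psi
  simp only [div_eq_mul_inv]
  have h3 : ContDiff ℝ ∞ (fun x : ℝ => (sg (x + I / 2))⁻¹) := h0.inv (fun x => sg_half_ne x)
  simp only [div_eq_mul_inv] at h3 h1 h2
  exact (h2.mul h1).mul h3

lemma psi_mult (a : ℂ) (x : ℝ) : psi a (x + 1) = cexp (ze a - π * a) * psi a x := by
  have hx := sg_half_ne x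
  unfold psi
  push_cast
  rw [show ((x : ℂ) + 1 + I / 2) = (x + I / 2) + 1 by ring, sg_one,
    show ((x : ℂ) + I / 2 + 1 - a) = (x + I / 2 - a) + 1 by ring, sg_one,
    sub_eq_add_neg _ a, m1_add, show ze a * (x + I / 2 + 1) = ze a * (x + I / 2) + ze a by ring,
    Complex.exp_add, show ze a - π * a = ze a + π * -a by ring, Complex.exp_add]
  have := m1_ne (x + I / 2)
  generalize m1 (x + I / 2) = M at *
  generalize sg (x + I / 2) = S at *
  generalize sg (x + I / 2 + -a) = T at *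
  field_simp

lemma psi_ne (a : ℂ) : ∃ x, psi a x ≠ 0 := by
  by_contra hcon
  push Not at hcon
  have h1 : ∀ x : ℝ, sg (x + I / 2 - a) = 0 := by
    intro x
    have := hcon x
    unfold psi at this
    rw [div_eq_zero_iff] at this
    rcases this with h | h
    · exact (mul_eq_zero.1 h).resolve_left (Complex.exp_ne_zero _)
    · exact absurd h (sg_half_ne x)
  obtain ⟨m, n, h2⟩ := sg_zero_lat _ (h1 0)
  obtain ⟨m', n', h3⟩ := sg_zero_lat _ (h1 (1 / 2))
  have h4 : (1 / 2 : ℂ) = ((m' - m : ℤ) : ℂ) + ((n' - n : ℤ) : ℂ) * I := by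
    push_cast at h2 h3 ⊢
    linear_combination h3 - h2
  have h5 := congrArg Complex.re h4
  simp at h5
  have h6 : (2 * (m' - m) : ℤ) = 1 := by
    have : (2 * ((m' : ℝ) - m)) = 1 := by linarith
    exact_mod_cast this
  omega

/-- the first derivative of the Bloch solution -/
noncomputable def gam1 (a z : ℂ) : ℂ :=
  cexp (ze a * z) * ((ze a * sg (z - a) + s1 (z - a)) * sg z - sg (z - a) * s1 z) / sg z ^ 2

lemma psi_hd (a z : ℂ) (hz : sg z ≠ 0) :
    HasDerivAt (fun z => cexp (ze a * z) * sg (z - a) / sg z) (gam1 a z) z := by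
  have h1 : HasDerivAt (fun z => cexp (ze a * z)) (cexp (ze a * z) * ze a) z := by
    simpa using ((hasDerivAt_id z).const_mul (ze a)).cexp
  have h2 : HasDerivAt (fun w => sg (w - a)) (s1 (z - a)) z := (hd0 (z - a)).comp_sub_const z a
  refine ((h1.mul h2).div (hd0 z) hz).congr_deriv ?_
  unfold gam1
  simp only [Pi.mul_apply]
  ring

lemma gam_hd (a z : ℂ) (ha : sg a ≠ 0) (hz : sg z ≠ 0) :
    HasDerivAt (gam1 a) ((2 * wp z + wp a) * (cexp (ze a * z) * sg (z - a) / sg z)) z := by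
  have h1 : HasDerivAt (fun z => cexp (ze a * z)) (cexp (ze a * z) * ze a) z := by
    simpa using ((hasDerivAt_id z).const_mul (ze a)).cexp
  have h2 : HasDerivAt (fun w => sg (w - a)) (s1 (z - a)) z := (hd0 (z - a)).comp_sub_const z a
  have h3 : HasDerivAt (fun w => s1 (w - a)) (s2 (z - a)) z := (hd1 (z - a)).comp_sub_const z a
  have h4 := (((h2.const_mul (ze a)).add h3).mul (hd0 z)).sub (h2.mul (hd1 z))
  have h5 := (h1.mul h4).div ((hd0 z).pow 2) (pow_ne_zero 2 hz)
  refine h5.congr_deriv ?_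
  simp only [Pi.mul_apply, Pi.pow_apply, Pi.add_apply, Pi.sub_apply, Nat.cast_ofNat, Nat.add_one_sub_one, pow_one]
  have hb := bilinear a ha z
  have e : wp z = (s1 z ^ 2 - sg z * s2 z) / sg z ^ 2 := rfl
  rw [e]
  set P := wp a
  set E := cexp (ze a * z)
  set ζ := ze a
  set A := sg (z - a)
  set A1 := s1 (z - a)
  set A2 := s2 (z - a)
  field_simp
  linear_combination (E * sg z) * hb

/-- the Lame equation -/
theorem psi_lame (a : ℂ) (ha : sg a ≠ 0) (x : ℝ) :
    -(deriv (deriv (psi a)) x) + vv x * psi a x = -wp a * psi a x := by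
  have h1 : ∀ x : ℝ, HasDerivAt (psi a) (gam1 a (x + I / 2)) x := by
    intro x
    have h := (psi_hd a (x + I / 2) (sg_half_ne x)).comp_add_const (x : ℂ) (I / 2)
    exact h.comp_ofReal
  have h2 : deriv (psi a) = fun x : ℝ => gam1 a (x + I / 2) := funext fun x => (h1 x).deriv
  have h3 : HasDerivAt (fun x : ℝ => gam1 a (x + I / 2))
      ((2 * wp (x + I / 2) + wp a) * psi a x) x := by
    have h := (gam_hd a (x + I / 2) ha (sg_half_ne x)).comp_add_const (x : ℂ) (I / 2)
    exact h.comp_ofReal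
  rw [h2, h3.deriv, vv_eq]
  ring

end Pool.Agent.H792R3.Lame
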