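import Mathlib

set_option autoImplicit false

/-!
Floquet multipliers of a one-dimensional Schroedinger equation.
-/

namespace Pool.Agent.H792R3.Lame

open Complex Filter Topology
open scoped Real ContDiff

/-- uniqueness for the linear equation `y'' = q y` -/
lemma ode_zero {q : ℝ → ℂ} {B : ℝ} (hB : ∀ x, ‖q x‖ ≤ B) {y y' : ℝ → ℂ}
    (h1 : ∀ x, HasDerivAt y (y' x) x) (h2 : ∀ x, HasDerivAt y' (q x * y x) x) (x0 : ℝ)
    (ha : y x0 = 0) (hb : y' x0 = 0) : ∀ x, y x = 0 := by
  have hB0 : 0 ≤ B := (norm_nonneg _).trans (hB 0)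
  have hlip : ∀ t : ℝ, LipschitzWith (Real.toNNReal (B + 1)) (fun p : ℂ × ℂ => (p.2, q t * p.1)) := by
    intro t
    apply LipschitzWith.of_dist_le_mul
    intro p r
    rw [Real.coe_toNNReal _ (by linarith), Prod.dist_eq, Prod.dist_eq]
    have e1 : dist (q t * p.1) (q t * r.1) ≤ B * dist p.1 r.1 := by
      rw [dist_eq_norm, dist_eq_norm, ← mul_sub, norm_mul]
      exact mul_le_mul_of_nonneg_right (hB t) (norm_nonneg _)
    have d1 : dist p.1 r.1 ≤ max (dist p.1 r.1) (dist p.2 r.2) := le_max_left _ _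
    have d2 : dist p.2 r.2 ≤ max (dist p.1 r.1) (dist p.2 r.2) := le_max_right _ _
    have d0 : 0 ≤ max (dist p.1 r.1) (dist p.2 r.2) := dist_nonneg.trans d1
    apply max_le
    · simp only
      nlinarith
    · simp only
      nlinarith
  have hY : ∀ t, HasDerivAt (fun t => (y t, y' t)) ((fun p : ℂ × ℂ => (p.2, q t * p.1)) (y t, y' t)) t :=
    fun t => (h1 t).prodMk (h2 t)
  have hZ : ∀ t, HasDerivAt (fun _ : ℝ => ((0:ℂ), (0:ℂ)))
      ((fun p : ℂ × ℂ => (p.2, q t * p.1)) ((0:ℂ), (0:ℂ))) t := by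
    intro t
    simp only [mul_zero]
    exact hasDerivAt_const t _
  have := ODE_solution_unique_univ (v := fun t (p : ℂ × ℂ) => (p.2, q t * p.1))
    (s := fun _ => Set.univ) (K := Real.toNNReal (B + 1)) (t₀ := x0)
    (f := fun t => (y t, y' t)) (g := fun _ => ((0:ℂ), (0:ℂ)))
    (fun t => (hlip t).lipschitzOnWith) (fun t => ⟨hY t, trivial⟩) (fun t => ⟨hZ t, trivial⟩)
    (by simp [ha, hb])
  intro x
  have h3 := congrFun this x
  exact congrArg Prod.fst h3

/-- two Bloch solutions of the same equation have equal or reciprocal multipliers -/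
theorem mult_unique {q : ℝ → ℂ} {B : ℝ} (hB : ∀ x, ‖q x‖ ≤ B) {f f' g g' : ℝ → ℂ}
    (hf1 : ∀ x, HasDerivAt f (f' x) x) (hf2 : ∀ x, HasDerivAt f' (q x * f x) x)
    (hg1 : ∀ x, HasDerivAt g (g' x) x) (hg2 : ∀ x, HasDerivAt g' (q x * g x) x)
    {w v : ℂ} (hfw : ∀ x, f (x + 1) = w * f x) (hgv : ∀ x, g (x + 1) = v * g x)
    (hf0 : ∃ x, f x ≠ 0) (hg0 : ∃ x, g x ≠ 0) : v = w ∨ w * v = 1 := by
  have hW : ∀ x, HasDerivAt (fun x => f x * g' x - f' x * g x) 0 x := by
    intro x
    refine (((hf1 x).mul (hg2 x)).sub ((hf2 x).mul (hg1 x))).congr_deriv ?_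
    ring
  have hWc : ∀ x y, f x * g' x - f' x * g x = f y * g' y - f' y * g y := by
    intro x y
    exact is_const_of_deriv_eq_zero (f := fun x => f x * g' x - f' x * g x)
      (fun x => (hW x).differentiableAt) (fun x => (hW x).deriv) x y
  have hfw' : ∀ x, f' (x + 1) = w * f' x := by
    intro x
    have h1 := (hf1 (x + 1)).comp_add_const x 1
    have h2 : (fun x => f (x + 1)) = fun x => w * f x := funext hfw
    rw [h2] at h1
    exact h1.unique ((hf1 x).const_mul w)
  have hgv' : ∀ x, g' (x + 1) = v * g' x := by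
    intro x
    have h1 := (hg1 (x + 1)).comp_add_const x 1
    have h2 : (fun x => g (x + 1)) = fun x => v * g x := funext hgv
    rw [h2] at h1
    exact h1.unique ((hg1 x).const_mul v)
  by_cases hz : f 0 * g' 0 - f' 0 * g 0 = 0
  · left
    obtain ⟨x0, hx0⟩ := hf0
    set ka := g x0 / f x0 with hka
    have hka2 : ka * f x0 = g x0 := by rw [hka]; field_simp
    have hW0 := hWc x0 0
    rw [hz] at hW0
    have hy : ∀ x, g x - ka * f x = 0 := by
      apply ode_zero hB (y := fun x => g x - ka * f x) (y' := fun x => g' x - ka * f' x)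
        (fun x => (hg1 x).sub ((hf1 x).const_mul ka))
        (fun x => ((hg2 x).sub ((hf2 x).const_mul ka)).congr_deriv (by ring)) x0
      · rw [hka2, sub_self]
      · have h3 : f x0 * (g' x0 - ka * f' x0) = 0 := by
          linear_combination hW0 - f' x0 * hka2
        exact (mul_eq_zero.1 h3).resolve_left hx0
    obtain ⟨x1, hx1⟩ := hg0
    have h1 := hy x1
    have h2 := hy (x1 + 1)
    rw [hfw, hgv] at h2
    have h3 : (v - w) * g x1 = 0 := by linear_combination h2 - w * h1
    exact sub_eq_zero.1 ((mul_eq_zero.1 h3).resolve_right hx1)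
  · right
    have h1 := hWc (0 + 1) 0
    rw [hfw, hgv, hfw', hgv'] at h1
    have h2 : (w * v - 1) * (f 0 * g' 0 - f' 0 * g 0) = 0 := by linear_combination h1
    exact sub_eq_zero.1 ((mul_eq_zero.1 h2).resolve_right hz)

end Pool.Agent.H792R3.Lame
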