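import Mathlib

set_option autoImplicit false

/-!
Fourier coefficients of quasi-periodic functions of one and two variables.
-/

namespace Pool.Agent.H792R3.Lame

open Complex Filter Topology MeasureTheory
open scoped Real ContDiff Interval

/-- the exponential -/
noncomputable def ek (ka : ℂ) (x : ℝ) : ℂ := cexp (-(2 * π * I * ka * x))

lemma ek_cont (ka : ℂ) : Continuous (ek ka) := by unfold ek; fun_prop

lemma ek_cont2 : Continuous (fun p : ℂ × ℝ => ek p.1 p.2) := by unfold ek; fun_prop

lemma ek_hd (ka : ℂ) (x : ℝ) : HasDerivAt (ek ka) (-(2 * π * I * ka) * ek ka x) x := by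
  have h : HasDerivAt (fun z : ℂ => cexp (-(2 * π * I * ka * z)))
      (-(2 * π * I * ka) * ek ka x) (x : ℂ) := by
    have h1 : HasDerivAt (fun z : ℂ => -(2 * π * I * ka * z)) (-(2 * π * I * ka)) (x : ℂ) := by
      simpa using ((hasDerivAt_id (x : ℂ)).const_mul (2 * π * I * ka)).fun_neg
    refine h1.cexp.congr_deriv ?_
    unfold ek
    ring
  exact h.comp_ofReal

lemma ek_zero (ka : ℂ) : ek ka 0 = 1 := by simp [ek]

lemma ek_one (m : ℤ) (k : ℂ) : ek (m + k) 1 * cexp (2 * π * I * k) = 1 := by
  unfold ek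
  rw [← Complex.exp_add]
  have : (-(2 * π * I * (m + k) * ((1:ℝ) : ℂ)) + 2 * π * I * k : ℂ) = (-m : ℤ) * (2 * π * I) := by
    push_cast; ring
  rw [this, Complex.exp_int_mul_two_pi_mul_I]

lemma ek_mul (ka : ℂ) (n : ℤ) (x : ℝ) : ek ka x * cexp (2 * π * I * n * x) = ek (ka - n) x := by
  unfold ek
  rw [← Complex.exp_add]
  congr 1
  ring

/-- the Fourier coefficient -/
noncomputable def fc (f : ℝ → ℂ) (ka : ℂ) : ℂ := ∫ x in (0:ℝ)..1, ek ka x * f x

lemma fc_second {f f' f'' : ℝ → ℂ} (h1 : ∀ x, HasDerivAt f (f' x) x)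
    (h2 : ∀ x, HasDerivAt f' (f'' x) x) (hc : Continuous f'') {k : ℂ}
    (hf : ∀ x, f (x + 1) = cexp (2 * π * I * k) * f x) (m : ℤ) :
    fc f'' (m + k) = -(4 * π ^ 2 * (m + k) ^ 2) * fc f (m + k) := by
  have hf' : f' (0 + 1) = cexp (2 * π * I * k) * f' 0 := by
    have h3 := (h1 (0 + 1)).comp_add_const 0 1
    have h4 : (fun x => f (x + 1)) = fun x => cexp (2 * π * I * k) * f x := funext hf
    rw [h4] at h3
    exact h3.unique ((h1 0).const_mul _)
  have hfc : Continuous f := continuous_iff_continuousAt.2 fun x => (h1 x).continuousAt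
  have hd : ∀ x, HasDerivAt (fun x => ek (m + k) x * f' x - (-(2 * π * I * (m + k)) * ek (m + k) x) * f x)
      (ek (m + k) x * f'' x - (-(2 * π * I * (m + k))) ^ 2 * (ek (m + k) x * f x)) x := by
    intro x
    have a1 := (ek_hd (m + k) x).mul (h2 x)
    have a2 := ((ek_hd (m + k) x).const_mul (-(2 * π * I * (m + k)))).mul (h1 x)
    refine (a1.sub a2).congr_deriv ?_
    ring
  have hint : IntervalIntegrable (fun x => ek (m + k) x * f'' x -
      (-(2 * π * I * (m + k))) ^ 2 * (ek (m + k) x * f x)) volume 0 1 := by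
    apply Continuous.intervalIntegrable
    have := ek_cont (m + k)
    fun_prop
  have h5 := intervalIntegral.integral_eq_sub_of_hasDerivAt (fun x _ => hd x) hint
  have e1 : f 1 = cexp (2 * π * I * k) * f 0 := by have := hf 0; simpa using this
  have e2 : f' 1 = cexp (2 * π * I * k) * f' 0 := by simpa using hf'
  have e3 := ek_one m k
  rw [intervalIntegral.integral_sub, intervalIntegral.integral_const_mul, ek_zero, e1, e2] at h5
  · unfold fc
    have e4 : (-(2 * π * I * (m + k)) : ℂ) ^ 2 = -(4 * π ^ 2 * (m + k) ^ 2) := by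
      linear_combination (4 * π ^ 2 * (m + k) ^ 2) * Complex.I_sq
    rw [e4] at h5
    linear_combination h5 + (f' 0 + 2 * π * I * (m + k) * f 0) * e3
  · exact (((ek_cont _).mul hc).intervalIntegrable _ _)
  · exact ((((ek_cont _).mul hfc).const_mul _).intervalIntegrable _ _)

lemma int_mul_per {f : ℝ → ℂ} (hf : ∀ x, f (x + 1) = f x) (n : ℤ) (x : ℝ) : f (x + n) = f x := by
  have hp : Function.Periodic f 1 := hf
  have := hp.int_mul n x
  simpa using this

/-- Fourier series on the circle -/
lemma fourier_series {f : ℝ → ℂ} (hc : Continuous f) (hf : ∀ x, f (x + 1) = f x)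
    (hs : Summable fun n : ℤ => fc f n) (x : ℝ) :
    HasSum (fun n : ℤ => fc f n * cexp (2 * π * I * n * x)) (f x) := by
  have hp : Function.Periodic f 1 := hf
  have hcl : Continuous (hp.lift : AddCircle (1:ℝ) → ℂ) := by
    exact continuous_coinduced_dom.2 hc
  let F : C(AddCircle (1:ℝ), ℂ) := ⟨hp.lift, hcl⟩
  have hco : ∀ n : ℤ, fourierCoeff F n = fc f n := by
    intro n
    rw [fourierCoeff_eq_intervalIntegral F n 0]
    unfold fc
    simp only [zero_add, div_one, one_smul]
    apply intervalIntegral.integral_congr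
    intro y _
    simp only [smul_eq_mul]
    rw [fourier_coe_apply]
    unfold ek
    congr 1
    congr 1
    push_cast
    ring
  have hs2 : Summable (fourierCoeff F) := hs.congr (fun n => (hco n).symm)
  have h := has_pointwise_sum_fourier_series_of_summable hs2 (x : AddCircle (1:ℝ))
  have h2 : (F : AddCircle (1:ℝ) → ℂ) (x : AddCircle (1:ℝ)) = f x := rfl
  rw [h2] at h
  refine h.congr_fun ?_ |> fun h => h
  intro n
  simp only [smul_eq_mul]
  rw [hco, fourier_coe_apply]
  congr 1
  congr 1
  push_cast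
  ring

/-- uniqueness of Fourier coefficients -/
lemma fc_unique {f : ℝ → ℂ} (hc : Continuous f) {k : ℂ}
    (hf : ∀ x, f (x + 1) = cexp (2 * π * I * k) * f x)
    (h : ∀ m : ℤ, fc f (m + k) = 0) (x : ℝ) : f x = 0 := by
  have hg : ∀ x, ek k (x + 1) * f (x + 1) = ek k x * f x := by
    intro x
    have h1 : ek k (x + 1) = ek k x * ek k 1 := by
      unfold ek; rw [← Complex.exp_add]; congr 1; push_cast; ring
    have h2 := ek_one 0 k
    simp only [Int.cast_zero, zero_add] at h2
    rw [hf, h1]
    linear_combination (ek k x * f x) * h2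
  have hz : ∀ n : ℤ, fc (fun x => ek k x * f x) n = 0 := by
    intro n
    rw [← h n]
    unfold fc
    apply intervalIntegral.integral_congr
    intro y _
    simp only
    rw [← mul_assoc]
    congr 1
    unfold ek
    rw [← Complex.exp_add]
    congr 1
    ring
  have hs := fourier_series (f := fun x => ek k x * f x) ((ek_cont k).mul hc) hg
    (by simp only [hz]; exact summable_zero) x
  simp only [hz, zero_mul] at hs
  have h3 := hs.unique hasSum_zero
  exact (mul_eq_zero.1 h3).resolve_left (Complex.exp_ne_zero _)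

/-- the Fourier coefficients of a smooth periodic function are summable -/
lemma fc_summable {f f' f'' : ℝ → ℂ} (h1 : ∀ x, HasDerivAt f (f' x) x)
    (h2 : ∀ x, HasDerivAt f' (f'' x) x) (hc : Continuous f'')
    (hf : ∀ x, f (x + 1) = f x) : Summable fun n : ℤ => ‖fc f n‖ := by
  obtain ⟨B, hB⟩ : ∃ B, ∀ x ∈ Set.Icc (0:ℝ) 1, ‖f'' x‖ ≤ B :=
    isCompact_Icc.exists_bound_of_continuousOn hc.continuousOn
  have hb : ∀ n : ℤ, ‖fc f'' n‖ ≤ B := by
    intro n
    unfold fc
    have := intervalIntegral.norm_integral_le_of_norm_le_const (a := 0) (b := 1) (C := B)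
      (f := fun x => ek n x * f'' x) (by
        intro x hx
        rw [Set.uIoc_of_le zero_le_one] at hx
        rw [norm_mul]
        have : ‖ek n x‖ = 1 := by
          unfold ek
          rw [Complex.norm_exp]
          have : (-(2 * π * I * n * x) : ℂ).re = 0 := by simp
          rw [this, Real.exp_zero]
        rw [this, one_mul]
        exact hB x ⟨hx.1.le, hx.2⟩)
    simpa using this
  have h3 : Summable fun n : ℤ => B * (1 / |(n : ℝ)| ^ 2) :=
    (Real.summable_one_div_int_pow.2 (by norm_num : 1 < 2) |>.congr (fun n => by rw [sq_abs])).mul_left B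
  rw [← Finset.summable_compl_iff ({0} : Finset ℤ)]
  refine Summable.of_nonneg_of_le (fun _ => norm_nonneg _) ?_
    ((Finset.summable_compl_iff ({0} : Finset ℤ)).2 h3)
  rintro ⟨n, hn⟩
  have hn0 : n ≠ 0 := by simpa using hn
  have h4 := fc_second h1 h2 hc (k := 0) (fun x => by simpa using hf x) n
  rw [add_zero] at h4
  have h5 := hb n
  rw [h4, norm_mul] at h5
  have h6 : ‖(-(4 * π ^ 2 * (n : ℂ) ^ 2) : ℂ)‖ = 4 * π ^ 2 * |(n : ℝ)| ^ 2 := by
    rw [norm_neg, norm_mul, norm_mul, norm_pow, norm_pow, Complex.norm_real, Real.norm_eq_abs,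
      abs_of_pos Real.pi_pos, Complex.norm_intCast]
    norm_num
  rw [h6] at h5
  have h7 : 0 < |(n : ℝ)| := by
    rw [abs_pos]; exact_mod_cast hn0
  have h8 : (1 : ℝ) ≤ 4 * π ^ 2 := by nlinarith [Real.pi_gt_three]
  show ‖fc f n‖ ≤ B * (1 / |(n : ℝ)| ^ 2)
  rw [mul_one_div, le_div_iff₀ (by positivity)]
  have h9 : 0 ≤ ‖fc f n‖ * |(n : ℝ)| ^ 2 := by positivity
  nlinarith

/-- multiplication by a function with an absolutely convergent Fourier series -/
lemma fc_conv {V : ℝ → ℂ} {v : ℤ → ℂ} (hv : Summable fun n => ‖v n‖)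
    (hV : ∀ x : ℝ, HasSum (fun n : ℤ => v n * cexp (2 * π * I * n * x)) (V x))
    {f : ℝ → ℂ} (hf : Continuous f) (ka : ℂ) :
    HasSum (fun n : ℤ => v n * fc f (ka - n)) (fc (fun x => V x * f x) ka) := by
  obtain ⟨B, hB⟩ : ∃ B, ∀ x ∈ Set.Icc (0:ℝ) 1, ‖ek ka x * f x‖ ≤ B :=
    isCompact_Icc.exists_bound_of_continuousOn ((ek_cont ka).mul hf).continuousOn
  have h := intervalIntegral.hasSum_integral_of_dominated_convergence (μ := volume) (a := 0) (b := 1)
    (F := fun (n : ℤ) x => v n * (ek (ka - n) x * f x)) (f := fun x => ek ka x * (V x * f x))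
    (fun n _ => ‖v n‖ * B)
    (fun n => (((ek_cont _).mul hf).const_mul _).aestronglyMeasurable)
    (fun n => Filter.Eventually.of_forall (fun x hx => by
      rw [Set.uIoc_of_le zero_le_one] at hx
      rw [norm_mul, ← ek_mul]
      refine mul_le_mul_of_nonneg_left ?_ (norm_nonneg _)
      have e : ‖cexp (2 * π * I * n * x)‖ = 1 := by
        rw [Complex.norm_exp]
        have : (2 * π * I * n * x : ℂ).re = 0 := by simp
        rw [this, Real.exp_zero]
      rw [mul_right_comm, norm_mul, e, mul_one]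
      exact hB x ⟨hx.1.le, hx.2⟩))
    (Filter.Eventually.of_forall (fun x _ => hv.mul_right B))
    (by simp)
    (Filter.Eventually.of_forall (fun x _ => by
      have := (hV x).mul_left (ek ka x * f x)
      convert! this using 1
      · funext n
        rw [← ek_mul]; ring
      · ring))
  unfold fc
  simp only [intervalIntegral.integral_const_mul] at h
  exact h

/-- Fubini on the unit square -/
lemma swap01 {h : ℝ → ℝ → ℂ} (hc : Continuous (Function.uncurry h)) :
    ∫ y in (0:ℝ)..1, ∫ x in (0:ℝ)..1, h x y = ∫ x in (0:ℝ)..1, ∫ y in (0:ℝ)..1, h x y := by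
  simp only [intervalIntegral.integral_of_le (zero_le_one' ℝ)]
  rw [MeasureTheory.integral_integral_swap]
  rw [Measure.prod_restrict]
  have h1 : IntegrableOn (Function.uncurry fun y x => h x y) (Set.Icc (0:ℝ) 1 ×ˢ Set.Icc (0:ℝ) 1)
      (volume.prod volume) := by
    apply ContinuousOn.integrableOn_compact (isCompact_Icc.prod isCompact_Icc)
    apply Continuous.continuousOn
    exact hc.comp continuous_swap
  exact h1.mono_set (Set.prod_mono Set.Ioc_subset_Icc_self Set.Ioc_subset_Icc_self)

end Pool.Agent.H792R3.Lame
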