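import Pool.Agent.H792R3.LE

set_option autoImplicit false

/-!
Smooth functions of two real variables, partial derivatives and double Fourier coefficients.
-/

namespace Pool.Agent.H792R3.Lame

open Complex Filter Topology MeasureTheory
open scoped Real ContDiff Interval

/-- partial derivative in the first variable -/
noncomputable def Dx (u : ℝ × ℝ → ℂ) (p : ℝ × ℝ) : ℂ := fderiv ℝ u p (1, 0)
/-- partial derivative in the second variable -/
noncomputable def Dy (u : ℝ × ℝ → ℂ) (p : ℝ × ℝ) : ℂ := fderiv ℝ u p (0, 1)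

lemma Dx_smooth {u : ℝ × ℝ → ℂ} (hu : ContDiff ℝ ∞ u) : ContDiff ℝ ∞ (Dx u) :=
  (hu.fderiv_right (m := ∞) (by simp)).clm_apply contDiff_const

lemma Dy_smooth {u : ℝ × ℝ → ℂ} (hu : ContDiff ℝ ∞ u) : ContDiff ℝ ∞ (Dy u) :=
  (hu.fderiv_right (m := ∞) (by simp)).clm_apply contDiff_const

lemma Dx_hd {u : ℝ × ℝ → ℂ} (hu : ContDiff ℝ ∞ u) (x y : ℝ) :
    HasDerivAt (fun s : ℝ => u (s, y)) (Dx u (x, y)) x := by
  have h1 : HasFDerivAt u (fderiv ℝ u (x, y)) (x, y) :=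
    (hu.differentiable (by simp) (x, y)).hasFDerivAt
  have h2 : HasDerivAt (fun s : ℝ => (s, y)) ((1:ℝ), (0:ℝ)) x :=
    (hasDerivAt_id x).prodMk (hasDerivAt_const x y)
  exact h1.comp_hasDerivAt x h2

lemma Dy_hd {u : ℝ × ℝ → ℂ} (hu : ContDiff ℝ ∞ u) (x y : ℝ) :
    HasDerivAt (fun t : ℝ => u (x, t)) (Dy u (x, y)) y := by
  have h1 : HasFDerivAt u (fderiv ℝ u (x, y)) (x, y) :=
    (hu.differentiable (by simp) (x, y)).hasFDerivAt
  have h2 : HasDerivAt (fun t : ℝ => (x, t)) ((0:ℝ), (1:ℝ)) y :=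
    (hasDerivAt_const y x).prodMk (hasDerivAt_id y)
  exact h1.comp_hasDerivAt y h2

lemma Dxy_comm {u : ℝ × ℝ → ℂ} (hu : ContDiff ℝ ∞ u) : Dx (Dy u) = Dy (Dx u) := by
  funext p
  have hF : ContDiff ℝ ∞ (fderiv ℝ u) := hu.fderiv_right (m := ∞) (by simp)
  have hFd : DifferentiableAt ℝ (fderiv ℝ u) p := hF.differentiable (by simp) p
  have h1 : ∀ v w : ℝ × ℝ, fderiv ℝ (fun q => fderiv ℝ u q v) p w = fderiv ℝ (fderiv ℝ u) p w v := by
    intro v w
    have h2 : HasFDerivAt (fun q => fderiv ℝ u q v)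
        ((ContinuousLinearMap.apply ℝ ℂ v).comp (fderiv ℝ (fderiv ℝ u) p)) p :=
      ((ContinuousLinearMap.apply ℝ ℂ v).hasFDerivAt).comp p hFd.hasFDerivAt
    rw [h2.fderiv]
    rfl
  have hsym : IsSymmSndFDerivAt ℝ u p := by
    apply (hu.contDiffAt).isSymmSndFDerivAt
    rw [minSmoothness_of_isRCLikeNormedField]
    exact WithTop.coe_le_coe.2 (by simp)
  show fderiv ℝ (fun q => fderiv ℝ u q (0, 1)) p (1, 0) = fderiv ℝ (fun q => fderiv ℝ u q (1, 0)) p (0, 1)
  rw [h1, h1]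
  exact hsym _ _

/-- double Fourier coefficient -/
noncomputable def c2 (u : ℝ × ℝ → ℂ) (ka la : ℂ) : ℂ := fc (fun y => fc (fun x => u (x, y)) ka) la

lemma fc_cont {u : ℝ × ℝ → ℂ} (hu : Continuous u) (ka : ℂ) :
    Continuous (fun y : ℝ => fc (fun x => u (x, y)) ka) := by
  unfold fc
  apply intervalIntegral.continuous_parametric_intervalIntegral_of_continuous'
  have := ek_cont ka
  simp only [Function.uncurry_def]
  fun_prop

lemma fc_cont' {u : ℝ × ℝ → ℂ} (hu : Continuous u) (la : ℂ) :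
    Continuous (fun x : ℝ => fc (fun y => u (x, y)) la) := by
  unfold fc
  apply intervalIntegral.continuous_parametric_intervalIntegral_of_continuous'
  have := ek_cont la
  simp only [Function.uncurry_def]
  fun_prop

lemma c2_swap {u : ℝ × ℝ → ℂ} (hu : Continuous u) (ka la : ℂ) :
    c2 u ka la = fc (fun x => fc (fun y => u (x, y)) la) ka := by
  unfold c2 fc
  simp only [← intervalIntegral.integral_const_mul]
  have h := swap01 (h := fun x y => ek la y * (ek ka x * u (x, y))) (by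
    have := ek_cont ka
    have := ek_cont la
    simp only [Function.uncurry_def]
    fun_prop)
  rw [h]
  congr 1
  funext x
  congr 1
  funext y
  ring

lemma fc_add {f g : ℝ → ℂ} (hf : Continuous f) (hg : Continuous g) (ka : ℂ) :
    fc (fun x => f x + g x) ka = fc f ka + fc g ka := by
  unfold fc
  rw [← intervalIntegral.integral_add]
  · congr 1
    funext x
    ring
  · exact ((ek_cont ka).mul hf).intervalIntegrable _ _
  · exact ((ek_cont ka).mul hg).intervalIntegrable _ _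

lemma fc_smul (c : ℂ) (f : ℝ → ℂ) (ka : ℂ) : fc (fun x => c * f x) ka = c * fc f ka := by
  unfold fc
  rw [← intervalIntegral.integral_const_mul]
  congr 1
  funext x
  ring

lemma c2_add {u w : ℝ × ℝ → ℂ} (hu : Continuous u) (hw : Continuous w) (ka la : ℂ) :
    c2 (fun p => u p + w p) ka la = c2 u ka la + c2 w ka la := by
  unfold c2
  rw [← fc_add (fc_cont hu ka) (fc_cont hw ka)]
  congr 1
  funext y
  rw [fc_add (f := fun x => u (x, y)) (g := fun x => w (x, y)) (by fun_prop) (by fun_prop)]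

lemma c2_smul (c : ℂ) (u : ℝ × ℝ → ℂ) (ka la : ℂ) :
    c2 (fun p => c * u p) ka la = c * c2 u ka la := by
  unfold c2
  simp only [fc_smul]

/-- smooth functions with a quasi-periodicity condition -/
structure QP (k1 k2 : ℂ) (u : ℝ × ℝ → ℂ) : Prop where
  sm : ContDiff ℝ ∞ u
  px : ∀ x y : ℝ, u (x + 1, y) = cexp (2 * π * I * k1) * u (x, y)
  py : ∀ x y : ℝ, u (x, y + 1) = cexp (2 * π * I * k2) * u (x, y)

lemma fd_shift {u : ℝ × ℝ → ℂ} (hu : ContDiff ℝ ∞ u) {c : ℂ} {v : ℝ × ℝ}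
    (h : ∀ p, u (p + v) = c * u p) (p w : ℝ × ℝ) : fderiv ℝ u (p + v) w = c * fderiv ℝ u p w := by
  have h1 : HasFDerivAt u (fderiv ℝ u (p + v)) (p + v) :=
    (hu.differentiable (by simp) (p + v)).hasFDerivAt
  have h2 : HasFDerivAt (fun q => u (q + v)) (fderiv ℝ u (p + v)) p := by
    have h3 : HasFDerivAt (fun q : ℝ × ℝ => q + v) (ContinuousLinearMap.id ℝ (ℝ × ℝ)) p :=
      (hasFDerivAt_id p).add_const v
    have h4 := h1.comp p h3
    rw [ContinuousLinearMap.comp_id] at h4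
    exact h4
  have h5 : HasFDerivAt u (fderiv ℝ u p) p := (hu.differentiable (by simp) p).hasFDerivAt
  have h6 : HasFDerivAt (fun q => c * u q) (c • fderiv ℝ u p) p := h5.const_mul c
  have h7 : (fun q => u (q + v)) = fun q => c * u q := funext h
  rw [h7] at h2
  rw [h2.unique h6]
  rfl

lemma QP.shx {k1 k2 : ℂ} {u : ℝ × ℝ → ℂ} (h : QP k1 k2 u) (p : ℝ × ℝ) :
    u (p + (1, 0)) = cexp (2 * π * I * k1) * u p := by
  have := h.px p.1 p.2
  have e : p + (1, 0) = (p.1 + 1, p.2) := by ext <;> simp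
  rw [e, this]

lemma QP.shy {k1 k2 : ℂ} {u : ℝ × ℝ → ℂ} (h : QP k1 k2 u) (p : ℝ × ℝ) :
    u (p + (0, 1)) = cexp (2 * π * I * k2) * u p := by
  have := h.py p.1 p.2
  have e : p + (0, 1) = (p.1, p.2 + 1) := by ext <;> simp
  rw [e, this]

lemma QP.dx {k1 k2 : ℂ} {u : ℝ × ℝ → ℂ} (h : QP k1 k2 u) : QP k1 k2 (Dx u) := by
  refine ⟨Dx_smooth h.sm, ?_, ?_⟩
  · intro x y
    have := fd_shift h.sm h.shx (x, y) (1, 0)
    simpa [Dx] using this
  · intro x y
    have := fd_shift h.sm h.shy (x, y) (1, 0)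
    simpa [Dx] using this

lemma QP.dy {k1 k2 : ℂ} {u : ℝ × ℝ → ℂ} (h : QP k1 k2 u) : QP k1 k2 (Dy u) := by
  refine ⟨Dy_smooth h.sm, ?_, ?_⟩
  · intro x y
    have := fd_shift h.sm h.shx (x, y) (0, 1)
    simpa [Dy] using this
  · intro x y
    have := fd_shift h.sm h.shy (x, y) (0, 1)
    simpa [Dy] using this

lemma c2_xx {k1 k2 : ℂ} {u : ℝ × ℝ → ℂ} (h : QP k1 k2 u) (m : ℤ) (la : ℂ) :
    c2 (Dx (Dx u)) (m + k1) la = -(4 * π ^ 2 * (m + k1) ^ 2) * c2 u (m + k1) la := by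
  unfold c2
  have h1 : ∀ y : ℝ, fc (fun x => Dx (Dx u) (x, y)) (m + k1) =
      -(4 * π ^ 2 * (m + k1) ^ 2) * fc (fun x => u (x, y)) (m + k1) := by
    intro y
    apply fc_second (f' := fun x => Dx u (x, y)) (fun x => Dx_hd h.sm x y)
      (fun x => Dx_hd h.dx.sm x y)
    · have := h.dx.dx.sm.continuous
      fun_prop
    · intro x; exact h.px x y
  simp only [h1]
  rw [fc_smul]

lemma c2_yy {k1 k2 : ℂ} {u : ℝ × ℝ → ℂ} (h : QP k1 k2 u) (m : ℤ) (ka : ℂ) :
    c2 (Dy (Dy u)) ka (m + k2) = -(4 * π ^ 2 * (m + k2) ^ 2) * c2 u ka (m + k2) := by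
  rw [c2_swap h.dy.dy.sm.continuous, c2_swap h.sm.continuous]
  have h1 : ∀ x : ℝ, fc (fun y => Dy (Dy u) (x, y)) (m + k2) =
      -(4 * π ^ 2 * (m + k2) ^ 2) * fc (fun y => u (x, y)) (m + k2) := by
    intro x
    apply fc_second (f' := fun y => Dy u (x, y)) (fun y => Dy_hd h.sm x y)
      (fun y => Dy_hd h.dy.sm x y)
    · have := h.dy.dy.sm.continuous
      fun_prop
    · intro y; exact h.py x y
  simp only [h1]
  rw [fc_smul]

/-- vanishing double Fourier coefficients -/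
lemma c2_unique {k1 k2 : ℂ} {u : ℝ × ℝ → ℂ} (h : QP k1 k2 u)
    (h0 : ∀ m n : ℤ, c2 u (m + k1) (n + k2) = 0) : u = 0 := by
  have h1 : ∀ (m : ℤ) (y : ℝ), fc (fun x => u (x, y)) (m + k1) = 0 := by
    intro m y
    apply fc_unique (f := fun y => fc (fun x => u (x, y)) (m + k1)) (fc_cont h.sm.continuous _)
      (k := k2)
    · intro y
      simp only [h.py]
      rw [fc_smul]
    · intro n
      exact h0 m n
  funext ⟨x, y⟩
  apply fc_unique (f := fun x => u (x, y)) _ (k := k1) (fun x => h.px x y) (fun m => h1 m y) x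
  have := h.sm.continuous
  fun_prop

/-- bound for the product with a periodic function of the first variable -/
lemma c2_Vx {V : ℝ → ℂ} {v : ℤ → ℂ} (hv : Summable fun n => ‖v n‖)
    (hV : ∀ x : ℝ, HasSum (fun n : ℤ => v n * cexp (2 * π * I * n * x)) (V x)) (hVc : Continuous V)
    {u : ℝ × ℝ → ℂ} (hu : Continuous u) (k la : ℂ) (S : ℝ) (m : ℤ)
    (hS : ∀ m : ℤ, ‖c2 u (m + k) la‖ ≤ S) :
    ‖c2 (fun p => V p.1 * u p) (m + k) la‖ ≤ (∑' n, ‖v n‖) * S := by
  have h1 : c2 (fun p => V p.1 * u p) (m + k) la =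
      fc (fun x => V x * fc (fun y => u (x, y)) la) (m + k) := by
    rw [c2_swap (by fun_prop)]
    congr 1
    funext x
    exact fc_smul (V x) (fun y => u (x, y)) la
  have h2 := fc_conv hv hV (fc_cont' hu la) (m + k)
  rw [h1, ← h2.tsum_eq, ← tsum_mul_right]
  apply tsum_of_norm_bounded (hv.mul_right S).hasSum
  intro n
  rw [norm_mul]
  apply mul_le_mul_of_nonneg_left _ (norm_nonneg _)
  have h3 := hS (m - n)
  rw [c2_swap hu] at h3
  rw [show (m : ℂ) + k - n = ((m - n : ℤ) : ℂ) + k by push_cast; ring]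
  exact h3

lemma c2_Vy {V : ℝ → ℂ} {v : ℤ → ℂ} (hv : Summable fun n => ‖v n‖)
    (hV : ∀ x : ℝ, HasSum (fun n : ℤ => v n * cexp (2 * π * I * n * x)) (V x)) (_hVc : Continuous V)
    {u : ℝ × ℝ → ℂ} (hu : Continuous u) (k ka : ℂ) (S : ℝ) (m : ℤ)
    (hS : ∀ m : ℤ, ‖c2 u ka (m + k)‖ ≤ S) :
    ‖c2 (fun p => V p.2 * u p) ka (m + k)‖ ≤ (∑' n, ‖v n‖) * S := by
  have h1 : c2 (fun p => V p.2 * u p) ka (m + k) =
      fc (fun y => V y * fc (fun x => u (x, y)) ka) (m + k) := by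
    unfold c2
    congr 1
    funext y
    exact fc_smul (V y) (fun x => u (x, y)) ka
  have h2 := fc_conv hv hV (fc_cont hu ka) (m + k)
  rw [h1, ← h2.tsum_eq, ← tsum_mul_right]
  apply tsum_of_norm_bounded (hv.mul_right S).hasSum
  intro n
  rw [norm_mul]
  apply mul_le_mul_of_nonneg_left _ (norm_nonneg _)
  have h3 := hS (m - n)
  rw [show (m : ℂ) + k - n = ((m - n : ℤ) : ℂ) + k by push_cast; ring]
  exact h3

/-- a bound for all Fourier coefficients -/
lemma c2_bdd {u : ℝ × ℝ → ℂ} (hu : Continuous u) (k1 k2 : ℂ) :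
    ∃ S : ℝ, ∀ m n : ℤ, ‖c2 u (m + k1) (n + k2)‖ ≤ S := by
  obtain ⟨B, hB⟩ : ∃ B, ∀ p ∈ Set.Icc (0:ℝ) 1 ×ˢ Set.Icc (0:ℝ) 1,
      ‖ek k2 p.2 * (ek k1 p.1 * u p)‖ ≤ B := by
    apply (isCompact_Icc.prod isCompact_Icc).exists_bound_of_continuousOn
    have := ek_cont k1
    have := ek_cont k2
    fun_prop
  have hek : ∀ (m : ℤ) (k : ℂ) (x : ℝ), ‖ek (m + k) x‖ = ‖ek k x‖ := by
    intro m k x
    unfold ek
    rw [Complex.norm_exp, Complex.norm_exp]
    congr 1
    simp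
  refine ⟨B, fun m n => ?_⟩
  have h0 : ∀ x ∈ Set.Icc (0:ℝ) 1, ∀ y ∈ Set.Icc (0:ℝ) 1,
      ‖ek (n + k2) y * (ek (m + k1) x * u (x, y))‖ ≤ B := by
    intro x hx y hy
    rw [norm_mul, norm_mul, hek, hek, ← norm_mul, ← norm_mul]
    exact hB (x, y) ⟨hx, hy⟩
  unfold c2 fc
  simp only [← intervalIntegral.integral_const_mul]
  have h1 := intervalIntegral.norm_integral_le_of_norm_le_const (a := 0) (b := 1) (C := B)
    (f := fun y => ∫ x in (0:ℝ)..1, ek (n + k2) y * (ek (m + k1) x * u (x, y))) (by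
      intro y hy
      rw [Set.uIoc_of_le zero_le_one] at hy
      have h2 := intervalIntegral.norm_integral_le_of_norm_le_const (a := 0) (b := 1) (C := B)
        (f := fun x => ek (n + k2) y * (ek (m + k1) x * u (x, y))) (by
          intro x hx
          rw [Set.uIoc_of_le zero_le_one] at hx
          exact h0 x ⟨hx.1.le, hx.2⟩ y ⟨hy.1.le, hy.2⟩)
      simpa using h2)
  simpa using h1

end Pool.Agent.H792R3.Lame
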