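import Pool.Agent.H792R3.LF

set_option autoImplicit false

/-!
The space of Bloch solutions of a separable equation is finite-dimensional; separation of variables.
-/

namespace Pool.Agent.H792R3.Lame

open Complex Filter Topology MeasureTheory
open scoped Real ContDiff Interval

lemma Dx_add {u w : ℝ × ℝ → ℂ} (hu : ContDiff ℝ ∞ u) (hw : ContDiff ℝ ∞ w) :
    Dx (fun p => u p + w p) = fun p => Dx u p + Dx w p := by
  funext ⟨x, y⟩
  exact (Dx_hd (hu.add hw) x y).unique ((Dx_hd hu x y).add (Dx_hd hw x y))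

lemma Dy_add {u w : ℝ × ℝ → ℂ} (hu : ContDiff ℝ ∞ u) (hw : ContDiff ℝ ∞ w) :
    Dy (fun p => u p + w p) = fun p => Dy u p + Dy w p := by
  funext ⟨x, y⟩
  exact (Dy_hd (hu.add hw) x y).unique ((Dy_hd hu x y).add (Dy_hd hw x y))

lemma Dx_smul {u : ℝ × ℝ → ℂ} (hu : ContDiff ℝ ∞ u) (c : ℂ) :
    Dx (fun p => c * u p) = fun p => c * Dx u p := by
  funext ⟨x, y⟩
  exact (Dx_hd (contDiff_const.mul hu) x y).unique ((Dx_hd hu x y).const_mul c)

lemma Dy_smul {u : ℝ × ℝ → ℂ} (hu : ContDiff ℝ ∞ u) (c : ℂ) :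
    Dy (fun p => c * u p) = fun p => c * Dy u p := by
  funext ⟨x, y⟩
  exact (Dy_hd (contDiff_const.mul hu) x y).unique ((Dy_hd hu x y).const_mul c)

/-- a complex function of the second variable -/
lemma sm_snd {V : ℝ → ℂ} (hV : ContDiff ℝ ∞ V) : ContDiff ℝ ∞ (fun p : ℝ × ℝ => V p.2) :=
  hV.comp contDiff_snd
lemma sm_fst {V : ℝ → ℂ} (hV : ContDiff ℝ ∞ V) : ContDiff ℝ ∞ (fun p : ℝ × ℝ => V p.1) :=
  hV.comp contDiff_fst

lemma Dx_muly {V : ℝ → ℂ} (hV : ContDiff ℝ ∞ V) {u : ℝ × ℝ → ℂ} (hu : ContDiff ℝ ∞ u) :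
    Dx (fun p => V p.2 * u p) = fun p => V p.2 * Dx u p := by
  funext ⟨x, y⟩
  exact (Dx_hd ((sm_snd hV).mul hu) x y).unique ((Dx_hd hu x y).const_mul (V y))

lemma Dy_mulx {V : ℝ → ℂ} (hV : ContDiff ℝ ∞ V) {u : ℝ × ℝ → ℂ} (hu : ContDiff ℝ ∞ u) :
    Dy (fun p => V p.1 * u p) = fun p => V p.1 * Dy u p := by
  funext ⟨x, y⟩
  exact (Dy_hd ((sm_fst hV).mul hu) x y).unique ((Dy_hd hu x y).const_mul (V x))

variable {k1 k2 : ℂ}

lemma QP.add {u w : ℝ × ℝ → ℂ} (hu : QP k1 k2 u) (hw : QP k1 k2 w) :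
    QP k1 k2 (fun p => u p + w p) := by
  refine ⟨hu.sm.add hw.sm, fun x y => ?_, fun x y => ?_⟩
  · rw [hu.px, hw.px]; ring
  · rw [hu.py, hw.py]; ring

lemma QP.smul {u : ℝ × ℝ → ℂ} (hu : QP k1 k2 u) (c : ℂ) : QP k1 k2 (fun p => c * u p) := by
  refine ⟨contDiff_const.mul hu.sm, fun x y => ?_, fun x y => ?_⟩
  · rw [hu.px]; ring
  · rw [hu.py]; ring

lemma QP.mulx {V : ℝ → ℂ} (hV : ContDiff ℝ ∞ V) (hp : ∀ x, V (x + 1) = V x) {u : ℝ × ℝ → ℂ}
    (hu : QP k1 k2 u) : QP k1 k2 (fun p => V p.1 * u p) := by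
  refine ⟨(sm_fst hV).mul hu.sm, fun x y => ?_, fun x y => ?_⟩
  · simp only [hu.px, hp]; ring
  · simp only [hu.py]; ring

lemma QP.muly {V : ℝ → ℂ} (hV : ContDiff ℝ ∞ V) (hp : ∀ x, V (x + 1) = V x) {u : ℝ × ℝ → ℂ}
    (hu : QP k1 k2 u) : QP k1 k2 (fun p => V p.2 * u p) := by
  refine ⟨(sm_snd hV).mul hu.sm, fun x y => ?_, fun x y => ?_⟩
  · simp only [hu.px]; ring
  · simp only [hu.py, hp]; ring

/-- the operator in the first variable -/
noncomputable def opA (V : ℝ → ℂ) (u : ℝ × ℝ → ℂ) : ℝ × ℝ → ℂ :=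
  fun p => -1 * Dx (Dx u) p + V p.1 * u p
/-- the operator in the second variable -/
noncomputable def opB (V : ℝ → ℂ) (u : ℝ × ℝ → ℂ) : ℝ × ℝ → ℂ :=
  fun p => -1 * Dy (Dy u) p + V p.2 * u p

lemma opA_add (V : ℝ → ℂ) {u w : ℝ × ℝ → ℂ} (hu : ContDiff ℝ ∞ u) (hw : ContDiff ℝ ∞ w) :
    opA V (fun p => u p + w p) = fun p => opA V u p + opA V w p := by
  funext p
  unfold opA
  rw [Dx_add hu hw, Dx_add (Dx_smooth hu) (Dx_smooth hw)]
  ring

lemma opA_smul (V : ℝ → ℂ) {u : ℝ × ℝ → ℂ} (hu : ContDiff ℝ ∞ u) (c : ℂ) :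
    opA V (fun p => c * u p) = fun p => c * opA V u p := by
  funext p
  unfold opA
  rw [Dx_smul hu, Dx_smul (Dx_smooth hu)]
  ring

lemma opA_QP {V : ℝ → ℂ} (hV : ContDiff ℝ ∞ V) (hp : ∀ x, V (x + 1) = V x) {u : ℝ × ℝ → ℂ}
    (hu : QP k1 k2 u) : QP k1 k2 (opA V u) := (hu.dx.dx.smul (-1)).add (hu.mulx hV hp)

lemma opB_QP {V : ℝ → ℂ} (hV : ContDiff ℝ ∞ V) (hp : ∀ x, V (x + 1) = V x) {u : ℝ × ℝ → ℂ}
    (hu : QP k1 k2 u) : QP k1 k2 (opB V u) := (hu.dy.dy.smul (-1)).add (hu.muly hV hp)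

lemma op_comm {V W : ℝ → ℂ} (hV : ContDiff ℝ ∞ V) (hW : ContDiff ℝ ∞ W) {u : ℝ × ℝ → ℂ}
    (hu : ContDiff ℝ ∞ u) : opA V (opB W u) = opB W (opA V u) := by
  have s1 := Dx_smooth hu
  have s2 := Dx_smooth s1
  have t1 := Dy_smooth hu
  have t2 := Dy_smooth t1
  have h1 : Dx (Dx (Dy (Dy u))) = Dy (Dy (Dx (Dx u))) := by
    rw [Dxy_comm t1, Dxy_comm hu, Dxy_comm (Dy_smooth s1), Dxy_comm s1]
  have e1 : Dx (Dx (opB W u)) = fun p => -1 * Dy (Dy (Dx (Dx u))) p + W p.2 * Dx (Dx u) p := by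
    unfold opB
    rw [Dx_add (contDiff_const.mul t2) ((sm_snd hW).mul hu), Dx_smul t2, Dx_muly hW hu,
      Dx_add (contDiff_const.mul (Dx_smooth t2)) ((sm_snd hW).mul s1), Dx_smul (Dx_smooth t2),
      Dx_muly hW s1, h1]
  have e2 : Dy (Dy (opA V u)) = fun p => -1 * Dy (Dy (Dx (Dx u))) p + V p.1 * Dy (Dy u) p := by
    unfold opA
    rw [Dy_add (contDiff_const.mul s2) ((sm_fst hV).mul hu), Dy_smul s2, Dy_mulx hV hu,
      Dy_add (contDiff_const.mul (Dy_smooth s2)) ((sm_fst hV).mul t1), Dy_smul (Dy_smooth s2),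
      Dy_mulx hV t1]
  funext p
  show -1 * Dx (Dx (opB W u)) p + V p.1 * opB W u p = -1 * Dy (Dy (opA V u)) p + W p.2 * opA V u p
  rw [e1, e2]
  unfold opA opB
  ring

/-- the Bloch space -/
noncomputable def Bl (V W : ℝ → ℂ) (lam k1 k2 : ℂ) : Submodule ℂ (ℝ × ℝ → ℂ) where
  carrier := {u | QP k1 k2 u ∧ ∀ p, opA V u p + opB W u p = lam * u p}
  zero_mem' := by
    have hz : QP k1 k2 (0 : ℝ × ℝ → ℂ) := ⟨contDiff_const, fun _ _ => by simp, fun _ _ => by simp⟩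
    refine ⟨hz, fun p => ?_⟩
    have e0 : (0 : ℝ × ℝ → ℂ) = fun p => (0:ℂ) * (0 : ℝ × ℝ → ℂ) p := by funext q; simp
    have e1 : Dx (0 : ℝ × ℝ → ℂ) = 0 := by
      rw [e0, Dx_smul hz.sm]; funext q; simp
    have e2 : Dy (0 : ℝ × ℝ → ℂ) = 0 := by
      rw [e0, Dy_smul hz.sm]; funext q; simp
    unfold opA opB
    rw [e1, e2, e1, e2]
    simp
  add_mem' := by
    rintro u w ⟨hu1, hu2⟩ ⟨hw1, hw2⟩
    refine ⟨hu1.add hw1, fun p => ?_⟩
    have h1 := hu2 p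
    have h2 := hw2 p
    have e : u + w = fun p => u p + w p := rfl
    rw [e]
    unfold opA opB at *
    rw [Dx_add hu1.sm hw1.sm, Dx_add hu1.dx.sm hw1.dx.sm, Dy_add hu1.sm hw1.sm,
      Dy_add hu1.dy.sm hw1.dy.sm]
    linear_combination h1 + h2
  smul_mem' := by
    rintro c u ⟨hu1, hu2⟩
    refine ⟨hu1.smul c, fun p => ?_⟩
    have h1 := hu2 p
    have e : c • u = fun p => c * u p := rfl
    rw [e]
    unfold opA opB at *
    rw [Dx_smul hu1.sm, Dx_smul hu1.dx.sm, Dy_smul hu1.sm, Dy_smul hu1.dy.sm]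
    linear_combination c * h1

/-- the operator in the first variable acts on the Bloch space -/
noncomputable def Tm {V W : ℝ → ℂ} (hV : ContDiff ℝ ∞ V) (hW : ContDiff ℝ ∞ W)
    (hVp : ∀ x, V (x + 1) = V x) (lam k1 k2 : ℂ) :
    Bl V W lam k1 k2 →ₗ[ℂ] Bl V W lam k1 k2 where
  toFun u := ⟨opA V u.1, opA_QP hV hVp u.2.1, by
    have h := u.2.2
    have hs := u.2.1.sm
    intro p
    have h1 : (fun p => opA V u.1 p + opB W u.1 p) = fun p => lam * u.1 p := funext h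
    have h2 := congrArg (opA V) h1
    have hA : ContDiff ℝ ∞ (opA V u.1) := (opA_QP hV hVp u.2.1).sm
    have hB : ContDiff ℝ ∞ (opB W u.1) :=
      (contDiff_const.mul (Dy_smooth (Dy_smooth hs))).add ((sm_snd hW).mul hs)
    rw [opA_add V hA hB, opA_smul V hs, op_comm hV hW hs] at h2
    exact congrFun h2 p⟩
  map_add' u w := by
    apply Subtype.ext
    exact opA_add V u.2.1.sm w.2.1.sm
  map_smul' c u := by
    apply Subtype.ext
    exact opA_smul V u.2.1.sm c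

lemma fin_box (k1 k2 lam : ℂ) (R : ℝ) :
    {q : ℤ × ℤ | ‖(4 * π ^ 2 * ((q.1 + k1) ^ 2 + (q.2 + k2) ^ 2) - lam : ℂ)‖ < R}.Finite := by
  set C : ℝ := R + |lam.re| + 4 * π ^ 2 * (k1.im ^ 2 + k2.im ^ 2) with hC
  set N : ℤ := ⌈|k1.re| + |k2.re| + |C| + 1⌉ with hN
  apply Set.Finite.subset ((Set.finite_Icc (-N) N).prod (Set.finite_Icc (-N) N))
  rintro ⟨m, n⟩ hq
  have hq' : ‖(4 * π ^ 2 * ((m + k1) ^ 2 + (n + k2) ^ 2) - lam : ℂ)‖ < R := hq
  have h1 := (Complex.re_le_norm _).trans_lt hq'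
  have h2 : (4 * π ^ 2 * ((m + k1) ^ 2 + (n + k2) ^ 2) - lam : ℂ).re =
      4 * π ^ 2 * (((m + k1.re) ^ 2 - k1.im ^ 2) + ((n + k2.re) ^ 2 - k2.im ^ 2)) - lam.re := by
    have e : (4 * π ^ 2 : ℂ) = ((4 * π ^ 2 : ℝ) : ℂ) := by push_cast; ring
    have e3 : ∀ z : ℂ, (z ^ 2).re = z.re ^ 2 - z.im ^ 2 := by
      intro z; rw [sq, Complex.mul_re]; ring
    rw [e, Complex.sub_re, Complex.re_ofReal_mul, Complex.add_re, e3, e3]
    simp only [Complex.add_re, Complex.add_im, Complex.intCast_re, Complex.intCast_im, zero_add]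
  rw [h2] at h1
  have h3 : 4 * π ^ 2 * ((m + k1.re) ^ 2 + (n + k2.re) ^ 2) < C := by
    rw [hC]
    have := le_abs_self lam.re
    nlinarith
  have h4 : (1 : ℝ) ≤ 4 * π ^ 2 := by nlinarith [Real.pi_gt_three]
  have h5 : ((m : ℝ) + k1.re) ^ 2 + (n + k2.re) ^ 2 < C := by
    have : 0 ≤ ((m : ℝ) + k1.re) ^ 2 + (n + k2.re) ^ 2 := by positivity
    nlinarith
  have hNr : |k1.re| + |k2.re| + |C| + 1 ≤ (N : ℝ) := Int.le_ceil _
  have hb : ∀ (a b : ℝ), a ^ 2 < C → |a| < |C| + 1 := by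
    intro a _ ha
    have h0 : |a| ^ 2 < C := by rw [sq_abs]; exact ha
    have := le_abs_self C
    by_contra hcon
    push Not at hcon
    nlinarith [abs_nonneg C, abs_nonneg a]
  have hm := hb (m + k1.re) 0 (by nlinarith [sq_nonneg ((n : ℝ) + k2.re)])
  have hn := hb (n + k2.re) 0 (by nlinarith [sq_nonneg ((m : ℝ) + k1.re)])
  rw [abs_lt] at hm hn
  have a1 := neg_abs_le k1.re
  have a2 := le_abs_self k1.re
  have a3 := neg_abs_le k2.re
  have a4 := le_abs_self k2.re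
  have a5 := abs_nonneg k1.re
  have a6 := abs_nonneg k2.re
  refine ⟨⟨?_, ?_⟩, ⟨?_, ?_⟩⟩
  · have : (-(N : ℝ)) ≤ m := by linarith
    exact_mod_cast this
  · have : (m : ℝ) ≤ N := by linarith
    exact_mod_cast this
  · have : (-(N : ℝ)) ≤ n := by linarith
    exact_mod_cast this
  · have : (n : ℝ) ≤ N := by linarith
    exact_mod_cast this

/-- the Fourier data of a smooth periodic function -/
lemma four_data {V : ℝ → ℂ} (hV : ContDiff ℝ ∞ V) (hp : ∀ x, V (x + 1) = V x) :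
    (Summable fun n : ℤ => ‖fc V n‖) ∧
      ∀ x : ℝ, HasSum (fun n : ℤ => fc V n * cexp (2 * π * I * n * x)) (V x) := by
  have h1 : ContDiff ℝ ∞ (deriv V) := (contDiff_infty_iff_deriv.1 hV).2
  have h2 : ContDiff ℝ ∞ (deriv (deriv V)) := (contDiff_infty_iff_deriv.1 h1).2
  have hs := fc_summable (fun x => (hV.differentiable (by simp) x).hasDerivAt)
    (fun x => (h1.differentiable (by simp) x).hasDerivAt) h2.continuous hp
  exact ⟨hs, fun x => fourier_series hV.continuous hp hs.of_norm x⟩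

lemma Bl_finite {V W : ℝ → ℂ} (hV : ContDiff ℝ ∞ V) (hW : ContDiff ℝ ∞ W)
    (hVp : ∀ x, V (x + 1) = V x) (hWp : ∀ x, W (x + 1) = W x) (lam k1 k2 : ℂ) :
    FiniteDimensional ℂ (Bl V W lam k1 k2) := by
  obtain ⟨hVs, hVf⟩ := four_data hV hVp
  obtain ⟨hWs, hWf⟩ := four_data hW hWp
  set A := ∑' n : ℤ, ‖fc V n‖ with hA
  set B := ∑' n : ℤ, ‖fc W n‖ with hB
  have hA0 : 0 ≤ A := tsum_nonneg fun _ => norm_nonneg _
  have hB0 : 0 ≤ B := tsum_nonneg fun _ => norm_nonneg _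
  set F := {q : ℤ × ℤ | ‖(4 * π ^ 2 * ((q.1 + k1) ^ 2 + (q.2 + k2) ^ 2) - lam : ℂ)‖ < 2 * (A + B) + 1}
    with hF
  have hFf : F.Finite := fin_box k1 k2 lam _
  have : Finite F := hFf
  let Φ : Bl V W lam k1 k2 →ₗ[ℂ] (F → ℂ) :=
    { toFun := fun u q => c2 u.1 (q.1.1 + k1) (q.1.2 + k2)
      map_add' := by
        intro u w
        funext q
        exact c2_add u.2.1.sm.continuous w.2.1.sm.continuous _ _
      map_smul' := by
        intro c u
        funext q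
        exact c2_smul c u.1 _ _ }
  have hinj : Function.Injective Φ := by
    rw [injective_iff_map_eq_zero]
    intro u hu
    apply Subtype.ext
    have hQ := u.2.1
    have hc := hQ.sm.continuous
    apply c2_unique hQ
    -- the equation for the coefficients
    have heq : ∀ m n : ℤ, c2 (fun p => V p.1 * u.1 p) (m + k1) (n + k2) +
        c2 (fun p => W p.2 * u.1 p) (m + k1) (n + k2) =
        -(4 * π ^ 2 * ((m + k1) ^ 2 + (n + k2) ^ 2) - lam) * c2 u.1 (m + k1) (n + k2) := by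
      intro m n
      have hVc : Continuous fun p : ℝ × ℝ => V p.1 * u.1 p := (hQ.mulx hV hVp).sm.continuous
      have hWc : Continuous fun p : ℝ × ℝ => W p.2 * u.1 p := (hQ.muly hW hWp).sm.continuous
      have hxx := hQ.dx.dx.sm.continuous
      have hyy := hQ.dy.dy.sm.continuous
      rw [← c2_add hVc hWc]
      have e : (fun p => V p.1 * u.1 p + W p.2 * u.1 p) =
          fun p => lam * u.1 p + (Dx (Dx u.1) p + Dy (Dy u.1) p) := by
        funext p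
        have := u.2.2 p
        unfold opA opB at this
        linear_combination this
      rw [e, c2_add (u := fun p => lam * u.1 p) (w := fun p => Dx (Dx u.1) p + Dy (Dy u.1) p)
        (continuous_const.mul hc) (hxx.add hyy), c2_add hxx hyy, c2_smul, c2_xx hQ,
        c2_yy hQ]
      ring
    have hstep : ∀ S : ℝ, (∀ m n : ℤ, ‖c2 u.1 (m + k1) (n + k2)‖ ≤ S) →
        ∀ m n : ℤ, ‖c2 u.1 (m + k1) (n + k2)‖ ≤ S / 2 := by
      intro S hS m n
      have hS0 : 0 ≤ S := (norm_nonneg _).trans (hS 0 0)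
      by_cases hmn : (m, n) ∈ F
      · have : c2 u.1 (m + k1) (n + k2) = 0 := congrFun hu ⟨(m, n), hmn⟩
        rw [this, norm_zero]
        positivity
      · have h1 : 2 * (A + B) + 1 ≤ ‖(4 * π ^ 2 * ((m + k1) ^ 2 + (n + k2) ^ 2) - lam : ℂ)‖ := by
          by_contra hcon
          push Not at hcon
          exact hmn hcon
        have h2 := c2_Vx hVs hVf hV.continuous hc k1 (n + k2) S m (fun m => hS m n)
        have h3 := c2_Vy hWs hWf hW.continuous hc k2 (m + k1) S n (fun n => hS m n)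
        have h4 := congrArg norm (heq m n)
        rw [norm_mul, norm_neg] at h4
        have h5 := norm_add_le (c2 (fun p => V p.1 * u.1 p) (m + k1) (n + k2))
          (c2 (fun p => W p.2 * u.1 p) (m + k1) (n + k2))
        rw [h4] at h5
        have h6 : ‖c2 u.1 (m + k1) (n + k2)‖ * (2 * (A + B) + 1) ≤ (A + B) * S := by
          have h7 := mul_le_mul_of_nonneg_right h1 (norm_nonneg (c2 u.1 (m + k1) (n + k2)))
          calc ‖c2 u.1 (m + k1) (n + k2)‖ * (2 * (A + B) + 1) =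
              (2 * (A + B) + 1) * ‖c2 u.1 (m + k1) (n + k2)‖ := by ring
            _ ≤ _ := h7
            _ ≤ _ := h5
            _ ≤ A * S + B * S := add_le_add h2 h3
            _ = (A + B) * S := by ring
        have h8 : 0 ≤ ‖c2 u.1 (m + k1) (n + k2)‖ := norm_nonneg _
        by_contra hcon
        push Not at hcon
        nlinarith
    obtain ⟨S, hS⟩ := c2_bdd hc k1 k2
    have hall : ∀ j : ℕ, ∀ m n : ℤ, ‖c2 u.1 (m + k1) (n + k2)‖ ≤ S / 2 ^ j := by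
      intro j
      induction j with
      | zero => simpa using hS
      | succ j ih =>
        intro m n
        have := hstep _ ih m n
        rw [pow_succ, ← div_div]
        exact this
    intro m n
    have ht : Tendsto (fun j : ℕ => S / 2 ^ j) atTop (𝓝 0) := by
      have := (tendsto_pow_atTop_nhds_zero_of_lt_one (r := (1/2:ℝ)) (by norm_num) (by norm_num)).const_mul S
      rw [mul_zero] at this
      refine this.congr fun j => ?_
      rw [one_div, inv_pow]; rfl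
    have := ge_of_tendsto' ht (fun j => hall j m n)
    exact norm_le_zero_iff.1 this
  exact FiniteDimensional.of_injective Φ hinj

/-- separation of variables -/
theorem separation {V W : ℝ → ℂ} (hV : ContDiff ℝ ∞ V) (hW : ContDiff ℝ ∞ W)
    (hVp : ∀ x, V (x + 1) = V x) (hWp : ∀ x, W (x + 1) = W x) {lam k1 k2 : ℂ}
    {u : ℝ × ℝ → ℂ} (hu : u ∈ Bl V W lam k1 k2) (hu0 : u ≠ 0) :
    ∃ (mu : ℂ) (f f' g g' : ℝ → ℂ),
      (∀ x, HasDerivAt f (f' x) x) ∧ (∀ x, HasDerivAt f' ((V x - mu) * f x) x) ∧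
      (∀ x, f (x + 1) = cexp (2 * π * I * k1) * f x) ∧ (∃ x, f x ≠ 0) ∧
      (∀ x, HasDerivAt g (g' x) x) ∧ (∀ x, HasDerivAt g' ((W x - (lam - mu)) * g x) x) ∧
      (∀ x, g (x + 1) = cexp (2 * π * I * k2) * g x) ∧ (∃ x, g x ≠ 0) := by
  have hfin := Bl_finite hV hW hVp hWp lam k1 k2
  have hnt : Nontrivial (Bl V W lam k1 k2) :=
    ⟨⟨⟨u, hu⟩, 0, fun h => hu0 (congrArg Subtype.val h)⟩⟩
  obtain ⟨mu, hmu⟩ := Module.End.exists_eigenvalue (Tm hV hW hVp lam k1 k2)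
  obtain ⟨v, hv⟩ := hmu.exists_hasEigenvector
  have hv1 : Tm hV hW hVp lam k1 k2 v = mu • v := hv.apply_eq_smul
  have hA : ∀ p, opA V v.1 p = mu * v.1 p := by
    intro p
    have := congrArg Subtype.val hv1
    exact congrFun this p
  have hv0 : v.1 ≠ 0 := fun h => hv.2 (Subtype.ext h)
  obtain ⟨⟨x0, y0⟩, hp0⟩ := Function.ne_iff.1 hv0
  have hQ := v.2.1
  refine ⟨mu, fun x => v.1 (x, y0), fun x => Dx v.1 (x, y0), fun y => v.1 (x0, y),
    fun y => Dy v.1 (x0, y), fun x => Dx_hd hQ.sm x y0, ?_, fun x => hQ.px x y0, ⟨x0, hp0⟩,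
    fun y => Dy_hd hQ.sm x0 y, ?_, fun y => hQ.py x0 y, ⟨y0, hp0⟩⟩
  · intro x
    refine (Dx_hd hQ.dx.sm x y0).congr_deriv ?_
    have := hA (x, y0)
    unfold opA at this
    linear_combination -this
  · intro y
    refine (Dy_hd hQ.dy.sm x0 y).congr_deriv ?_
    have h1 := hA (x0, y)
    have h2 := v.2.2 (x0, y)
    rw [h1] at h2
    unfold opB at h2
    linear_combination -h2

end Pool.Agent.H792R3.Lame
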