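import Pool.Agent.H792R3.LC
import Pool.Agent.H792R3.LD
import Pool.Agent.H792R3.LG

set_option autoImplicit false

/-!
The two pieces of the zero energy Fermi variety of the double Lame potential.
-/

namespace Pool.Agent.H792R3.Lame

open Complex Filter Topology
open scoped Real ContDiff

lemma ze_lat (m n : ℤ) : ∀ z, sg z ≠ 0 → sg (z + (m + n * I)) ≠ 0 ∧
    ze (z + (m + n * I)) = ze z + π * (m - n * I) := by
  have h := lat_ind (fun l => ∀ z, sg z ≠ 0 → sg (z + l) ≠ 0 ∧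
    ze (z + l) = ze z + π * starRingEnd ℂ l) ?_ ?_ ?_ m n
  · intro z hz
    have h2 := h z hz
    simp only [map_add, map_mul, map_intCast, Complex.conj_I] at h2
    refine ⟨h2.1, ?_⟩
    rw [h2.2]
    ring
  · intro l
    constructor
    · intro h z hz
      have h1 := h z hz
      rw [← add_assoc, sg_one] at h1
      have h2 : sg (z + l) ≠ 0 := fun h0 => h1.1 (by rw [h0, mul_zero])
      refine ⟨h2, ?_⟩
      have h3 := h1.2
      rw [ze_one _ h2, map_add, map_one] at h3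
      linear_combination h3
    · intro h z hz
      have h1 := h z hz
      rw [← add_assoc, sg_one, ze_one _ h1.1, h1.2, map_add, map_one]
      refine ⟨mul_ne_zero (m1_ne _) h1.1, ?_⟩
      ring
  · intro l
    constructor
    · intro h z hz
      have h1 := h z hz
      rw [← add_assoc, sg_I] at h1
      have h2 : sg (z + l) ≠ 0 := fun h0 => h1.1 (by rw [h0, mul_zero])
      refine ⟨h2, ?_⟩
      have h3 := h1.2
      rw [ze_I _ h2, map_add, Complex.conj_I] at h3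
      linear_combination h3
    · intro h z hz
      have h1 := h z hz
      rw [← add_assoc, sg_I, ze_I _ h1.1, h1.2, map_add, Complex.conj_I]
      refine ⟨mul_ne_zero (mI_ne _) h1.1, ?_⟩
      ring
  · intro z hz
    simp [hz]

/-- the first piece -/
def Zp : Set (ℂ × ℂ) := {k | s1 (k.2 + I * k.1) = π * (k.2 - I * k.1) * sg (k.2 + I * k.1)}
/-- the second piece -/
def Zm : Set (ℂ × ℂ) := {k | s1 (k.2 - I * k.1) = π * (k.2 + I * k.1) * sg (k.2 - I * k.1)}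

lemma pre_iff {b c : ℂ} : s1 b = c * sg b ↔ sg b ≠ 0 ∧ ze b = c := by
  constructor
  · intro h
    have h0 : sg b ≠ 0 := by
      intro h0
      rw [h0, mul_zero] at h
      exact dsg_ne b h0 h
    refine ⟨h0, ?_⟩
    unfold ze
    rw [h]
    field_simp
  · rintro ⟨h0, h⟩
    rw [← h]
    unfold ze
    field_simp

lemma mem_Zp {k : ℂ × ℂ} : k ∈ Zp ↔ sg (k.2 + I * k.1) ≠ 0 ∧
    ze (k.2 + I * k.1) = π * (k.2 - I * k.1) := pre_iff

lemma mem_Zm {k : ℂ × ℂ} : k ∈ Zm ↔ sg (k.2 - I * k.1) ≠ 0 ∧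
    ze (k.2 - I * k.1) = π * (k.2 + I * k.1) := pre_iff

lemma Zp_inv (k : ℂ × ℂ) (hk : k ∈ Zp) (n : ℤ × ℤ) : (k.1 + n.1, k.2 + n.2) ∈ Zp := by
  rw [mem_Zp] at hk ⊢
  have h := ze_lat n.2 n.1 _ hk.1
  simp only
  rw [show k.2 + n.2 + I * (k.1 + n.1) = k.2 + I * k.1 + (n.2 + n.1 * I) by ring]
  refine ⟨h.1, ?_⟩
  rw [h.2, hk.2]
  ring

lemma Zm_inv (k : ℂ × ℂ) (hk : k ∈ Zm) (n : ℤ × ℤ) : (k.1 + n.1, k.2 + n.2) ∈ Zm := by
  rw [mem_Zm] at hk ⊢
  have h := ze_lat n.2 (-n.1) _ hk.1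
  simp only
  rw [show k.2 + n.2 - I * (k.1 + n.1) = k.2 - I * k.1 + (n.2 + ((-n.1 : ℤ) : ℂ) * I) by
    push_cast; ring]
  refine ⟨h.1, ?_⟩
  rw [h.2, hk.2]
  push_cast
  ring

lemma Zm_iff (k : ℂ × ℂ) : k ∈ Zm ↔ (k.1, -k.2) ∈ Zp := by
  rw [mem_Zm, mem_Zp]
  simp only
  rw [show -k.2 + I * k.1 = -(k.2 - I * k.1) by ring, sg_neg, ze_neg,
    show (π : ℂ) * (-k.2 - I * k.1) = -(π * (k.2 + I * k.1)) by ring, neg_ne_zero, neg_inj]

/-- from multipliers to the first piece -/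
lemma Zp_of {k1 k2 a : ℂ} (ha : sg a ≠ 0) (h1 : cexp (2 * π * I * k1) = cexp (ze a - π * a))
    (h2 : cexp (2 * π * I * k2) = cexp (ze (I * a) - π * (I * a))) : (k1, k2) ∈ Zp := by
  obtain ⟨n1, hn1⟩ := Complex.exp_eq_exp_iff_exists_int.1 h1
  obtain ⟨n2, hn2⟩ := Complex.exp_eq_exp_iff_exists_int.1 h2
  rw [ze_rot] at hn2
  have hpi : (2 * π * I : ℂ) ≠ 0 := Complex.two_pi_I_ne_zero
  have hpi2 : (π : ℂ) ≠ 0 := Complex.ofReal_ne_zero.2 Real.pi_ne_zero
  have hI := Complex.I_mul_I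
  have hb : k2 + I * k1 = -a + (n2 + n1 * I) := by
    apply mul_left_cancel₀ hpi
    linear_combination hn2 + I * hn1
  have hc : (π : ℂ) * (k2 - I * k1) = -ze a + π * (n2 - n1 * I) := by
    have h3 : (2 * I : ℂ) ≠ 0 := mul_ne_zero two_ne_zero Complex.I_ne_zero
    apply mul_left_cancel₀ h3
    linear_combination hn2 - I * hn1
  rw [mem_Zp]
  simp only
  have hna : sg (-a) ≠ 0 := by rw [sg_neg]; exact neg_ne_zero.2 ha
  have h := ze_lat n2 n1 (-a) hna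
  rw [hb, hc]
  refine ⟨h.1, ?_⟩
  rw [h.2, ze_neg]

lemma vv_bdd : ∃ B : ℝ, ∀ x, ‖(vv x : ℂ)‖ ≤ B := by
  obtain ⟨B, hB⟩ : ∃ B, ∀ x ∈ Set.Icc (0:ℝ) 1, ‖vv x‖ ≤ B :=
    isCompact_Icc.exists_bound_of_continuousOn vv_smooth.continuous.continuousOn
  refine ⟨B, fun x => ?_⟩
  rw [Complex.norm_real]
  have hp : Function.Periodic vv 1 := vv_per
  obtain ⟨y, hy, hxy⟩ := hp.exists_mem_Ico₀ one_pos x
  rw [hxy]
  exact hB y ⟨hy.1, hy.2.le⟩

lemma psi_sys (a : ℂ) (ha : sg a ≠ 0) :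
    (∀ x, HasDerivAt (psi a) (deriv (psi a) x) x) ∧
    (∀ x, HasDerivAt (deriv (psi a)) (((vv x : ℂ) - (-wp a)) * psi a x) x) := by
  have h0 := psi_smooth a
  have h1 : ContDiff ℝ ∞ (deriv (psi a)) := (contDiff_infty_iff_deriv.1 h0).2
  refine ⟨fun x => (h0.differentiable (by simp) x).hasDerivAt, fun x => ?_⟩
  refine ((h1.differentiable (by simp) x).hasDerivAt).congr_deriv ?_
  linear_combination -(psi_lame a ha x)

/-- every Bloch function lies over one of the two pieces -/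
theorem Fermi_sub {k1 k2 : ℂ} {u : ℝ × ℝ → ℂ}
    (hu : u ∈ Bl (fun x => (vv x : ℂ)) (fun x => (vv x : ℂ)) 0 k1 k2) (hu0 : u ≠ 0) :
    (k1, k2) ∈ Zp ∪ Zm := by
  have hV : ContDiff ℝ ∞ (fun x => (vv x : ℂ)) := Complex.ofRealCLM.contDiff.comp vv_smooth
  have hVp : ∀ x, (fun x => (vv x : ℂ)) (x + 1) = (fun x => (vv x : ℂ)) x := by
    intro x; simp only [vv_per]
  obtain ⟨mu, f, f', g, g', hf1, hf2, hf3, hf4, hg1, hg2, hg3, hg4⟩ :=
    separation hV hV hVp hVp hu hu0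
  obtain ⟨a0, ha0, hwa0⟩ := wp_surj (-mu)
  obtain ⟨B, hB⟩ := vv_bdd
  -- choose the sign
  obtain ⟨a, ha, hwa, hk1⟩ : ∃ a, sg a ≠ 0 ∧ wp a = -mu ∧
      cexp (2 * π * I * k1) = cexp (ze a - π * a) := by
    obtain ⟨p1, p2⟩ := psi_sys a0 ha0
    have hb : ∀ x, ‖((vv x : ℂ) - (-wp a0))‖ ≤ B + ‖wp a0‖ := fun x => by
      refine (norm_sub_le _ _).trans ?_
      rw [norm_neg]
      linarith [hB x]
    have := mult_unique hb p1 p2 (g := f) (g' := f') hf1
      (fun x => by rw [hwa0, neg_neg]; exact hf2 x) (psi_mult a0) hf3 (psi_ne a0) hf4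
    rcases this with h | h
    · exact ⟨a0, ha0, hwa0, h⟩
    · refine ⟨-a0, by rw [sg_neg]; exact neg_ne_zero.2 ha0, by rw [wp_neg]; exact hwa0, ?_⟩
      rw [ze_neg, show -ze a0 - π * -a0 = -(ze a0 - π * a0) by ring, Complex.exp_neg]
      exact eq_inv_of_mul_eq_one_right h
  have hIa : sg (I * a) ≠ 0 := by rw [sg_rot]; exact mul_ne_zero Complex.I_ne_zero ha
  obtain ⟨p1, p2⟩ := psi_sys (I * a) hIa
  have hb : ∀ x, ‖((vv x : ℂ) - (-wp (I * a)))‖ ≤ B + ‖wp (I * a)‖ := fun x => by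
    refine (norm_sub_le _ _).trans ?_
    rw [norm_neg]
    linarith [hB x]
  have := mult_unique hb p1 p2 (g := g) (g' := g') hg1
    (fun x => by
      rw [wp_rot, hwa, neg_neg]
      have := hg2 x
      rw [zero_sub] at this
      exact this) (psi_mult (I * a)) hg3 (psi_ne (I * a)) hg4
  rcases this with h | h
  · left
    exact Zp_of ha hk1 h
  · right
    rw [Zm_iff]
    refine Zp_of ha hk1 ?_
    rw [show (2 * π * I * -k2 : ℂ) = -(2 * π * I * k2) by ring, Complex.exp_neg]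
    exact inv_eq_of_mul_eq_one_left h

/-- Bloch functions over the two pieces -/
theorem sup_Fermi {k1 k2 : ℂ} (hk : (k1, k2) ∈ Zp ∪ Zm) :
    ∃ f g : ℝ → ℂ, ContDiff ℝ ∞ f ∧ ContDiff ℝ ∞ g ∧ (∃ x, f x ≠ 0) ∧ (∃ y, g y ≠ 0) ∧
      (∀ x, f (x + 1) = cexp (2 * π * I * k1) * f x) ∧
      (∀ y, g (y + 1) = cexp (2 * π * I * k2) * g y) ∧
      ∃ mu : ℂ, (∀ x, -(deriv (deriv f) x) + vv x * f x = mu * f x) ∧
        ∀ y, -(deriv (deriv g) y) + vv y * g y = -mu * g y := by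
  have key : ∀ k2 : ℂ, (k1, k2) ∈ Zp → ∃ a, sg a ≠ 0 ∧ cexp (2 * π * I * k1) = cexp (ze a - π * a) ∧
      cexp (2 * π * I * k2) = cexp (ze (I * a) - π * (I * a)) := by
    intro k2 hk
    rw [mem_Zp] at hk
    simp only at hk
    have hI := Complex.I_mul_I
    refine ⟨-(k2 + I * k1), by rw [sg_neg]; exact neg_ne_zero.2 hk.1, ?_, ?_⟩
    · rw [ze_neg, hk.2]
      congr 1
      ring
    · rw [ze_rot, ze_neg, hk.2]
      congr 1
      ring
  rcases hk with hk | hk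
  · obtain ⟨a, ha, e1, e2⟩ := key k2 hk
    have hIa : sg (I * a) ≠ 0 := by rw [sg_rot]; exact mul_ne_zero Complex.I_ne_zero ha
    refine ⟨psi a, psi (I * a), psi_smooth _, psi_smooth _, psi_ne _, psi_ne _, ?_, ?_, -wp a,
      psi_lame a ha, ?_⟩
    · rw [e1]; exact psi_mult a
    · rw [e2]; exact psi_mult (I * a)
    · have := psi_lame (I * a) hIa
      rwa [wp_rot] at this
  · rw [Zm_iff] at hk
    obtain ⟨a, ha, e1, e2⟩ := key (-k2) hk
    have hIa : sg (-(I * a)) ≠ 0 := by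
      rw [sg_neg, sg_rot]; exact neg_ne_zero.2 (mul_ne_zero Complex.I_ne_zero ha)
    refine ⟨psi a, psi (-(I * a)), psi_smooth _, psi_smooth _, psi_ne _, psi_ne _, ?_, ?_, -wp a,
      psi_lame a ha, ?_⟩
    · rw [e1]; exact psi_mult a
    · have e3 : cexp (2 * π * I * k2) = cexp (ze (-(I * a)) - π * (-(I * a))) := by
        rw [ze_neg, show -ze (I * a) - π * -(I * a) = -(ze (I * a) - π * (I * a)) by ring,
          Complex.exp_neg, ← e2, show (2 * π * I * -k2 : ℂ) = -(2 * π * I * k2) by ring,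
          Complex.exp_neg, inv_inv]
      rw [e3]; exact psi_mult (-(I * a))
    · have := psi_lame (-(I * a)) hIa
      rwa [wp_neg, wp_rot] at this

end Pool.Agent.H792R3.Lame
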