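import Mathlib

set_option autoImplicit false

/-!
A limit-periodic potential on `ℤ` with an explicit square summable solution.
-/

namespace Pool.Agent.H792R3

/-- distance to the nearest multiple of `q` -/
def dst (q n : ℤ) : ℤ := min (n % q) (q - n % q)

/-- the slope of `dst` -/
def slp (h n : ℤ) : ℤ := if n % (2 * h) < h then 1 else -1

lemma dst_succ {h : ℤ} (hh : 0 < h) (n : ℤ) : dst (2 * h) (n + 1) = dst (2 * h) n + slp h n := by
  have h1 := Int.emod_nonneg n (show (2 * h) ≠ 0 by omega)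
  have h2 := Int.emod_lt_of_pos n (show 0 < 2 * h by omega)
  unfold dst slp
  set r := n % (2 * h) with hr
  have h3 : (n + 1) % (2 * h) = if r + 1 < 2 * h then r + 1 else 0 := by
    rw [Int.add_emod, ← hr]
    by_cases h1' : h = 0
    · omega
    · have : (1 : ℤ) % (2 * h) = 1 := Int.emod_eq_of_lt (by norm_num) (by omega)
      rw [this]
      split_ifs with hc
      · exact Int.emod_eq_of_lt (by omega) hc
      · have : r + 1 = 2 * h := by omega
        rw [this, Int.emod_self]
  rw [h3]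
  split_ifs <;> omega

lemma dst_nonneg {q : ℤ} (hq : 0 < q) (n : ℤ) : 0 ≤ dst q n := by
  have h1 := Int.emod_nonneg n hq.ne'
  have h2 := Int.emod_lt_of_pos n hq
  unfold dst
  omega

lemma dst_zero {q : ℤ} (hq : 0 < q) : dst q 0 = 0 := by
  unfold dst
  simp
  omega

lemma dst_small {h n : ℤ} (hh : 0 < h) (hn : |n| ≤ h) : dst (2 * h) n = |n| := by
  unfold dst
  rcases le_or_gt 0 n with h0 | h0
  · rw [abs_of_nonneg h0] at hn ⊢
    rw [Int.emod_eq_of_lt h0 (by omega)]
    omega
  · rw [abs_of_neg h0] at hn ⊢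
    have : n % (2 * h) = n + 2 * h := by
      rw [← Int.add_emod_right, Int.emod_eq_of_lt (by omega) (by omega)]
    rw [this]
    omega

lemma dst_le {h : ℤ} (hh : 0 < h) (n : ℤ) : dst (2 * h) n ≤ |n| := by
  by_cases hn : |n| ≤ h
  · exact (dst_small hh hn).le
  · have h1 := Int.emod_nonneg n (show (2 * h) ≠ 0 by omega)
    have h2 := Int.emod_lt_of_pos n (show 0 < 2 * h by omega)
    unfold dst
    omega

/-- half periods -/
def hp (k : ℕ) : ℤ := 8 * 16 ^ k

lemma hp_pos (k : ℕ) : 0 < hp k := by unfold hp; positivity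

/-- amplitudes -/
noncomputable def amp (k : ℕ) : ℝ := (1 / 2) ^ (k + 1)

lemma amp_pos (k : ℕ) : 0 < amp k := by unfold amp; positivity

lemma amp_summable : Summable amp := by
  unfold amp
  simp_rw [pow_succ]
  exact (summable_geometric_of_lt_one (by norm_num) (by norm_num)).mul_right _

/-- the exponent -/
noncomputable def hgt (n : ℤ) : ℝ := ∑' k, amp k * (dst (2 * hp k) n : ℝ)

lemma hgt_summable (n : ℤ) : Summable fun k => amp k * (dst (2 * hp k) n : ℝ) := by
  refine Summable.of_nonneg_of_le (fun k => ?_) (fun k => ?_) (amp_summable.mul_right (|n| : ℝ))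
  · have := dst_nonneg (show 0 < 2 * hp k by have := hp_pos k; omega) n
    have h2 := (amp_pos k).le
    exact mul_nonneg h2 (by exact_mod_cast this)
  · have := dst_le (hp_pos k) n
    apply mul_le_mul_of_nonneg_left _ (amp_pos k).le
    exact_mod_cast this

/-- the sum of the slopes -/
noncomputable def phi (n : ℤ) : ℝ := ∑' k, amp k * (slp (hp k) n : ℝ)

lemma slp_abs (h n : ℤ) : |(slp h n : ℝ)| = 1 := by
  unfold slp; split_ifs <;> simp

lemma phi_summable (n : ℤ) : Summable fun k => amp k * (slp (hp k) n : ℝ) := by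
  apply Summable.of_norm
  simp_rw [norm_mul, Real.norm_eq_abs, slp_abs, mul_one, abs_of_pos (amp_pos _)]
  exact amp_summable

lemma hgt_succ (n : ℤ) : hgt (n + 1) = hgt n + phi n := by
  unfold hgt phi
  rw [← (hgt_summable n).tsum_add (phi_summable n)]
  congr 1
  ext k
  rw [dst_succ (hp_pos k)]
  push_cast
  ring

lemma hgt_lower (n : ℤ) (hn : n ≠ 0) : Real.exp (-hgt n) ^ 2 ≤ 4000 * (1 / (n : ℝ) ^ 2) := by
  set N : ℕ := 2 * n.natAbs with hN
  set k := Nat.log 16 N with hk
  have hN0 : N ≠ 0 := by omega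
  have h1 : 16 ^ k ≤ N := Nat.pow_log_le_self 16 hN0
  have h2 : N < 16 ^ (k + 1) := Nat.lt_pow_succ_log_self (by norm_num) N
  have ha : |n| = n.natAbs := Int.abs_eq_natAbs n
  have h2' : |n| ≤ hp k := by
    unfold hp
    rw [ha]
    have : (N : ℤ) < 16 ^ (k + 1) := by exact_mod_cast h2
    rw [pow_succ] at this
    push_cast [hN] at this
    omega
  have h1' : (16 : ℝ) ^ k ≤ 2 * |(n : ℝ)| := by
    have : (16 : ℤ) ^ k ≤ 2 * |n| := by
      have : ((16 ^ k : ℕ) : ℤ) ≤ N := by exact_mod_cast h1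
      push_cast [hN] at this
      exact this
    exact_mod_cast this
  have h2'' : |(n : ℝ)| ≤ 8 * 16 ^ k := by
    unfold hp at h2'
    exact_mod_cast h2'
  have h3 : amp k * |(n : ℝ)| ≤ hgt n := by
    have h4 : amp k * (dst (2 * hp k) n : ℝ) ≤ hgt n := by
      apply (hgt_summable n).le_tsum k
      intro j _
      have := dst_nonneg (show 0 < 2 * hp j by have := hp_pos j; omega) n
      exact mul_nonneg (amp_pos j).le (by exact_mod_cast this)
    rw [dst_small (hp_pos k) h2'] at h4
    exact_mod_cast h4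
  have h4 : (8 : ℝ) ^ k / 4 ≤ hgt n := by
    refine le_trans ?_ h3
    unfold amp
    calc (8 : ℝ) ^ k / 4 = (1 / 2) ^ (k + 1) * (16 ^ k / 2) := by
          rw [show (8 : ℝ) = (1 / 2) * 16 by norm_num, mul_pow, pow_succ]; ring
      _ ≤ (1 / 2) ^ (k + 1) * |(n : ℝ)| := by
          apply mul_le_mul_of_nonneg_left _ (by positivity)
          linarith
  have h5 : Real.exp (-hgt n) ^ 2 ≤ Real.exp (-(8 ^ k / 2)) := by
    rw [← Real.exp_nat_mul]
    apply Real.exp_le_exp.2
    push_cast
    linarith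
  have h6 : (8 : ℝ) ^ k / 2 * (8 ^ k / 2) * (8 ^ k / 2) / 6 ≤ Real.exp (8 ^ k / 2) := by
    have := Real.pow_div_factorial_le_exp ((8 : ℝ) ^ k / 2) (by positivity) 3
    refine le_trans (le_of_eq ?_) this
    norm_num [Nat.factorial]
    ring
  have h7 : (n : ℝ) ^ 2 ≤ 64 * 256 ^ k := by
    have : (n : ℝ) ^ 2 = |(n : ℝ)| ^ 2 := (sq_abs _).symm
    rw [this]
    calc |(n : ℝ)| ^ 2 ≤ (8 * 16 ^ k) ^ 2 := by gcongr
      _ = 64 * 256 ^ k := by
        rw [mul_pow, ← pow_mul, mul_comm k 2, pow_mul]; norm_num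
  have h8 : (256 : ℝ) ^ k / 48 ≤ Real.exp (8 ^ k / 2) := by
    refine le_trans ?_ h6
    have e1 : (8 : ℝ) ^ k / 2 * (8 ^ k / 2) * (8 ^ k / 2) / 6 = 512 ^ k / 48 := by
      rw [show (512 : ℝ) = 8 * 8 * 8 by norm_num, mul_pow, mul_pow]; ring
    rw [e1]
    have : (256 : ℝ) ^ k ≤ 512 ^ k := by gcongr; norm_num
    linarith
  have hn2 : (0 : ℝ) < (n : ℝ) ^ 2 := by positivity
  refine h5.trans ?_
  rw [Real.exp_neg, mul_one_div, inv_eq_one_div, div_le_div_iff₀ (Real.exp_pos _) hn2]
  have : 1 * (n : ℝ) ^ 2 ≤ 64 * 256 ^ k := by linarith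
  linarith

/-- the square summable solution -/
noncomputable def psi (n : ℤ) : ℝ := Real.exp (-hgt n)

lemma psi_sq_summable : Summable fun n : ℤ => psi n ^ 2 := by
  have h1 : Summable fun n : ℤ => 4000 * (1 / (n : ℝ) ^ 2) :=
    (Real.summable_one_div_int_pow.2 (by norm_num)).mul_left _
  apply Summable.of_norm_bounded_eventually h1
  rw [Filter.eventually_cofinite]
  apply (Set.finite_singleton (0 : ℤ)).subset
  intro n hn
  by_contra h0
  apply hn
  simp only [Set.mem_singleton_iff] at h0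
  rw [Real.norm_of_nonneg (by positivity)]
  exact hgt_lower n h0

/-- the potential -/
noncomputable def pot (n : ℤ) : ℝ := -Real.exp (-phi n) - Real.exp (phi (n - 1))

lemma psi_eq (n : ℤ) : psi (n + 1) + psi (n - 1) + pot n * psi n = 0 := by
  have h1 : psi (n + 1) = psi n * Real.exp (-phi n) := by
    unfold psi
    rw [hgt_succ, ← Real.exp_add]; congr 1; ring
  have h2 : psi (n - 1) = psi n * Real.exp (phi (n - 1)) := by
    unfold psi
    have := hgt_succ (n - 1)
    rw [sub_add_cancel] at this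
    rw [this, ← Real.exp_add]; congr 1; ring
  rw [h1, h2]
  unfold pot
  ring

end Pool.Agent.H792R3
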