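import Mathlib
import Pool.Agent.H792R3.LP
import Pool.Agent.H792R3.Gordon

set_option autoImplicit false

/-!
The sampling function on the 2-adic integers and the point with the Gordon property.
-/

namespace Pool.Agent.H792R3

instance fact2 : Fact (Nat.Prime 2) := ⟨Nat.prime_two⟩

/-- residue of a 2-adic integer modulo `2 * hp k = 16 ^ (k+1) = 2 ^ (4 * (k+1))` -/
noncomputable def res (k : ℕ) (x : ℤ_[2]) : ℤ := ((PadicInt.toZModPow (4 * (k + 1)) x).val : ℤ)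

lemma two_hp (k : ℕ) : 2 * hp k = ((2 ^ (4 * (k + 1)) : ℕ) : ℤ) := by
  unfold hp
  push_cast
  rw [pow_mul, pow_succ]
  norm_num
  ring

/-- slope at a 2-adic integer -/
noncomputable def sl (k : ℕ) (x : ℤ_[2]) : ℝ := if res k x < hp k then 1 else -1

lemma sl_abs (k : ℕ) (x : ℤ_[2]) : ‖sl k x‖ = 1 := by
  unfold sl; split_ifs <;> simp

lemma res_int (k : ℕ) (n : ℤ) : res k (n : ℤ_[2]) = n % (2 * hp k) := by
  unfold res
  rw [map_intCast, ZMod.val_intCast, two_hp]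

lemma sl_int (k : ℕ) (n : ℤ) : sl k (n : ℤ_[2]) = slp (hp k) n := by
  unfold sl slp
  rw [res_int]
  split_ifs <;> simp

lemma res_congr (k : ℕ) {x y : ℤ_[2]} (h : ‖x - y‖ ≤ (2 : ℝ) ^ (-(4 * (k + 1) : ℕ) : ℤ)) :
    res k x = res k y := by
  have h1 : x - y ∈ (Ideal.span {(2 : ℤ_[2]) ^ (4 * (k + 1))} : Ideal ℤ_[2]) := by
    have := (PadicInt.norm_le_pow_iff_mem_span_pow (p := 2) (x - y) (4 * (k + 1))).1
      (by exact_mod_cast h)
    exact_mod_cast this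
  have h2 : PadicInt.toZModPow (4 * (k + 1)) (x - y) = 0 := by
    have h3 := PadicInt.ker_toZModPow (p := 2) (4 * (k + 1))
    have h4 : x - y ∈ RingHom.ker (PadicInt.toZModPow (p := 2) (4 * (k + 1))) := by
      rw [h3]; exact_mod_cast h1
    exact h4
  rw [map_sub, sub_eq_zero] at h2
  unfold res
  rw [h2]

lemma continuous_sl (k : ℕ) : Continuous (sl k) := by
  have : IsLocallyConstant (sl k) := by
    rw [IsLocallyConstant.iff_eventually_eq]
    intro x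
    have hpos : (0 : ℝ) < (2 : ℝ) ^ (-(4 * (k + 1) : ℕ) : ℤ) := by positivity
    filter_upwards [Metric.ball_mem_nhds x hpos] with y hy
    unfold sl
    rw [res_congr k (x := y) (y := x)]
    rw [← dist_eq_norm]
    exact (Metric.mem_ball.1 hy).le
  exact this.continuous

/-- `Phi x = ∑ amp k * sl k x` -/
noncomputable def Phi (x : ℤ_[2]) : ℝ := ∑' k, amp k * sl k x

lemma Phi_int (n : ℤ) : Phi (n : ℤ_[2]) = phi n := by
  unfold Phi phi
  simp_rw [sl_int]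

lemma continuous_Phi : Continuous Phi := by
  unfold Phi
  apply continuous_tsum (fun k => continuous_const.mul (continuous_sl k)) amp_summable
  intro k x
  change ‖amp k * sl k x‖ ≤ amp k
  rw [norm_mul, sl_abs, mul_one, Real.norm_of_nonneg (amp_pos k).le]

/-- the sampling function -/
noncomputable def samp (x : ℤ_[2]) : ℝ := -Real.exp (-Phi x) - Real.exp (Phi (x - 1))

lemma continuous_samp : Continuous samp := by
  unfold samp
  have h := continuous_Phi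
  fun_prop

lemma samp_int (n : ℤ) : samp (n : ℤ_[2]) = pot n := by
  unfold samp pot
  rw [Phi_int, show ((n : ℤ_[2]) - 1) = ((n - 1 : ℤ) : ℤ_[2]) by push_cast; ring, Phi_int]

/-- There is a 2-adic integer with residues `4 * (16^(k+1) - 1) / 15`. -/
lemma exists_omega : ∃ w : ℤ_[2], 15 * w = -4 := by
  have h : IsUnit (15 : ℤ_[2]) := by
    rw [PadicInt.isUnit_iff]
    have : (15 : ℤ_[2]) = ((15 : ℤ) : ℤ_[2]) := by norm_num
    rw [this]
    by_contra hc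
    have h1 : ‖((15 : ℤ) : ℤ_[2])‖ < 1 := lt_of_le_of_ne (PadicInt.norm_le_one _) hc
    rw [PadicInt.norm_int_lt_one_iff_dvd] at h1
    norm_num at h1
  obtain ⟨u, hu⟩ := h
  refine ⟨(↑u⁻¹ : ℤ_[2]) * (-4), ?_⟩
  rw [← hu, ← mul_assoc, Units.mul_inv, one_mul]

/-- the partial sums `4 * (16^k - 1) / 15` -/
def cc : ℕ → ℤ
  | 0 => 0
  | k + 1 => cc k + 4 * 16 ^ k

lemma cc_eq (k : ℕ) : 15 * cc k = 4 * 16 ^ k - 4 := by
  induction k with
  | zero => simp [cc]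
  | succ k ih => rw [cc, pow_succ]; linarith

lemma res_add (w : ℤ_[2]) (hw : 15 * w = -4) (k : ℕ) (n : ℤ) :
    res k ((n : ℤ_[2]) + w) = (n + cc (k + 1)) % (2 * hp k) := by
  have h1 : (15 : ZMod (2 ^ (4 * (k + 1)))) * PadicInt.toZModPow (4 * (k + 1)) w = -4 := by
    have := congrArg (PadicInt.toZModPow (p := 2) (4 * (k + 1))) hw
    rw [map_mul, map_neg, map_ofNat, map_ofNat] at this
    exact this
  have h2 : (15 : ZMod (2 ^ (4 * (k + 1)))) * ((cc (k + 1) : ℤ) : ZMod (2 ^ (4 * (k + 1)))) = -4 := by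
    have h3 := congrArg (fun z : ℤ => (z : ZMod (2 ^ (4 * (k + 1))))) (cc_eq (k + 1))
    simp only [Int.cast_mul, Int.cast_sub, Int.cast_pow, Int.cast_ofNat] at h3
    rw [h3]
    have h4 : ((16 : ZMod (2 ^ (4 * (k + 1)))) ^ (k + 1)) = 0 := by
      have : ((2 ^ (4 * (k + 1)) : ℕ) : ZMod (2 ^ (4 * (k + 1)))) = 0 := ZMod.natCast_self _
      rw [← this]
      push_cast
      have e : (2 : ZMod (2 ^ (4 * (k + 1)))) ^ (4 * (k + 1)) = (2 ^ 4) ^ (k + 1) := pow_mul _ _ _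
      rw [e]
      congr 1
      norm_num
    rw [h4]; ring
  have h15 : IsUnit (15 : ZMod (2 ^ (4 * (k + 1)))) := by
    have : IsUnit ((15 : ℕ) : ZMod (2 ^ (4 * (k + 1)))) := by
      rw [ZMod.isUnit_iff_coprime]
      apply Nat.Coprime.pow_right
      norm_num
    exact_mod_cast this
  have h5 : PadicInt.toZModPow (4 * (k + 1)) w = ((cc (k + 1) : ℤ) : ZMod (2 ^ (4 * (k + 1)))) := by
    apply h15.mul_left_cancel
    rw [h1, h2]
  unfold res
  rw [map_add, map_intCast, h5, ← Int.cast_add, ZMod.val_intCast, two_hp]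

lemma hp_succ_le {K k : ℕ} (h : K < k) : 2 * hp K ∣ 2 * hp k := by
  unfold hp
  apply mul_dvd_mul_left
  apply mul_dvd_mul_left
  exact pow_dvd_pow _ h.le

/-- for the levels `k ≥ K` the slope is `1` on the window `|n| ≤ 3 * 16^K` -/
lemma sl_high (w : ℤ_[2]) (hw : 15 * w = -4) {K k : ℕ} (h : K ≤ k) (n : ℤ)
    (hn : |n| ≤ 3 * 16 ^ K) : sl k ((n : ℤ_[2]) + w) = 1 := by
  unfold sl
  rw [res_add w hw, if_pos]
  have h1 : (16 : ℤ) ^ K ≤ 16 ^ k := pow_le_pow_right₀ (by norm_num) h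
  have h2 := cc_eq (k + 1)
  rw [pow_succ] at h2
  have h3 := abs_le.1 hn
  have h4 : (1 : ℤ) ≤ 16 ^ K := one_le_pow₀ (by norm_num)
  rw [Int.emod_eq_of_lt]
  · unfold hp
    omega
  · omega
  · unfold hp
    omega

/-- for the levels `k < K` the slope is `16^K`-periodic -/
lemma sl_low (w : ℤ_[2]) (hw : 15 * w = -4) {K k : ℕ} (h : k < K) (n : ℤ) :
    sl k (((n + 16 ^ K : ℤ) : ℤ_[2]) + w) = sl k ((n : ℤ_[2]) + w) := by
  unfold sl
  rw [res_add w hw, res_add w hw]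
  have : 2 * hp k ∣ 16 ^ K := by
    have e : 2 * hp k = 16 ^ (k + 1) := by unfold hp; rw [pow_succ]; ring
    rw [e]
    exact pow_dvd_pow _ h
  have h2 : (n + 16 ^ K + cc (k + 1)) % (2 * hp k) = (n + cc (k + 1)) % (2 * hp k) := by
    obtain ⟨c, hc⟩ := this
    rw [hc, show n + 2 * hp k * c + cc (k + 1) = n + cc (k + 1) + 2 * hp k * c by ring,
      Int.add_mul_emod_self_left]
  rw [h2]

lemma Phi_per (w : ℤ_[2]) (hw : 15 * w = -4) (K : ℕ) (n : ℤ) (h1 : |n| ≤ 3 * 16 ^ K)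
    (h2 : |n + 16 ^ K| ≤ 3 * 16 ^ K) :
    Phi (((n + 16 ^ K : ℤ) : ℤ_[2]) + w) = Phi ((n : ℤ_[2]) + w) := by
  unfold Phi
  congr 1
  ext k
  rcases le_or_gt K k with h | h
  · rw [sl_high w hw h _ h2, sl_high w hw h _ h1]
  · rw [sl_low w hw h]

lemma samp_per (w : ℤ_[2]) (hw : 15 * w = -4) (K : ℕ) (n : ℤ) (h1 : 1 - 16 ^ K ≤ n)
    (h2 : n ≤ 16 ^ K) :
    samp (((n + 16 ^ K : ℤ) : ℤ_[2]) + w) = samp ((n : ℤ_[2]) + w) := by
  have h4 : (1 : ℤ) ≤ 16 ^ K := one_le_pow₀ (by norm_num)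
  unfold samp
  rw [Phi_per w hw K n (abs_le.2 ⟨by omega, by omega⟩) (abs_le.2 ⟨by omega, by omega⟩)]
  have e1 : ((n + 16 ^ K : ℤ) : ℤ_[2]) + w - 1 = (((n - 1) + 16 ^ K : ℤ) : ℤ_[2]) + w := by
    push_cast; ring
  have e2 : (n : ℤ_[2]) + w - 1 = ((n - 1 : ℤ) : ℤ_[2]) + w := by push_cast; ring
  rw [e1, e2, Phi_per w hw K (n - 1) (abs_le.2 ⟨by omega, by omega⟩)
    (abs_le.2 ⟨by omega, by omega⟩)]

end Pool.Agent.H792R3
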